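import Pool.Agent.Lib.MP_342ba6_al.Chain

/-!
The countable case: the first syzygy of a countable flat module over a countable ring has the
lifting property.
-/

namespace Pool.Agent.Lib.MP_342ba6_al

universe u

theorem exists_seq {σ : Type*} (r : ℕ → σ → σ → Prop) (s0 : σ)
    (h : ∀ n s, ∃ s', r n s s') : ∃ f : ℕ → σ, f 0 = s0 ∧ ∀ n, r n (f n) (f (n + 1)) := by
  choose next hnext using h
  exact ⟨fun n => Nat.rec s0 (fun n s => next n s) n, rfl, fun n => hnext n _⟩

theorem LocSplit.finRank {A : Type*} [Ring A] {ι : Type*} {K : Submodule A (ι →₀ A)}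
    (h : LocSplit K) (s : Finset (ι →₀ A)) (hs : ∀ x ∈ s, x ∈ K) :
    ∃ (T : (ι →₀ A) →ₗ[A] (ι →₀ A)) (t : Finset (ι →₀ A)), (∀ x ∈ t, x ∈ K) ∧
      (∀ l, T l ∈ Submodule.span A (t : Set (ι →₀ A))) ∧ ∀ x ∈ s, T x = x := by
  classical
  obtain ⟨T, hT, hTs⟩ := h.finset s hs
  let v : Finset ι := s.biUnion (fun x => x.support)
  let P : (ι →₀ A) →ₗ[A] (ι →₀ A) := Finsupp.linearCombination A
    (fun i => if i ∈ v then Finsupp.single i 1 else 0)
  have hP : ∀ x ∈ s, P x = x := fun x hx => by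
    rw [Finsupp.linearCombination_apply, Finsupp.sum]
    conv_rhs => rw [← Finsupp.sum_single x, Finsupp.sum]
    refine Finset.sum_congr rfl fun i hi => ?_
    rw [if_pos (Finset.mem_biUnion.2 ⟨x, hx, hi⟩)]
    simp
  refine ⟨T.comp P, v.image (fun i => T (Finsupp.single i 1)), ?_, fun l => ?_, fun x hx => ?_⟩
  · intro x hx
    obtain ⟨i, _, rfl⟩ := Finset.mem_image.1 hx
    exact hT _
  · rw [LinearMap.comp_apply, Finsupp.linearCombination_apply, Finsupp.sum, map_sum]
    refine Submodule.sum_mem _ fun i _ => ?_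
    rw [map_smul]
    refine Submodule.smul_mem _ _ ?_
    split_ifs with hi
    · exact Submodule.subset_span (Finset.mem_coe.2 (Finset.mem_image_of_mem _ hi))
    · simp
  · rw [LinearMap.comp_apply, hP x hx, hTs x hx]

theorem countableLift {A : Type*} [Ring A] {ι : Type*} (K : Submodule A (ι →₀ A))
    (hK : LocSplit K) [Countable K] {J D : Type*} [AddCommGroup J] [Module A J]
    [AddCommGroup D] [Module A D] (q : J →ₗ[A] D) (hq : Function.Surjective q)
    (f : K →ₗ[A] D) : ∃ g : K →ₗ[A] J, ∀ x, q (g x) = f x := by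
  classical
  obtain ⟨e, he⟩ := exists_surjective_nat K
  let σ := {p : ((ι →₀ A) →ₗ[A] (ι →₀ A)) × Finset (ι →₀ A) × ((ι →₀ A) →ₗ[A] J) //
    (∀ x ∈ p.2.1, x ∈ K) ∧ (∀ l, p.1 l ∈ Submodule.span A (p.2.1 : Set (ι →₀ A))) ∧
    ∀ l (h : p.1 l ∈ K), q (p.2.2 l) = f ⟨p.1 l, h⟩}
  have hspan : ∀ t : Finset (ι →₀ A), (∀ x ∈ t, x ∈ K) →
      Submodule.span A (t : Set (ι →₀ A)) ≤ K := fun t ht =>
    Submodule.span_le.2 fun x hx => ht x hx
  obtain ⟨F, -, hF⟩ := exists_seq (σ := σ) (fun n s s' =>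
      (∀ l, s'.1.1 (s.1.1 l) = s.1.1 l) ∧ s'.1.1 (e n) = e n ∧
      ∀ x, s.1.1 x = x → s'.1.2.2 x = s.1.2.2 x)
    ⟨(0, ∅, 0), by simp, by simp, fun l h => by
      have h0 : (⟨(0 : (ι →₀ A) →ₗ[A] (ι →₀ A)) l, h⟩ : K) = 0 := rfl
      have h1 : f ⟨(0 : (ι →₀ A) →ₗ[A] (ι →₀ A)) l, h⟩ = 0 := by rw [h0, map_zero]
      have h2 : q ((0 : (ι →₀ A) →ₗ[A] J) l) = 0 := by rw [LinearMap.zero_apply, map_zero]
      exact h2.trans h1.symm⟩ (by
    rintro n ⟨⟨T, t, S⟩, h1, h2, h3⟩
    simp only at h1 h2 h3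
    obtain ⟨T', t', ht', hTt', hT'⟩ := hK.finRank (insert (e n : ι →₀ A) t) (by
      intro x hx
      rcases Finset.mem_insert.1 hx with rfl | hx
      · exact (e n).2
      · exact h1 x hx)
    have hfix : ∀ x ∈ Submodule.span A (t : Set (ι →₀ A)), T' x = x := by
      intro x hx
      have : Set.EqOn T' (LinearMap.id : (ι →₀ A) →ₗ[A] (ι →₀ A))
          (Submodule.span A (t : Set (ι →₀ A)) : Set (ι →₀ A)) := by
        apply LinearMap.eqOn_span
        intro y hy
        exact hT' y (Finset.mem_insert_of_mem hy)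
      exact this hx
    have hT'K : ∀ l, T' l ∈ K := fun l => hspan t' ht' (hTt' l)
    obtain ⟨g, hg⟩ := free_lift q hq (f.comp (LinearMap.codRestrict K T' hT'K))
    refine ⟨⟨(T', t', S + g.comp (LinearMap.id - T)), ht', hTt', fun l h => ?_⟩,
      fun l => hfix _ (h2 l), hT' _ (Finset.mem_insert_self _ _), fun x hx => ?_⟩
    · have hTK : T l ∈ K := hspan t h1 (h2 l)
      simp only [LinearMap.add_apply, LinearMap.comp_apply, LinearMap.sub_apply,
        LinearMap.id_apply, map_add]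
      rw [h3 l hTK, hg, LinearMap.comp_apply, ← map_add]
      congr 1
      apply Subtype.ext
      change T l + T' (l - T l) = T' l
      rw [map_sub, hfix _ (h2 l)]
      abel
    · simp only [LinearMap.add_apply, LinearMap.comp_apply, LinearMap.sub_apply,
        LinearMap.id_apply]
      rw [hx, sub_self, map_zero, add_zero])
  have hstep : ∀ n x, (F n).1.1 x = x → (F (n + 1)).1.1 x = x := fun n x hx => by
    have := (hF n).1 x
    rwa [hx] at this
  have hex : ∀ x : K, ∃ N, ∀ n, N ≤ n → (F n).1.1 x = x := by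
    intro x
    obtain ⟨m, rfl⟩ := he x
    refine ⟨m + 1, fun n hn => ?_⟩
    induction n, hn using Nat.le_induction with
    | base => exact (hF m).2.1
    | succ n _ ih => exact hstep n _ ih
  choose N hN using hex
  have hS : ∀ (x : K) n, N x ≤ n → (F n).1.2.2 x = (F (N x)).1.2.2 x := by
    intro x n hn
    induction n, hn using Nat.le_induction with
    | base => rfl
    | succ n hn ih => rw [(hF n).2.2 _ (hN x n hn), ih]
  refine ⟨{ toFun := fun x => (F (N x)).1.2.2 x, map_add' := fun x y => ?_,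
            map_smul' := fun r x => ?_ }, fun x => ?_⟩
  · have h1 := hS (x + y) (max (N (x + y)) (max (N x) (N y))) (le_max_left _ _)
    have h2 := hS x (max (N (x + y)) (max (N x) (N y)))
      (le_trans (le_max_left _ _) (le_max_right _ _))
    have h3 := hS y (max (N (x + y)) (max (N x) (N y)))
      (le_trans (le_max_right _ _) (le_max_right _ _))
    rw [← h1, ← h2, ← h3, ← map_add]
    rfl
  · have h1 := hS (r • x) (max (N (r • x)) (N x)) (le_max_left _ _)
    have h2 := hS x (max (N (r • x)) (N x)) (le_max_right _ _)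
    rw [← h1, ← h2, RingHom.id_apply, ← map_smul]
    rfl
  · have h1 := hN x (N x) le_rfl
    have h2 := (F (N x)).2.2.2 x (by rw [h1]; exact x.2)
    change q ((F (N x)).1.2.2 x) = f x
    rw [h2]
    congr 1
    exact Subtype.ext h1

end Pool.Agent.Lib.MP_342ba6_al
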