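import Mathlib

/-!
Basic homological tools, in elementary form: canonical free presentations, flatness by
the equational criterion, extension property, gluing.
-/

namespace Pool.Agent.Lib.MP_342ba6_al

universe u

section Factor

variable {B A : Type*} [Ring B] [Ring A] {φ : B →+* A}

/-- A semilinear map vanishing on the kernel of a surjective linear map factors through it. -/
theorem factor {M N C : Type*} [AddCommGroup M] [Module B M] [AddCommGroup N] [Module B N]
    [AddCommGroup C] [Module A C] (f : M →ₗ[B] N) (hf : Function.Surjective f)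
    (g : M →ₛₗ[φ] C) (h : ∀ m, f m = 0 → g m = 0) :
    ∃ k : N →ₛₗ[φ] C, ∀ m, k (f m) = g m := by
  have key : ∀ m m', f m = f m' → g m = g m' := fun m m' e => by
    have := h (m - m') (by rw [map_sub, e, sub_self])
    rwa [map_sub, sub_eq_zero] at this
  refine ⟨{ toFun := fun n => g (Function.surjInv hf n), map_add' := ?_, map_smul' := ?_ }, ?_⟩
  · intro x y
    rw [← map_add]
    apply key
    simp [Function.surjInv_eq]
  · intro r x
    rw [← LinearMap.map_smulₛₗ]
    apply key
    simp [Function.surjInv_eq]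
  · intro m
    exact key _ _ (Function.surjInv_eq hf _)

/-- Gluing lemma. -/
theorem glue {Q P C : Type*} [AddCommGroup Q] [Module B Q] [AddCommGroup P] [Module B P]
    [AddCommGroup C] [Module A C] (U : Submodule B Q) (ρ : U →ₛₗ[φ] C) (l : P →ₗ[B] Q)
    (g : P →ₛₗ[φ] C) (hg : ∀ p (h : l p ∈ U), g p = ρ ⟨l p, h⟩)
    (V : Submodule B Q) (hUV : U ≤ V) (hlV : ∀ p, l p ∈ V)
    (hV : ∀ v ∈ V, ∃ u ∈ U, ∃ p, v = u + l p) :
    ∃ r : V →ₛₗ[φ] C, (∀ (x : Q) (hx : x ∈ U), r ⟨x, hUV hx⟩ = ρ ⟨x, hx⟩) ∧
      (∀ p, r ⟨l p, hlV p⟩ = g p) := by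
  let f : (U × P) →ₗ[B] V :=
    { toFun := fun z => ⟨z.1 + l z.2, V.add_mem (hUV z.1.2) (hlV z.2)⟩
      map_add' := fun x y => by
        apply Subtype.ext
        simp only [Prod.fst_add, Prod.snd_add, Submodule.coe_add, map_add]
        abel
      map_smul' := fun r x => by
        apply Subtype.ext
        simp }
  have hf : Function.Surjective f := fun v => by
    obtain ⟨u, hu, p, hp⟩ := hV v v.2
    exact ⟨(⟨u, hu⟩, p), Subtype.ext hp.symm⟩
  let g' : (U × P) →ₛₗ[φ] C :=
    { toFun := fun z => ρ z.1 + g z.2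
      map_add' := fun x y => by
        simp only [Prod.fst_add, Prod.snd_add, map_add]
        abel
      map_smul' := fun r x => by
        simp [smul_add] }
  obtain ⟨k, hk⟩ := factor f hf g' (fun z hz => by
    have hz' : (z.1 : Q) + l z.2 = 0 := congrArg Subtype.val hz
    have h1 : l z.2 = ((-z.1 : U) : Q) := by
      rw [Submodule.coe_neg]
      exact (neg_eq_of_add_eq_zero_right hz').symm
    have h2 : l z.2 ∈ U := by
      rw [h1]; exact (-z.1).2
    change ρ z.1 + g z.2 = 0
    rw [hg z.2 h2]
    have h3 : (⟨l z.2, h2⟩ : U) = -z.1 := Subtype.ext h1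
    rw [h3, map_neg, add_neg_cancel])
  refine ⟨k, fun x hx => ?_, fun p => ?_⟩
  · have := hk (⟨x, hx⟩, 0)
    have e : f (⟨x, hx⟩, 0) = ⟨x, hUV hx⟩ := Subtype.ext (by
      change x + l 0 = x
      simp)
    rw [← e, this]
    change ρ ⟨x, hx⟩ + g 0 = _
    simp
  · have := hk (0, p)
    have e : f (0, p) = ⟨l p, hlV p⟩ := Subtype.ext (by
      change (0 : Q) + l p = l p
      simp)
    rw [← e, this]
    change ρ 0 + g p = _
    simp

end Factor

section Flat

variable (R : Type*) [Ring R]

/-- The canonical presentation of a module. -/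
noncomputable abbrev pr (G : Type*) [AddCommGroup G] [Module R G] : (G →₀ R) →ₗ[R] G :=
  Finsupp.linearCombination R id

variable {R}

theorem pr_single (G : Type*) [AddCommGroup G] [Module R G] (g : G) (r : R) :
    pr R G (Finsupp.single g r) = r • g := by
  simp [pr, Finsupp.linearCombination_single]

theorem pr_surjective (G : Type*) [AddCommGroup G] [Module R G] :
    Function.Surjective (pr R G) := fun g => ⟨Finsupp.single g 1, by simp [pr_single]⟩

/-- A submodule is locally split if each of its elements is fixed by an endomorphism of the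
ambient module with image in the submodule. -/
def LocSplit {L : Type*} [AddCommGroup L] [Module R L] (D : Submodule R L) : Prop :=
  ∀ x ∈ D, ∃ T : L →ₗ[R] L, (∀ l, T l ∈ D) ∧ T x = x

theorem LocSplit.finset {L : Type*} [AddCommGroup L] [Module R L] {D : Submodule R L}
    (h : LocSplit D) (s : Finset L) (hs : ∀ x ∈ s, x ∈ D) :
    ∃ T : L →ₗ[R] L, (∀ l, T l ∈ D) ∧ ∀ x ∈ s, T x = x := by
  classical
  induction s using Finset.induction_on with
  | empty => exact ⟨0, fun l => by simp, fun x hx => by simp at hx⟩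
  | insert a s ha ih =>
    obtain ⟨T, hT, hTs⟩ := ih (fun x hx => hs x (Finset.mem_insert_of_mem hx))
    obtain ⟨T', hT', hT'a⟩ := h (a - T a) (D.sub_mem (hs a (Finset.mem_insert_self _ _)) (hT a))
    refine ⟨T + T' ∘ₗ (LinearMap.id - T), fun l => ?_, fun x hx => ?_⟩
    · exact D.add_mem (hT l) (hT' _)
    · rcases Finset.mem_insert.1 hx with rfl | hx
      · simp [hT'a]
      · simp [hTs x hx]

/-- Locally split kernels do not depend on the (projective) presentation. -/
theorem LocSplit.transfer {L L' M : Type*} [AddCommGroup L] [Module R L] [AddCommGroup L']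
    [Module R L'] [AddCommGroup M] [Module R M] (p : L →ₗ[R] M) (p' : L' →ₗ[R] M)
    (a : L →ₗ[R] L') (b : L' →ₗ[R] L) (ha : ∀ x, p' (a x) = p x) (hb : ∀ x, p (b x) = p' x)
    (h : LocSplit (LinearMap.ker p')) : LocSplit (LinearMap.ker p) := by
  intro x hx
  rw [LinearMap.mem_ker] at hx
  obtain ⟨T, hT, hTx⟩ := h (a x) (by rw [LinearMap.mem_ker, ha, hx])
  refine ⟨LinearMap.id - b ∘ₗ (LinearMap.id - T) ∘ₗ a, fun l => ?_, ?_⟩
  · have h1 : p' (T (a l)) = 0 := by simpa using hT (a l)
    simp [hb, ha, h1]
  · simp [hTx]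

/-- Flatness, by the equational criterion for the canonical presentation. -/
def EqFlat (R : Type*) [Ring R] (G : Type*) [AddCommGroup G] [Module R G] : Prop :=
  LocSplit (LinearMap.ker (pr R G))

/-- Free modules lift. -/
theorem free_lift {ι L M : Type*} [AddCommGroup L] [Module R L] [AddCommGroup M]
    [Module R M] (p : L →ₗ[R] M) (hp : Function.Surjective p) (f : (ι →₀ R) →ₗ[R] M) :
    ∃ g : (ι →₀ R) →ₗ[R] L, ∀ x, p (g x) = f x := by
  refine ⟨Finsupp.linearCombination R (fun i => Function.surjInv hp (f (Finsupp.single i 1))),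
    fun x => ?_⟩
  have : p ∘ₗ Finsupp.linearCombination R
      (fun i => Function.surjInv hp (f (Finsupp.single i 1))) = f := by
    ext i
    simp [Finsupp.linearCombination_single, Function.surjInv_eq]
  exact congrArg (fun h => h x) this

theorem EqFlat.locSplit {ι M : Type*} [AddCommGroup M] [Module R M] (h : EqFlat R M)
    (p : (ι →₀ R) →ₗ[R] M) (hp : Function.Surjective p) : LocSplit (LinearMap.ker p) := by
  obtain ⟨a, ha⟩ := free_lift (pr R M) (pr_surjective M) p
  obtain ⟨b, hb⟩ := free_lift p hp (pr R M)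
  exact LocSplit.transfer p (pr R M) a b ha hb h

theorem EqFlat.of_locSplit {ι M : Type*} [AddCommGroup M] [Module R M]
    (p : (ι →₀ R) →ₗ[R] M) (hp : Function.Surjective p) (h : LocSplit (LinearMap.ker p)) :
    EqFlat R M := by
  obtain ⟨a, ha⟩ := free_lift (pr R M) (pr_surjective M) p
  obtain ⟨b, hb⟩ := free_lift p hp (pr R M)
  exact LocSplit.transfer (pr R M) p b a hb ha h

theorem EqFlat.of_equiv {M N : Type*} [AddCommGroup M] [Module R M] [AddCommGroup N]
    [Module R N] (h : EqFlat R M) (e : M ≃ₗ[R] N) : EqFlat R N := by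
  refine EqFlat.of_locSplit (e.toLinearMap ∘ₗ pr R M) (e.surjective.comp (pr_surjective M)) ?_
  have : LinearMap.ker (e.toLinearMap ∘ₗ pr R M) = LinearMap.ker (pr R M) := by
    ext x
    simp
  rw [this]
  exact h

/-- A retract of a flat module is flat. -/
theorem EqFlat.retract {M N : Type*} [AddCommGroup M] [Module R M] [AddCommGroup N]
    [Module R N] (h : EqFlat R M) (i : N →ₗ[R] M) (r : M →ₗ[R] N) (hri : ∀ x, r (i x) = x) :
    EqFlat R N := by
  intro k hk
  rw [LinearMap.mem_ker] at hk
  have h1 : ∀ l : N →₀ R, pr R M (Finsupp.lmapDomain R R i l) = i (pr R N l) := fun l => by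
    have : pr R M ∘ₗ Finsupp.lmapDomain R R i = i ∘ₗ pr R N := by
      ext x; simp
    exact congrArg (fun h => h l) this
  have h2 : ∀ l : M →₀ R, pr R N (Finsupp.lmapDomain R R r l) = r (pr R M l) := fun l => by
    have : pr R N ∘ₗ Finsupp.lmapDomain R R r = r ∘ₗ pr R M := by
      ext x; simp
    exact congrArg (fun h => h l) this
  obtain ⟨T, hT, hTk⟩ := h (Finsupp.lmapDomain R R i k) (by
    rw [LinearMap.mem_ker, h1, hk, map_zero])
  refine ⟨Finsupp.lmapDomain R R r ∘ₗ T ∘ₗ Finsupp.lmapDomain R R i, fun l => ?_, ?_⟩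
  · rw [LinearMap.mem_ker]
    have := hT (Finsupp.lmapDomain R R i l)
    rw [LinearMap.mem_ker] at this
    simp only [LinearMap.comp_apply]
    rw [h2, this, map_zero]
  · simp only [LinearMap.comp_apply, hTk]
    have : Finsupp.lmapDomain R R r ∘ₗ Finsupp.lmapDomain R R i = LinearMap.id := by
      ext x; simp [hri]
    exact congrArg (fun h => h k) this

/-- The kernel of a surjection from a free module onto a flat module is flat. -/
theorem EqFlat.ker {ι M : Type*} [AddCommGroup M] [Module R M] (h : EqFlat R M)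
    (p : (ι →₀ R) →ₗ[R] M) (hp : Function.Surjective p) : EqFlat R (LinearMap.ker p) := by
  classical
  have hs := h.locSplit p hp
  intro k hk
  rw [LinearMap.mem_ker] at hk
  obtain ⟨T, hT, hTk⟩ := hs.finset (Finset.image Subtype.val k.support : Finset (ι →₀ R)) (by
    intro x hx
    obtain ⟨y, _, rfl⟩ := Finset.mem_image.1 hx
    exact y.2)
  let b : (ι →₀ R) →ₗ[R] (LinearMap.ker p →₀ R) :=
    Finsupp.linearCombination R
      (fun i => Finsupp.single (⟨T (Finsupp.single i 1), hT _⟩ : LinearMap.ker p) (1 : R))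
  have hb : ∀ x, ((pr R (LinearMap.ker p) (b x) : LinearMap.ker p) : ι →₀ R) = T x := by
    intro x
    have : (LinearMap.ker p).subtype ∘ₗ pr R (LinearMap.ker p) ∘ₗ b = T := by
      ext i
      simp [b]
    exact congrArg (fun h => h x) this
  refine ⟨Finsupp.linearCombination R (fun x : LinearMap.ker p =>
    if x ∈ k.support then Finsupp.single x 1 - b (x : ι →₀ R) else 0), fun l => ?_, ?_⟩
  · rw [LinearMap.mem_ker]
    have h0 : pr R (LinearMap.ker p) ∘ₗ Finsupp.linearCombination R (fun x : LinearMap.ker p =>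
        if x ∈ k.support then Finsupp.single x 1 - b (x : ι →₀ R) else 0) = 0 := by
      apply Finsupp.lhom_ext'
      intro x
      apply LinearMap.ext_ring
      change pr R (LinearMap.ker p) (Finsupp.linearCombination R (fun x : LinearMap.ker p =>
        if x ∈ k.support then Finsupp.single x 1 - b (x : ι →₀ R) else 0)
        (Finsupp.single x 1)) = 0
      rw [Finsupp.linearCombination_single, one_smul]
      split_ifs with hx
      · rw [map_sub, pr_single, one_smul]
        have : pr R (LinearMap.ker p) (b (x : ι →₀ R)) = x := by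
          apply Subtype.ext
          rw [hb]
          exact hTk _ (Finset.mem_image_of_mem _ hx)
        rw [this, sub_self]
      · simp
    exact congrArg (fun h => h l) h0
  · rw [Finsupp.linearCombination_apply, Finsupp.sum]
    have h1 : ∀ x ∈ k.support, k x • (if x ∈ k.support then Finsupp.single x (1 : R) -
        b (x : ι →₀ R) else 0) = Finsupp.single x (k x) - k x • b (x : ι →₀ R) := by
      intro x hx
      rw [if_pos hx, smul_sub, Finsupp.smul_single, smul_eq_mul, mul_one]
    rw [Finset.sum_congr rfl h1, Finset.sum_sub_distrib]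
    have h2 : ∑ x ∈ k.support, k x • b (x : ι →₀ R) = 0 := by
      have h3 : ((pr R (LinearMap.ker p) k : LinearMap.ker p) : ι →₀ R) = 0 := by
        rw [hk]; rfl
      have h4 : ((pr R (LinearMap.ker p) k : LinearMap.ker p) : ι →₀ R)
          = ∑ x ∈ k.support, k x • (x : ι →₀ R) := by
        rw [pr, Finsupp.linearCombination_apply, Finsupp.sum]
        push_cast
        rfl
      calc ∑ x ∈ k.support, k x • b (x : ι →₀ R)
          = b (∑ x ∈ k.support, k x • (x : ι →₀ R)) := by simp [map_sum]
        _ = 0 := by rw [← h4, h3, map_zero]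
    rw [h2, sub_zero]
    exact Finsupp.sum_single k

end Flat

end Pool.Agent.Lib.MP_342ba6_al
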