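import Pool.Agent.Lib.MP_342ba6_al.ExtOne

/-!
Extension of linear maps along well-ordered chains of submodules.
-/

namespace Pool.Agent.Lib.MP_342ba6_al

universe u

theorem zornExt {B : Type*} [Ring B] {L E : Type*} [AddCommGroup L] [Module B L]
    [AddCommGroup E] [Module B E] (Γ : L → E → Prop) (𝒟 : Set (Submodule B L))
    (T : Submodule B L)
    (h𝒟 : ∀ c ⊆ 𝒟, c.Nonempty → IsChain (· ≤ ·) c → sSup c ∈ 𝒟)
    (f0 : L →ₗ.[B] E) (hf0 : f0.domain ∈ 𝒟) (hΓ : ∀ x : f0.domain, Γ x (f0 x))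
    (step : ∀ f : L →ₗ.[B] E, f0 ≤ f → f.domain ∈ 𝒟 → (∀ x : f.domain, Γ x (f x)) →
      f.domain ≠ T → ∃ g : L →ₗ.[B] E, f < g ∧ g.domain ∈ 𝒟 ∧ ∀ x : g.domain, Γ x (g x)) :
    ∃ g : L →ₗ.[B] E, f0 ≤ g ∧ g.domain = T ∧ ∀ x : g.domain, Γ x (g x) := by
  obtain ⟨m, hm, hmax⟩ := zorn_le_nonempty₀
    {f : L →ₗ.[B] E | f0 ≤ f ∧ f.domain ∈ 𝒟 ∧ ∀ x : f.domain, Γ x (f x)} (by
      intro c hc hchain y hy
      have hdir : DirectedOn (· ≤ ·) c := hchain.directedOn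
      refine ⟨LinearPMap.sSup c hdir, ⟨(hc hy).1.trans (LinearPMap.le_sSup hdir hy), ?_, ?_⟩,
        fun z hz => LinearPMap.le_sSup hdir hz⟩
      · rw [LinearPMap.domain_sSup]
        apply h𝒟
        · rintro _ ⟨f, hf, rfl⟩
          exact (hc hf).2.1
        · exact ⟨_, y, hy, rfl⟩
        · rintro _ ⟨f, hf, rfl⟩ _ ⟨g, hg, rfl⟩ _
          rcases hchain.total hf hg with h | h
          · exact Or.inl h.1
          · exact Or.inr h.1
      · rintro ⟨x, hx⟩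
        obtain ⟨f, hf, hxf⟩ := (LinearPMap.mem_domain_sSup_iff ⟨y, hy⟩ hdir).1 hx
        have := LinearPMap.sSup_apply hdir hf ⟨x, hxf⟩
        have h2 := (hc hf).2.2 ⟨x, hxf⟩
        rw [← this] at h2
        exact h2) f0 ⟨le_refl _, hf0, hΓ⟩
  refine ⟨m, hm, ?_, hmax.prop.2.2⟩
  by_contra hne
  obtain ⟨g, hg, hg𝒟, hgΓ⟩ := step m hm hmax.prop.2.1 hmax.prop.2.2 hne
  exact absurd (hmax.le_of_ge ⟨hm.trans hg.le, hg𝒟, hgΓ⟩ hg.le) (not_le_of_gt hg)

/-- Extension along a well-ordered chain of submodules. -/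
theorem woExt {B : Type*} [Ring B] {L E : Type*} [AddCommGroup L] [Module B L]
    [AddCommGroup E] [Module B E] (Γ : L → E → Prop) {W : Type*} [LinearOrder W]
    [WellFoundedLT W] (K : W → Submodule B L) (hK : Monotone K) (K0 : Submodule B L)
    (hK0 : ∀ w, K0 ≤ K w) (P : W → Submodule B L)
    (hP : ∀ w, P w = K0 ⊔ ⨆ v : {v // v < w}, K v) (T : Submodule B L)
    (hT : T = K0 ⊔ ⨆ w, K w) (f0 : K0 →ₗ[B] E) (hf0 : ∀ x : K0, Γ x (f0 x))
    (step : ∀ (w : W) (f : P w →ₗ[B] E), (∀ x : P w, Γ x (f x)) →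
      ∃ g : K w →ₗ[B] E, (∀ x : K w, Γ x (g x)) ∧ ∀ (x : L) (hx : x ∈ P w)
        (hx' : x ∈ K w), g ⟨x, hx'⟩ = f ⟨x, hx⟩) :
    ∃ g : T →ₗ[B] E, (∀ x : T, Γ x (g x)) ∧
      ∀ (x : L) (hx : x ∈ K0) (hx' : x ∈ T), g ⟨x, hx'⟩ = f0 ⟨x, hx⟩ := by
  obtain ⟨g, hg0, hgT, hgΓ⟩ := zornExt Γ
    {D : Submodule B L | D ≤ K0 ⊔ ⨆ w : {w // K w ≤ D}, K w} T (by
      intro c hc _ _
      refine sSup_le fun D hD => (hc hD).trans (sup_le_sup le_rfl ?_)
      exact iSup_le fun w => le_iSup_of_le (⟨w.1, w.2.trans (le_sSup hD)⟩ :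
        {w // K w ≤ sSup c}) le_rfl) ⟨K0, f0⟩
      (show K0 ≤ K0 ⊔ ⨆ w : {w // K w ≤ K0}, K w from le_sup_left) hf0 (by
      rintro ⟨D, f⟩ hf hD hΓ hne
      change D ≤ K0 ⊔ ⨆ w : {w // K w ≤ D}, K w at hD
      have hK0D : K0 ≤ D := hf.1
      have hex : ∃ w, ¬ K w ≤ D := by
        by_contra hcon
        push Not at hcon
        apply hne
        rw [hT]
        exact le_antisymm (hD.trans (sup_le_sup le_rfl (iSup_le fun w => le_iSup K w.1)))
          (sup_le hK0D (iSup_le hcon))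
      obtain ⟨w, hw, hmin⟩ := wellFounded_lt.has_min {w | ¬ K w ≤ D} hex
      have hlt : ∀ v, v < w → K v ≤ D := fun v hv => by
        by_contra hcon
        exact hmin v hcon hv
      have hD' : D = P w := by
        rw [hP]
        apply le_antisymm
        · refine hD.trans (sup_le_sup le_rfl (iSup_le fun v => ?_))
          have : v.1 < w := by
            by_contra hcon
            exact hw ((hK (not_lt.1 hcon)).trans v.2)
          exact le_iSup_of_le (⟨v.1, this⟩ : {v // v < w}) le_rfl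
        · exact sup_le hK0D (iSup_le fun v => hlt v.1 v.2)
      subst hD'
      obtain ⟨g, hgΓ, hg⟩ := step w f hΓ
      have hle : P w ≤ K w := by
        rw [hP]
        exact sup_le (hK0 w) (iSup_le fun v => hK v.2.le)
      refine ⟨⟨K w, g⟩, ?_, ?_, hgΓ⟩
      · refine lt_of_le_of_ne ⟨hle, ?_⟩ ?_
        · rintro ⟨x, hx⟩ ⟨y, hy⟩ hxy
          change x = y at hxy
          subst hxy
          exact (hg x hx hy).symm
        · intro heq
          have := congrArg LinearPMap.domain heq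
          change P w = K w at this
          exact hw this.ge
      · change K w ≤ K0 ⊔ ⨆ v : {v // K v ≤ K w}, K v
        exact le_sup_of_le_right (le_iSup_of_le (⟨w, le_rfl⟩ : {v // K v ≤ K w}) le_rfl))
  obtain ⟨D, g⟩ := g
  change D = _ at hgT
  subst hgT
  refine ⟨g, hgΓ, fun x hx hx' => ?_⟩
  exact (hg0.2 (x := ⟨x, hx⟩) (y := ⟨x, hx'⟩) rfl).symm

/-- The chain lemma. -/
theorem chainLift {A : Type*} [Ring A] {ι : Type*} {C J D : Type*} [AddCommGroup C]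
    [Module A C] [AddCommGroup J] [Module A J] [AddCommGroup D] [Module A D]
    (i : C →ₗ[A] J) (hi : Function.Injective i) (q : J →ₗ[A] D)
    (hq : Function.Surjective q) (hqi : ∀ c, q (i c) = 0) (hex : ∀ e, q e = 0 → ∃ c, i c = e)
    {W : Type*} [LinearOrder W] [WellFoundedLT W] (K : W → Submodule A (ι →₀ A))
    (hK : Monotone K) (P : W → Submodule A (ι →₀ A))
    (hP : ∀ w, P w = ⨆ v : {v // v < w}, K v) (T : Submodule A (ι →₀ A))
    (hT : T = ⨆ w, K w)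
    (h1 : ∀ w, ∀ r : P w →ₗ[A] C, ∃ g : (ι →₀ A) →ₗ[A] C, ∀ x : P w, g x = r x)
    (h2 : ∀ w, ∀ r : K w →ₗ[A] D, ∃ g : (ι →₀ A) →ₗ[A] D, ∀ x : K w, g x = r x)
    (f : T →ₗ[A] D) : ∃ g : T →ₗ[A] J, ∀ x, q (g x) = f x := by
  have step : ∀ (w : W) (f' : P w →ₗ[A] J),
      (∀ x : P w, ∀ h : (x : ι →₀ A) ∈ T, q (f' x) = f ⟨x, h⟩) →
      ∃ g : K w →ₗ[A] J, (∀ x : K w, ∀ h : (x : ι →₀ A) ∈ T, q (g x) = f ⟨x, h⟩) ∧
        ∀ (x : ι →₀ A) (hx : x ∈ P w) (hx' : x ∈ K w), g ⟨x, hx'⟩ = f' ⟨x, hx⟩ := by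
    intro w f' hf'
    have hle : K w ≤ T := by rw [hT]; exact le_iSup K w
    have hle2 : P w ≤ K w := by rw [hP]; exact iSup_le fun v => hK v.2.le
    obtain ⟨fh, hfh⟩ := h2 w (f.comp (Submodule.inclusion hle))
    obtain ⟨gh, hgh⟩ := free_lift q hq fh
    have hc : ∀ x : P w, ∃ c, i c = f' x - gh x := fun x => hex _ (by
        rw [map_sub, hgh, hf' x (hle (hle2 x.2)), sub_eq_zero]
        exact (hfh ⟨x, hle2 x.2⟩).symm)
    choose c hc using hc
    obtain ⟨rh, hrh⟩ := h1 w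
      { toFun := c
        map_add' := fun x y => hi (by
          rw [map_add, hc, hc, hc, map_add, Submodule.coe_add, map_add]
          abel)
        map_smul' := fun r x => hi (by
          rw [map_smul, hc, hc, map_smul, Submodule.coe_smul, map_smul, RingHom.id_apply,
            smul_sub]) }
    refine ⟨(gh + i.comp rh).comp (K w).subtype, fun x h => ?_, fun x hx hx' => ?_⟩
    · simp only [LinearMap.comp_apply, LinearMap.add_apply, Submodule.subtype_apply, map_add]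
      rw [hgh, hqi, add_zero]
      exact hfh x
    · simp only [LinearMap.comp_apply, LinearMap.add_apply, Submodule.subtype_apply]
      have h3 : rh x = c ⟨x, hx⟩ := hrh ⟨x, hx⟩
      rw [h3, hc]
      simp
  obtain ⟨g, hg, -⟩ := woExt (fun (x : ι →₀ A) (y : J) => ∀ h : x ∈ T, q y = f ⟨x, h⟩)
    K hK ⊥ (fun _ => bot_le) P (fun w => by rw [hP, bot_sup_eq]) T (by rw [hT, bot_sup_eq])
    0 (fun x h => by
      have : (⟨x, h⟩ : T) = 0 := Subtype.ext ((Submodule.mem_bot A).1 x.2)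
      rw [this]
      simp) step
  exact ⟨g, fun x => hg x x.2⟩

end Pool.Agent.Lib.MP_342ba6_al
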