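import Mathlib

/-!
Closure of subsets under countably valued finitary operations.
-/

namespace Pool.Agent.Lib.MP_342ba6_al

universe u v

open Cardinal

section

variable {D : Type u}

/-- Closedness under a set-valued operation on finite lists. -/
def ClosedUnder (F : List D → Set D) (S : Set D) : Prop :=
  ∀ l : List D, (∀ x ∈ l, x ∈ S) → F l ⊆ S

/-- One step of the closure. -/
def clStep (F : List D → Set D) (S : Set D) : Set D :=
  S ∪ ⋃ l : {l : List D // ∀ x ∈ l, x ∈ S}, F l

/-- The closure. -/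
def clos (F : List D → Set D) (S : Set D) : Set D := ⋃ n : ℕ, (clStep F)^[n] S

variable (F : List D → Set D)

theorem subset_clStep (S : Set D) : S ⊆ clStep F S := Set.subset_union_left

theorem iterate_mono (S : Set D) : Monotone (fun n : ℕ => (clStep F)^[n] S) := by
  apply monotone_nat_of_le_succ
  intro n
  simp only [Function.iterate_succ', Function.comp_apply]
  exact subset_clStep F _

theorem subset_clos (S : Set D) : S ⊆ clos F S := fun _ hx => Set.mem_iUnion.2 ⟨0, hx⟩

theorem closed_clos (S : Set D) : ClosedUnder F (clos F S) := by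
  intro l hl
  have : ∃ n, ∀ x ∈ l, x ∈ (clStep F)^[n] S := by
    induction l with
    | nil => exact ⟨0, fun x hx => by simp at hx⟩
    | cons a l ih =>
      obtain ⟨n, hn⟩ := ih (fun x hx => hl x (List.mem_cons_of_mem _ hx))
      obtain ⟨m, hm⟩ := Set.mem_iUnion.1 (hl a List.mem_cons_self)
      refine ⟨max n m, fun x hx => ?_⟩
      rcases List.mem_cons.1 hx with rfl | hx
      · exact iterate_mono F S (le_max_right n m) hm
      · exact iterate_mono F S (le_max_left n m) (hn x hx)
  obtain ⟨n, hn⟩ := this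
  intro x hx
  refine Set.mem_iUnion.2 ⟨n + 1, ?_⟩
  rw [Function.iterate_succ', Function.comp_apply]
  exact Or.inr (Set.mem_iUnion.2 ⟨⟨l, hn⟩, hx⟩)

theorem clos_subset {S T : Set D} (hST : S ⊆ T) (hT : ClosedUnder F T) : clos F S ⊆ T := by
  refine Set.iUnion_subset fun n => ?_
  induction n with
  | zero => exact hST
  | succ n ih =>
    rw [Function.iterate_succ', Function.comp_apply]
    refine Set.union_subset ih (Set.iUnion_subset fun l => ?_)
    exact hT l.1 fun x hx => ih (l.2 x hx)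

theorem clos_mono {S T : Set D} (hST : S ⊆ T) : clos F S ⊆ clos F T :=
  clos_subset F (hST.trans (subset_clos F T)) (closed_clos F T)

theorem mk_lists_le {S : Set D} {c : Cardinal.{u}} (hc : ℵ₀ ≤ c) (hS : #S ≤ c) :
    #{l : List D // ∀ x ∈ l, x ∈ S} ≤ c := by
  have h1 : #{l : List D // ∀ x ∈ l, x ∈ S} ≤ #(List S) := by
    refine Cardinal.mk_le_of_surjective (f := fun l : List S =>
      (⟨l.map Subtype.val, fun x hx => by
        obtain ⟨y, _, rfl⟩ := List.mem_map.1 hx
        exact y.2⟩ : {l : List D // ∀ x ∈ l, x ∈ S})) ?_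
    rintro ⟨l, hl⟩
    refine ⟨l.pmap (fun x hx => ⟨x, hx⟩) hl, Subtype.ext ?_⟩
    simp [List.map_pmap]
  exact h1.trans ((Cardinal.mk_list_le_max _).trans (max_le hc hS))

theorem mk_clos_le {S : Set D} {c : Cardinal.{u}} (hc : ℵ₀ ≤ c) (hF : ∀ l, #(F l) ≤ c)
    (hS : #S ≤ c) : #(clos F S) ≤ c := by
  have h1 : ∀ n : ℕ, #((clStep F)^[n] S : Set D) ≤ c := by
    intro n
    induction n with
    | zero => exact hS
    | succ n ih =>
      rw [Function.iterate_succ', Function.comp_apply]
      refine (Cardinal.mk_union_le _ _).trans ?_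
      refine Cardinal.add_le_of_le hc ih ?_
      refine (Cardinal.mk_iUnion_le _).trans ?_
      have h3 : (⨆ l : {l : List D // ∀ x ∈ l, x ∈ (clStep F)^[n] S}, #(F l.1)) ≤ c :=
        ciSup_le' (fun l => hF l.1)
      exact (mul_le_mul' (mk_lists_le hc ih) h3).trans (Cardinal.mul_eq_self hc).le
  have h2 : clos F S = ⋃ n : ULift.{u} ℕ, (clStep F)^[n.down] S := by
    ext x
    simp [clos]
  rw [h2]
  refine (Cardinal.mk_iUnion_le _).trans ?_
  refine (mul_le_mul' (b := c) (d := c) ?_ (ciSup_le' fun n => h1 _)).trans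
    (Cardinal.mul_eq_self hc).le
  simpa using hc

theorem closedUnder_iUnion {ι : Type*} [Nonempty ι] (S : ι → Set D)
    (hdir : Directed (· ⊆ ·) S) (hS : ∀ i, ClosedUnder F (S i)) : ClosedUnder F (⋃ i, S i) := by
  intro l hl
  have : ∃ i, ∀ x ∈ l, x ∈ S i := by
    induction l with
    | nil => exact ⟨Classical.arbitrary ι, fun x hx => by simp at hx⟩
    | cons a l ih =>
      obtain ⟨n, hn⟩ := ih (fun x hx => hl x (List.mem_cons_of_mem _ hx))
      obtain ⟨m, hm⟩ := Set.mem_iUnion.1 (hl a List.mem_cons_self)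
      obtain ⟨k, hk1, hk2⟩ := hdir n m
      refine ⟨k, fun x hx => ?_⟩
      rcases List.mem_cons.1 hx with rfl | hx
      · exact hk2 hm
      · exact hk1 (hn x hx)
  obtain ⟨i, hi⟩ := this
  exact (hS i l hi).trans (Set.subset_iUnion S i)

end

section Club

variable {D : Type u}

/-- A property holding for all sets closed under some family of operations of size at
most `c`. -/
def IsClub (c : Cardinal.{u}) (P : Set D → Prop) : Prop :=
  ∃ F : List D → Set D, (∀ l, #(F l) ≤ c) ∧ ∀ S, ClosedUnder F S → P S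

theorem IsClub.mono {c : Cardinal.{u}} {P Q : Set D → Prop} (h : IsClub c P)
    (hPQ : ∀ S, P S → Q S) : IsClub c Q := by
  obtain ⟨F, hF, h⟩ := h
  exact ⟨F, hF, fun S hS => hPQ S (h S hS)⟩

theorem IsClub.and {c : Cardinal.{u}} (hc : ℵ₀ ≤ c) {P Q : Set D → Prop} (h : IsClub c P)
    (h' : IsClub c Q) : IsClub c (fun S => P S ∧ Q S) := by
  obtain ⟨F, hF, h⟩ := h
  obtain ⟨F', hF', h'⟩ := h'
  refine ⟨fun l => F l ∪ F' l, fun l => ?_, fun S hS => ⟨h S fun l hl => ?_, h' S fun l hl => ?_⟩⟩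
  · exact (Cardinal.mk_union_le _ _).trans (Cardinal.add_le_of_le hc (hF l) (hF' l))
  · exact Set.subset_union_left.trans (hS l hl)
  · exact Set.subset_union_right.trans (hS l hl)

/-- The basic closure rule. -/
theorem IsClub.rule {c : Cardinal.{u}} (hc : ℵ₀ ≤ c) {O : Type v} (supp : O → Set D)
    (hfin : ∀ o, (supp o).Finite)
    (w : O → Set D) (hw : ∀ o, #(w o) ≤ c)
    (hcount : ∀ T : Set D, T.Finite → Cardinal.lift.{u} #{o | supp o ⊆ T} ≤ Cardinal.lift.{v} c) :
    IsClub c (fun S : Set D => ∀ o, supp o ⊆ S → w o ⊆ S) := by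
  refine ⟨fun l => ⋃ o : {o | supp o ⊆ {x | x ∈ l}}, w o, fun l => ?_, fun S hS o ho => ?_⟩
  · have h1 := hcount {x | x ∈ l} l.finite_toSet
    rw [← Cardinal.lift_le.{v}]
    have h2 : (⨆ o : {o | supp o ⊆ {x | x ∈ l}}, Cardinal.lift.{v, u} #(w o.1)) ≤
        Cardinal.lift.{v, u} c := ciSup_le' (fun o => Cardinal.lift_le.2 (hw o.1))
    have h3 := Cardinal.mk_iUnion_le_lift (fun o : {o | supp o ⊆ {x | x ∈ l}} => w o.1)
    have h4 : Cardinal.lift.{v, u} c * Cardinal.lift.{v, u} c = Cardinal.lift.{v, u} c :=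
      Cardinal.mul_eq_self (by simpa using hc)
    exact h3.trans ((mul_le_mul' h1 h2).trans h4.le)
  · have h1 := hS (hfin o).toFinset.toList (fun x hx => ho (by simpa using hx))
    refine Set.Subset.trans ?_ h1
    intro y hy
    refine Set.mem_iUnion.2 ⟨⟨o, ?_⟩, hy⟩
    intro x hx
    simpa using hx

/-- The closure rule for countable sets. -/
theorem IsClub.ruleC {O : Type v} (supp : O → Set D) (hfin : ∀ o, (supp o).Finite)
    (w : O → Set D) (hw : ∀ o, (w o).Countable)
    (hcount : ∀ T : Set D, T.Finite → {o | supp o ⊆ T}.Countable) :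
    IsClub ℵ₀ (fun S : Set D => ∀ o, supp o ⊆ S → w o ⊆ S) := by
  refine IsClub.rule le_rfl supp hfin w (fun o => ?_) (fun T hT => ?_)
  · rw [Cardinal.le_aleph0_iff_set_countable]
    exact hw o
  · rw [Cardinal.lift_aleph0, ← Cardinal.lift_aleph0.{u, v}, Cardinal.lift_le,
      Cardinal.le_aleph0_iff_set_countable]
    exact hcount T hT

end Club

end Pool.Agent.Lib.MP_342ba6_al
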