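import Pool.Agent.Lib.MP_342ba6_al.Subst
import Pool.Agent.Lib.MP_342ba6_al.BaseCase

/-!
The main induction.
-/

namespace Pool.Agent.Lib.MP_342ba6_al

universe u

open Cardinal

/-- Every module embeds in an injective module. -/
theorem exists_injective (A : Type u) [Ring A] (C : Type u) [AddCommGroup C] [Module A C] :
    ∃ (J : Type u) (_ : AddCommGroup J) (_ : Module A J) (i : C →ₗ[A] J),
      Function.Injective i ∧ Module.Injective A J := by
  obtain ⟨p⟩ := CategoryTheory.EnoughInjectives.presentation (ModuleCat.of A C)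
  refine ⟨p.J, inferInstance, inferInstance, p.f.hom, ?_, ?_⟩
  · exact (ModuleCat.mono_iff_injective p.f).1 p.mono
  · have : CategoryTheory.Injective (ModuleCat.of A p.J) := p.injective
    exact Module.injective_module_of_injective_object A p.J

section

variable {R A X I : Type u} [Ring R] [Ring A] [AddCommGroup X] [Module A X]
    [LinearOrder I] {G : I → Type u}
    [∀ i, AddCommGroup (G i)] [∀ i, Module R (G i)]
    {φ : R →+* A} {fil : I → Submodule A X} {s : ∀ i, G i → X} {e d : X →ₗ[A] X}
    {S : Set (Srt R A X I G)}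

theorem sub_card (hS : Good φ fil s e d S) {c : Cardinal.{u}} (hc : ℵ₀ ≤ c) (hSc : #S ≤ c) :
    #(subR hS ⊕ subA hS ⊕ subX hS) ≤ c := by
  have h1 : #(subR hS) ≤ c := (Cardinal.mk_le_of_injective
    (f := fun r : subR hS => (⟨Srt.r (r : R), r.2⟩ : S)) (fun a b h => by
      have := congrArg Subtype.val h
      exact Subtype.ext (Srt.r_inj this))).trans hSc
  have h2 : #(subA hS) ≤ c := (Cardinal.mk_le_of_injective
    (f := fun r : subA hS => (⟨Srt.a (r : A), r.2⟩ : S)) (fun a b h => by
      have := congrArg Subtype.val h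
      exact Subtype.ext (Srt.a_inj this))).trans hSc
  have h3 : #(subX hS) ≤ c := (Cardinal.mk_le_of_injective
    (f := fun r : subX hS => (⟨Srt.x (r : X), r.2⟩ : S)) (fun a b h => by
      have := congrArg Subtype.val h
      exact Subtype.ext (Srt.x_inj this))).trans hSc
  rw [Cardinal.mk_sum, Cardinal.mk_sum, Cardinal.lift_id, Cardinal.lift_id, Cardinal.lift_id,
    Cardinal.lift_id]
  exact Cardinal.add_le_of_le hc h1 (Cardinal.add_le_of_le hc h2 h3)

/-- The extension property for the relation submodule of a good subset. -/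
theorem sub_extend (hS : Good φ fil s e d S) (hed : ∀ x, e (d x) = d x)
    (hdd : ∀ x, d (d x) = 0)
    (ih : ∀ (C : Type u) [AddCommGroup C] [Module (subA hS) C], RCot (subφ hS) C →
      E1 (RingHom.id (subA hS)) (LinearMap.range (subd hS)) C)
    (C : Type u) [AddCommGroup C] [Module A C] (hC : RCot φ C)
    (ρ : Krel d S →ₗ[A] C) :
    ∃ g : (LinearMap.range d →₀ A) →ₗ[A] C, ∀ x : Krel d S, g x = ρ x := by
  have : RingHomCompTriple (subR hS).subtype φ (φ.comp (subR hS).subtype) := ⟨rfl⟩
  have h1 : RCot (φ.comp (subR hS).subtype) C := hC.transfer (subR hS).subtype _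
  have h2 : RCot (subφ hS) C := by
    intro G _ _ hG ρ
    let ρ' : LinearMap.ker (pr (subR hS) G) →ₛₗ[φ.comp (subR hS).subtype] C :=
      { toFun := ρ
        map_add' := fun x y => map_add ρ x y
        map_smul' := fun r x => LinearMap.map_smulₛₗ ρ r x }
    obtain ⟨g, hg⟩ := h1 G hG ρ'
    exact ⟨{ toFun := g
             map_add' := fun x y => map_add g x y
             map_smul' := fun r x => LinearMap.map_smulₛₗ g r x }, hg⟩
  have h3 := ih C h2
  have h4 : E1 (subA hS).subtype (LinearMap.range (subd hS)) C := by
    intro ρ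
    let ρ' : LinearMap.ker (pr (subA hS) (LinearMap.range (subd hS))) →ₗ[subA hS] C :=
      { toFun := ρ
        map_add' := fun x y => map_add ρ x y
        map_smul' := fun r x => LinearMap.map_smulₛₗ ρ r x }
    obtain ⟨g, hg⟩ := h3 ρ'
    exact ⟨{ toFun := g
             map_add' := fun x y => map_add g x y
             map_smul' := fun r x => LinearMap.map_smulₛₗ g r x }, hg⟩
  have h5 := h4.relU (incZ hS) (incZ_inj hS)
  have h6 := Krel_eq hS hed hdd
  revert ρ
  rw [h6]
  exact h5

end

/-- The main induction. -/
theorem mainInd (κ : Cardinal.{u}) : ∀ (R A X I : Type u) [Ring R] [Ring A] [AddCommGroup X]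
    [Module A X] [LinearOrder I] [WellFoundedLT I] (G : I → Type u)
    [∀ i, AddCommGroup (G i)] [∀ i, Module R (G i)] (φ : R →+* A) (fil : I → Submodule A X)
    (s : ∀ i, G i → X) (e d : X →ₗ[A] X), Filt φ fil G s → (∀ x, e (e x) = e x) →
    (∀ x, e (d x) = d x) → (∀ x, d (e x) = d x) → (∀ x, e x = x → d x = 0 → ∃ y, d y = x) →
    (∀ x, d (d x) = 0) → EqFlat A (LinearMap.range d) → #(R ⊕ A ⊕ X) ≤ κ → ℵ₀ ≤ κ →
    ∀ (C : Type u) [AddCommGroup C] [Module A C], RCot φ C →
      E1 (RingHom.id A) (LinearMap.range d) C := by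
  induction κ using WellFoundedLT.induction with
  | _ κ ih =>
    intro R A X I _ _ _ _ _ _ G _ _ φ fil s e d h hee hed hde hex0 hdd hZ hcard hκ C _ _ hC
    obtain ⟨J, _, _, i, hi, hJ⟩ := exists_injective A C
    let q : J →ₗ[A] (J ⧸ LinearMap.range i) := (LinearMap.range i).mkQ
    have hq : Function.Surjective q := Submodule.mkQ_surjective _
    have hqi : ∀ c, q (i c) = 0 := fun c => by
      simp [q]
    have hex : ∀ x, q x = 0 → ∃ c, i c = x := fun x hx => by
      simpa [q] using hx
    have hJc : RCot φ J := RCot.of_injective φ hJ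
    have hD : RCot φ (J ⧸ LinearMap.range i) := RCot.cosyzygy i hi q hq hqi hex hC hJc
    -- lifting property for the first syzygy
    have key : ∀ f : LinearMap.ker (pr A (LinearMap.range d)) →ₗ[A] (J ⧸ LinearMap.range i),
        ∃ g : LinearMap.ker (pr A (LinearMap.range d)) →ₗ[A] J, ∀ x, q (g x) = f x := by
      rcases hκ.eq_or_lt with hκ0 | hκ0
      · -- countable case
        subst hκ0
        have hcA : Countable (R ⊕ A ⊕ X) := by
          rwa [← Cardinal.mk_le_aleph0_iff]
        have hA : Countable A := Function.Injective.countable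
          (f := fun a : A => (Sum.inr (Sum.inl a) : R ⊕ A ⊕ X)) (fun a b hab => by simpa using hab)
        have hX : Countable X := Function.Injective.countable
          (f := fun a : X => (Sum.inr (Sum.inr a) : R ⊕ A ⊕ X)) (fun a b hab => by simpa using hab)
        intro f
        exact countableLift _ hZ q hq f
      · -- uncountable case
        obtain ⟨F, hF, hFG⟩ := good_club φ fil s e d h hex0 hZ
        have hext : ∀ S : Set (Srt R A X I G), ClosedUnder F S → #S < κ →
            ∀ (C : Type u) [AddCommGroup C] [Module A C], RCot φ C →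
            ∀ ρ : Krel d S →ₗ[A] C, ∃ g : (LinearMap.range d →₀ A) →ₗ[A] C,
              ∀ x : Krel d S, g x = ρ x := by
          intro S hSF hSκ C _ _ hC ρ
          have hS := hFG S hSF
          refine sub_extend hS hed hdd (fun C' _ _ hC' => ?_) C hC ρ
          refine ih (max ℵ₀ #S) (max_lt hκ0 hSκ) (subR hS) (subA hS) (subX hS) (subI S)
            (fun i => subG hS i) (subφ hS) (subfil hS) (subs hS) (sube hS) (subd hS)
            (subFilt h hS) (fun x => Subtype.ext (hee _)) (fun x => Subtype.ext (hed _))
            (fun x => Subtype.ext (hde _)) (fun x hx1 hx2 => ?_) (fun x => Subtype.ext (hdd _))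
            (subZflat hS hed hdd) (sub_card hS (le_max_left _ _) (le_max_right _ _))
            (le_max_left _ _) C' hC'
          obtain ⟨y, hy, hyx⟩ := hS.xpre x x.2 (congrArg Subtype.val hx1)
            (congrArg Subtype.val hx2)
          exact ⟨⟨y, hy⟩, Subtype.ext hyx⟩
        -- the chain
        have hne : Nonempty (R ⊕ A ⊕ X) := ⟨Sum.inl 0⟩
        obtain ⟨f⟩ : Nonempty ((R ⊕ A ⊕ X) ↪ κ.ord.ToType) := by
          rw [← Cardinal.le_def]
          simpa using hcard
        let en : κ.ord.ToType → Srt R A X I G := fun w =>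
          Sum.elim Srt.r (Sum.elim Srt.a Srt.x) (Function.invFun f w)
        have hen : ∀ z : R ⊕ A ⊕ X, ∃ w, en w = Sum.elim Srt.r (Sum.elim Srt.a Srt.x) z :=
          fun z => ⟨f z, by simp only [en]; rw [Function.leftInverse_invFun f.injective z]⟩
        let Sw : κ.ord.ToType → Set (Srt R A X I G) := fun w => clos F (en '' Set.Iic w)
        have hSmono : Monotone Sw := fun v w hvw =>
          clos_mono F (Set.image_mono (Set.Iic_subset_Iic.2 hvw))
        have hScl : ∀ w, ClosedUnder F (Sw w) := fun w => closed_clos F _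
        have hScard : ∀ w, #(Sw w) < κ := fun w => by
          have h1 : #(Set.Iic w) < κ := by
            have := Cardinal.mk_Iic_lt w (by simp) (by simpa using hκ)
            simpa using this
          refine (mk_clos_le F (c := max ℵ₀ #(Set.Iic w)) (le_max_left _ _)
            (fun l => (hF l).trans (le_max_left _ _))
            (Cardinal.mk_image_le.trans (le_max_right _ _))).trans_lt (max_lt hκ0 h1)
        have hall : ∀ z : R ⊕ A ⊕ X, Sum.elim Srt.r (Sum.elim Srt.a Srt.x) z ∈ ⋃ w, Sw w := by
          intro z
          obtain ⟨w, hw⟩ := hen z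
          exact Set.mem_iUnion.2 ⟨w, subset_clos F _ ⟨w, Set.mem_Iic.2 le_rfl, hw⟩⟩
        have hdir : Directed (· ⊆ ·) Sw := hSmono.directed_le
        have hWne : Nonempty κ.ord.ToType := ⟨f (Classical.arbitrary _)⟩
        intro g
        refine chainLift i hi q hq hqi hex (fun w => Krel d (Sw w))
          (fun v w hvw => Krel_mono (hSmono hvw))
          (fun w => ⨆ v : {v // v < w}, Krel d (Sw v)) (fun w => rfl)
          (LinearMap.ker (pr A (LinearMap.range d))) ?_ ?_ ?_ g
        · change _ = ⨆ w, Krel d (Sw w)
          rw [← Krel_iUnion Sw hdir]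
          refine le_antisymm (fun k hk => ?_) (Krel_le_ker _)
          unfold Krel
          apply Submodule.subset_span
          refine ⟨hk, ?_⟩
          rintro _ (⟨y, _, rfl⟩ | ⟨y, _, rfl⟩)
          · exact hall (Sum.inr (Sum.inr (y : X)))
          · exact hall (Sum.inr (Sum.inl (k y)))
        · intro w
          change ∀ r : ↥(⨆ v : {v // v < w}, Krel d (Sw v)) →ₗ[A] C, _
          by_cases hw : Nonempty {v // v < w}
          · have hdir' : Directed (· ⊆ ·) (fun v : {v // v < w} => Sw v) := by
              intro a b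
              rcases le_total a b with hab | hab
              · exact ⟨b, hSmono hab, le_rfl⟩
              · exact ⟨a, le_rfl, hSmono hab⟩
            have h1 := Krel_iUnion (d := d) (fun v : {v // v < w} => Sw v) hdir'
            rw [← h1]
            refine hext _ (closedUnder_iUnion F _ hdir' (fun v => hScl v)) ?_ C hC
            refine (Cardinal.mk_le_mk_of_subset ?_).trans_lt (hScard w)
            exact Set.iUnion_subset fun v => hSmono v.2.le
          · intro r
            refine ⟨0, fun x => ?_⟩
            rw [not_nonempty_iff] at hw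
            have hb : (⨆ v : {v // v < w}, Krel d (Sw v)) = ⊥ := iSup_of_empty _
            have hx : (x : LinearMap.range d →₀ A) ∈ (⊥ : Submodule A _) := hb.le x.2
            have : x = 0 := Subtype.ext ((Submodule.mem_bot A).1 hx)
            rw [this]
            simp
        · intro w
          exact hext _ (hScl w) (hScard w) _ hD
    have hZD : E1 (RingHom.id A) (LinearMap.range d) (J ⧸ LinearMap.range i) := by
      intro ρ
      obtain ⟨g, hg⟩ := key ρ
      obtain ⟨g', hg'⟩ := inj_extend hJ _ g
      exact ⟨q.comp g', fun k => by rw [LinearMap.comp_apply, hg', hg]⟩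
    exact finalStep e d hee hed hde hex0 hdd i hi q hq hqi hex hJ (h.e1 hC) hZD

end Pool.Agent.Lib.MP_342ba6_al
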