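import Pool.Agent.Lib.MP_342ba6_al.StructThm
import Pool.Agent.Lib.MP_342ba6_al.Induct

/-!
Periodicity for complexes, in elementary terms.
-/

namespace Pool.Agent.Lib.MP_342ba6_al

universe u

open DirectSum Cardinal

section E1more

variable {A : Type u} [Ring A]

theorem exists_injective_seq (C : Type u) [AddCommGroup C] [Module A C] :
    ∃ (J : Type u) (_ : AddCommGroup J) (_ : Module A J) (D : Type u) (_ : AddCommGroup D)
      (_ : Module A D) (i : C →ₗ[A] J) (q : J →ₗ[A] D), Function.Injective i ∧
      Function.Surjective q ∧ (∀ c, q (i c) = 0) ∧ (∀ x, q x = 0 → ∃ c, i c = x) ∧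
      Module.Injective A J := by
  obtain ⟨J, _, _, i, hi, hJ⟩ := exists_injective A C
  refine ⟨J, inferInstance, inferInstance, J ⧸ LinearMap.range i, inferInstance,
    inferInstance, i, (LinearMap.range i).mkQ, hi, Submodule.mkQ_surjective _, fun c => ?_,
    fun x hx => ?_, hJ⟩
  · simp
  · simpa using hx

theorem E1.retract {Y Y' C : Type u} [AddCommGroup Y] [Module A Y] [AddCommGroup Y']
    [Module A Y'] [AddCommGroup C] [Module A C] (h : E1 (RingHom.id A) Y C)
    (i : Y' →ₗ[A] Y) (r : Y →ₗ[A] Y') (hri : ∀ x, r (i x) = x) :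
    E1 (RingHom.id A) Y' C := by
  obtain ⟨J, _, _, D, _, _, j, q, hj, hq, hqi, hex, hJ⟩ := exists_injective_seq (A := A) C
  refine E1.of_lift j hj q hqi hex hJ fun f => ?_
  obtain ⟨g, hg⟩ := h.lift j hj q hq hqi hex (f.comp r)
  refine ⟨g.comp i, fun y => ?_⟩
  rw [LinearMap.comp_apply, hg, LinearMap.comp_apply, hri]

theorem E1.directSum {ι : Type*} [DecidableEq ι] {Y : ι → Type u} [∀ n, AddCommGroup (Y n)]
    [∀ n, Module A (Y n)] {C : Type u} [AddCommGroup C] [Module A C]
    (h : ∀ n, E1 (RingHom.id A) (Y n) C) :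
    ∀ (S : Type u) [AddCommGroup S] [Module A S] (_ : (⨁ n, Y n) ≃ₗ[A] S),
      E1 (RingHom.id A) S C := by
  intro S _ _ e
  obtain ⟨J, _, _, D, _, _, j, q, hj, hq, hqi, hex, hJ⟩ := exists_injective_seq (A := A) C
  refine E1.of_lift j hj q hqi hex hJ fun f => ?_
  have h1 : ∀ n, ∃ g : Y n →ₗ[A] J, ∀ y, q (g y) =
      ((f.comp e.toLinearMap).comp (DirectSum.lof A ι Y n)) y := fun n =>
    (h n).lift j hj q hq hqi hex _
  choose g hg using h1
  refine ⟨(DirectSum.toModule A ι J g).comp e.symm.toLinearMap, fun y => ?_⟩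
  have h2 : q.comp (DirectSum.toModule A ι J g) = f.comp e.toLinearMap := by
    apply DirectSum.linearMap_ext
    intro n
    ext x
    rw [LinearMap.comp_apply, LinearMap.comp_apply, DirectSum.toModule_lof, hg]
  have h3 := congrArg (fun h => h (e.symm y)) h2
  simp only [LinearMap.comp_apply] at h3
  rw [LinearMap.comp_apply]
  refine h3.trans ?_
  congr 1
  exact e.apply_symm_apply y

end E1more

variable {R A : Type u} [Ring R] [Ring A] (φ : R →+* A)

/-- Periodicity in elementary terms. -/
theorem periodic_core (F : Type u) [AddCommGroup F] [Module A F] (D : F →ₗ[A] F)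
    (hD : ∀ x, D (D x) = 0) (hex : ∀ x, D x = 0 → ∃ y, D y = x)
    (hF : ∀ (C : Type u) [AddCommGroup C] [Module A C], RCot φ C → E1 (RingHom.id A) F C)
    (hZ : EqFlat A (LinearMap.range D)) (C : Type u) [AddCommGroup C] [Module A C]
    (hC : RCot φ C) : E1 (RingHom.id A) (LinearMap.range D) C := by
  obtain ⟨I, _, _, X, _, _, fil, G, _, _, s, hfilt, i, r, hri⟩ := structure_thm φ F hF
  have hi : Function.Injective i := Function.LeftInverse.injective hri
  let e : X →ₗ[A] X := i.comp r
  let d : X →ₗ[A] X := (i.comp D).comp r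
  have hd : ∀ x, d (i x) = i (D x) := fun x => by simp [d, hri]
  -- the two ranges
  let a : LinearMap.range D →ₗ[A] LinearMap.range d := i.restrict (by
    rintro _ ⟨x, rfl⟩
    exact ⟨i x, hd x⟩)
  let b : LinearMap.range d →ₗ[A] LinearMap.range D := r.restrict (by
    rintro _ ⟨x, rfl⟩
    exact ⟨r x, by simp [d, hri]⟩)
  have hba : ∀ x, b (a x) = x := fun x => Subtype.ext (hri x)
  have hab : ∀ x, a (b x) = x := by
    rintro ⟨_, x, rfl⟩
    apply Subtype.ext
    change i (r (d x)) = d x
    simp [d, hri]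
  let E : LinearMap.range D ≃ₗ[A] LinearMap.range d :=
    { a with invFun := b, left_inv := hba, right_inv := hab }
  have hZ' : EqFlat A (LinearMap.range d) := hZ.of_equiv E
  have hmain := mainInd (max ℵ₀ #(R ⊕ A ⊕ X)) R A X I G φ fil s e d hfilt
    (fun x => by simp [e, hri]) (fun x => by simp [e, d, hri]) (fun x => by simp [e, d, hri])
    (fun x hx1 hx2 => by
      have h1 : i (D (r x)) = 0 := hx2
      have h2 : D (r x) = 0 := hi (by rw [h1, map_zero])
      obtain ⟨y, hy⟩ := hex _ h2
      exact ⟨i y, by rw [hd, hy]; exact hx1⟩)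
    (fun x => by simp [d, hri, hD]) hZ' (le_max_right _ _) (le_max_left _ _) C hC
  exact hmain.retract a b hba

/-- Periodicity for complexes in elementary terms. -/
theorem complex_core (F : ℤ → Type u) [∀ n, AddCommGroup (F n)] [∀ n, Module A (F n)]
    (d : ∀ n, F n →ₗ[A] F (n + 1)) (hd : ∀ n, Function.Exact (d n) (d (n + 1)))
    (hF : ∀ n, ∀ (C : Type u) [AddCommGroup C] [Module A C], RCot φ C →
      E1 (RingHom.id A) (F n) C) (hZ : ∀ n, EqFlat A (LinearMap.ker (d n))) (n : ℤ)
    (C : Type u) [AddCommGroup C] [Module A C] (hC : RCot φ C) :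
    E1 (RingHom.id A) (LinearMap.ker (d n)) C := by
  classical
  let D : (⨁ n, F n) →ₗ[A] (⨁ n, F n) :=
    DirectSum.toModule A ℤ _ (fun n => (DirectSum.lof A ℤ F (n + 1)).comp (d n))
  have hDlof : ∀ n (x : F n), D (DirectSum.lof A ℤ F n x) =
      DirectSum.lof A ℤ F (n + 1) (d n x) := fun n x => by
    rw [DirectSum.toModule_lof, LinearMap.comp_apply]
  have hDD : ∀ x, D (D x) = 0 := by
    intro x
    have : D.comp D = 0 := by
      apply DirectSum.linearMap_ext
      intro n
      ext1 x
      rw [LinearMap.comp_apply, LinearMap.comp_apply, hDlof, hDlof,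
        (hd n).apply_apply_eq_zero, map_zero]
      simp
    exact congrArg (fun h => h x) this
  have hcomp : ∀ (x : ⨁ n, F n) n, (D x) (n + 1) = d n (x n) := by
    intro x n
    have : (DirectSum.component A ℤ F (n + 1)).comp D = (d n).comp
        (DirectSum.component A ℤ F n) := by
      apply DirectSum.linearMap_ext
      intro m
      ext1 y
      rw [LinearMap.comp_apply, LinearMap.comp_apply, hDlof, LinearMap.comp_apply,
        LinearMap.comp_apply]
      by_cases hmn : m = n
      · subst hmn
        rw [DirectSum.component.lof_self, DirectSum.component.lof_self]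
      · have hmn' : ¬ (m + 1 = n + 1) := fun h => hmn (by linarith)
        rw [DirectSum.component.of, dif_neg hmn', DirectSum.component.of, dif_neg hmn,
          map_zero]
    exact congrArg (fun h => h x) this
  have hlofrange : ∀ m (z : F m), d m z = 0 → DirectSum.lof A ℤ F m z ∈ LinearMap.range D := by
    intro m z hz
    obtain ⟨n, rfl⟩ : ∃ n, m = n + 1 := ⟨m - 1, by ring⟩
    obtain ⟨y, rfl⟩ := (hd n z).1 hz
    exact ⟨DirectSum.lof A ℤ F n y, hDlof n y⟩
  have hrange : ∀ x : ⨁ n, F n, (∀ n, d n (x n) = 0) → x ∈ LinearMap.range D := by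
    intro x hx
    rw [← DirectSum.sum_support_of x]
    exact Submodule.sum_mem _ fun m _ => hlofrange m _ (hx m)
  have hexD : ∀ x, D x = 0 → ∃ y, D y = x := by
    intro x hx
    exact hrange x fun n => by rw [← hcomp, hx]; rfl
  -- comparison of the range with the direct sum of the cocycles
  let K : (⨁ n, LinearMap.ker (d n)) →ₗ[A] (⨁ n, F n) :=
    DirectSum.lmap (fun n => (LinearMap.ker (d n)).subtype)
  have hK : Function.Injective K :=
    (DirectSum.lmap_injective _).2 fun n => Submodule.injective_subtype _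
  have hKr : LinearMap.range K = LinearMap.range D := by
    apply le_antisymm
    · rintro _ ⟨x, rfl⟩
      exact hrange _ fun n => (x n).2
    · intro x hx
      have hx0 : ∀ n, d n (x n) = 0 := by
        obtain ⟨y, rfl⟩ := hx
        intro n
        rw [← hcomp, hDD]
        rfl
      rw [DirectSum.range_lmap]
      refine fun n _ => ?_
      exact ⟨⟨x n, hx0 n⟩, rfl⟩
  let E : (⨁ n, LinearMap.ker (d n)) ≃ₗ[A] LinearMap.range D :=
    (LinearEquiv.ofInjective K hK).trans (LinearEquiv.ofEq _ _ hKr)
  have hflat : EqFlat A (LinearMap.range D) := (EqFlat.directSum hZ).of_equiv E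
  have hFsum : ∀ (C : Type u) [AddCommGroup C] [Module A C], RCot φ C →
      E1 (RingHom.id A) (⨁ n, F n) C := fun C _ _ hC =>
    E1.directSum (fun n => hF n C hC) _ (LinearEquiv.refl A _)
  have hmain := periodic_core φ (⨁ n, F n) D hDD hexD hFsum hflat C hC
  refine hmain.retract (E.toLinearMap.comp (DirectSum.lof A ℤ (fun n => LinearMap.ker (d n)) n))
    ((DirectSum.component A ℤ (fun n => LinearMap.ker (d n)) n).comp E.symm.toLinearMap)
    fun x => ?_
  rw [LinearMap.comp_apply, LinearMap.comp_apply]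
  change DirectSum.component A ℤ (fun n => LinearMap.ker (d n)) n
    (E.symm (E (DirectSum.lof A ℤ (fun n => LinearMap.ker (d n)) n x))) = x
  rw [E.symm_apply_apply, DirectSum.component.lof_self]

end Pool.Agent.Lib.MP_342ba6_al
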