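import Mathlib

/-!
Tensor products over noncommutative rings, and flatness defined by them.
-/

namespace Pool.Agent.Lib.MP_342ba6_al

universe u

open TensorProduct

section Defs

variable (R : Type u) [Ring R]

/-- The subgroup of `N ⊗[ℤ] G` generated by the differences `n r ⊗ g - n ⊗ r g`, for a right
`R`-module `N` (encoded as a module over the opposite ring) and a left `R`-module `G`. -/
def balancedRel (N G : Type u) [AddCommGroup N] [Module Rᵐᵒᵖ N] [AddCommGroup G]
    [Module R G] : AddSubgroup (N ⊗[ℤ] G) :=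
  AddSubgroup.closure {t | ∃ (n : N) (r : R) (g : G),
    t = (MulOpposite.op r • n) ⊗ₜ[ℤ] g - n ⊗ₜ[ℤ] (r • g)}

/-- The tensor product over `R` of a right `R`-module and a left `R`-module. -/
abbrev RelTensor (N G : Type u) [AddCommGroup N] [Module Rᵐᵒᵖ N] [AddCommGroup G]
    [Module R G] : Type u :=
  (N ⊗[ℤ] G) ⧸ balancedRel R N G

/-- The map induced on tensor products by a map of right modules. -/
noncomputable def RelTensor.map {N N' : Type u} (G : Type u) [AddCommGroup N] [Module Rᵐᵒᵖ N]
    [AddCommGroup N'] [Module Rᵐᵒᵖ N'] [AddCommGroup G] [Module R G] (f : N →ₗ[Rᵐᵒᵖ] N') :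
    RelTensor R N G →+ RelTensor R N' G :=
  QuotientAddGroup.map (balancedRel R N G) (balancedRel R N' G)
    (TensorProduct.map f.toAddMonoidHom.toIntLinearMap
      (LinearMap.id : G →ₗ[ℤ] G)).toAddMonoidHom (by
      refine (AddSubgroup.closure_le _).2 ?_
      rintro _ ⟨n, r, g, rfl⟩
      refine AddSubgroup.subset_closure ⟨f n, r, g, ?_⟩
      change TensorProduct.map f.toAddMonoidHom.toIntLinearMap (LinearMap.id : G →ₗ[ℤ] G)
        ((MulOpposite.op r • n) ⊗ₜ[ℤ] g - n ⊗ₜ[ℤ] (r • g)) = _
      rw [map_sub, TensorProduct.map_tmul, TensorProduct.map_tmul]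
      change f (MulOpposite.op r • n) ⊗ₜ[ℤ] g - f n ⊗ₜ[ℤ] (r • g) = _
      rw [map_smul])

/-- Flatness of a left module over a (noncommutative) ring: tensoring preserves injectivity
of maps of right modules. -/
def IsFlat (G : Type u) [AddCommGroup G] [Module R G] : Prop :=
  ∀ (N N' : Type u) [AddCommGroup N] [Module Rᵐᵒᵖ N] [AddCommGroup N'] [Module Rᵐᵒᵖ N']
    (f : N →ₗ[Rᵐᵒᵖ] N'), Function.Injective f → Function.Injective (RelTensor.map R G f)

end Defs

end Pool.Agent.Lib.MP_342ba6_al
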