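import Pool.Agent.Lib.MP_342ba6_al.ExtOne

/-!
The elementary condition agrees with the vanishing of the first extension group.
-/

namespace Pool.Agent.Lib.MP_342ba6_al

universe u

open CategoryTheory Limits CategoryTheory.Abelian

variable {A : Type u} [Ring A]

/-- The canonical presentation as a short complex. -/
noncomputable abbrev prComplex (Y : ModuleCat.{u} A) : ShortComplex (ModuleCat.{u} A) :=
  ShortComplex.mk (X₁ := ModuleCat.of A (LinearMap.ker (pr A Y)))
    (X₂ := ModuleCat.of A (Y →₀ A)) (X₃ := Y)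
    (ModuleCat.ofHom (X := LinearMap.ker (pr A Y)) (Y := (Y →₀ A))
      (LinearMap.ker (pr A Y)).subtype)
    (ModuleCat.ofHom (X := (Y →₀ A)) (Y := Y) (pr A Y)) (by
      ext x
      exact x.2)

theorem prComplex_shortExact (Y : ModuleCat.{u} A) : (prComplex Y).ShortExact where
  exact := by
    rw [ShortComplex.moduleCat_exact_iff]
    intro x hx
    exact ⟨⟨x, hx⟩, rfl⟩
  mono_f := (ModuleCat.mono_iff_injective _).2 (Submodule.injective_subtype _)
  epi_g := (ModuleCat.epi_iff_surjective _).2 (pr_surjective Y)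

theorem ext_iff (Y C : ModuleCat.{u} A) :
    Subsingleton (Ext.{u} Y C 1) ↔ E1 (RingHom.id A) Y C := by
  have hS := prComplex_shortExact Y
  constructor
  · intro h ρ
    let x₁ : Ext.{u} (prComplex Y).X₁ C 0 := Ext.mk₀ (ModuleCat.ofHom ρ)
    have h1 : hS.extClass.comp x₁ (add_zero 1) = 0 := Subsingleton.elim _ _
    obtain ⟨x₂, hx₂⟩ := Ext.contravariant_sequence_exact₁ hS C x₁ (add_zero 1) h1
    obtain ⟨g, rfl⟩ := (Ext.mk₀_bijective _ _).2 x₂
    rw [Ext.mk₀_comp_mk₀] at hx₂
    have h2 := (Ext.mk₀_bijective _ _).1 hx₂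
    refine ⟨g.hom, fun k => ?_⟩
    exact congrArg (fun h => h.hom k) h2
  · intro h
    refine subsingleton_of_forall_eq 0 fun x => ?_
    have hP : Projective (prComplex Y).X₂ := ModuleCat.projective_of_free Finsupp.basisSingleOne
    have h1 : (Ext.mk₀ (prComplex Y).g).comp x (zero_add 1) = 0 :=
      Ext.eq_zero_of_projective _
    obtain ⟨x₁, hx₁⟩ := Ext.contravariant_sequence_exact₃ hS C x h1 (add_zero 1)
    obtain ⟨ρ, rfl⟩ := (Ext.mk₀_bijective _ _).2 x₁
    obtain ⟨g, hg⟩ := h ρ.hom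
    have h2 : ρ = (prComplex Y).f ≫ ModuleCat.ofHom g := by
      ext k
      exact (hg k).symm
    rw [← hx₁, h2, ← Ext.mk₀_comp_mk₀]
    rw [← Ext.comp_assoc_of_third_deg_zero]
    rw [hS.extClass_comp, Ext.zero_comp]

end Pool.Agent.Lib.MP_342ba6_al
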