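import Pool.Agent.Lib.MP_342ba6_al.Basic

/-!
Elementary vanishing of the first extension group, via canonical free presentations.
-/

namespace Pool.Agent.Lib.MP_342ba6_al

universe u

section BC

variable {B A : Type*} [Ring B] [Ring A] (φ : B →+* A)

/-- Base change of free modules. -/
noncomputable def bc (Y : Type*) : (Y →₀ B) →ₛₗ[φ] (Y →₀ A) where
  toFun k := k.mapRange φ (map_zero φ)
  map_add' x y := Finsupp.mapRange_add (by simp) x y
  map_smul' r x := by
    ext y
    simp

@[simp] theorem bc_single (Y : Type*) (y : Y) (b : B) :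
    bc φ Y (Finsupp.single y b) = Finsupp.single y (φ b) := by
  simp [bc]

theorem bc_apply (Y : Type*) (k : Y →₀ B) (y : Y) : bc φ Y k y = φ (k y) := by
  simp [bc]

/-- Semilinear maps out of free modules are determined on the basis. -/
theorem semi_ext {φ : B →+* A} {Y C : Type*} [AddCommGroup C] [Module A C]
    (f g : (Y →₀ B) →ₛₗ[φ] C)
    (h : ∀ y, f (Finsupp.single y 1) = g (Finsupp.single y 1)) : f = g := by
  apply LinearMap.ext
  intro x
  induction x using Finsupp.induction_linear with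
  | zero => simp
  | add x y hx hy => rw [map_add, map_add, hx, hy]
  | single y b =>
    have : Finsupp.single y b = b • Finsupp.single y (1 : B) := by simp
    rw [this, LinearMap.map_smulₛₗ, LinearMap.map_smulₛₗ, h]

/-- The semilinear map out of a free module given on the basis. -/
noncomputable def slc {Y C : Type*} [AddCommGroup C] [Module A C] (j : Y → C) :
    (Y →₀ B) →ₛₗ[φ] C :=
  (Finsupp.linearCombination A j).comp (bc φ Y)

@[simp] theorem slc_single {Y C : Type*} [AddCommGroup C] [Module A C] (j : Y → C) (y : Y)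
    (b : B) : slc φ j (Finsupp.single y b) = φ b • j y := by
  simp [slc]

theorem slc_eq {Y C : Type*} [AddCommGroup C] [Module A C] (g : (Y →₀ B) →ₛₗ[φ] C) :
    slc φ (fun y => g (Finsupp.single y 1)) = g := by
  apply semi_ext
  intro y
  simp

end BC

section E1

variable {B A : Type*} [Ring B] [Ring A]

/-- Vanishing of the first extension group of the module induced from `Y` along `φ` with
coefficients in `C`, in terms of the canonical presentation. -/
def E1 (φ : B →+* A) (Y : Type*) [AddCommGroup Y] [Module B Y] (C : Type*) [AddCommGroup C]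
    [Module A C] : Prop :=
  ∀ ρ : LinearMap.ker (pr B Y) →ₛₗ[φ] C, ∃ g : (Y →₀ B) →ₛₗ[φ] C,
    ∀ k : LinearMap.ker (pr B Y), g k = ρ k

variable {φ : B →+* A} {Y : Type*} [AddCommGroup Y] [Module B Y] {C : Type*} [AddCommGroup C]
  [Module A C]

theorem E1.extend (h : E1 φ Y C) {Q : Type*} [AddCommGroup Q] [Module B Q] (p : Q →ₗ[B] Y)
    (hp : Function.Surjective p) (ρ : LinearMap.ker p →ₛₗ[φ] C) :
    ∃ g : Q →ₛₗ[φ] C, ∀ k : LinearMap.ker p, g k = ρ k := by
  obtain ⟨l, hl⟩ := free_lift p hp (pr B Y)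
  have hl' : ∀ x ∈ LinearMap.ker (pr B Y), l x ∈ LinearMap.ker p := fun x hx => by
    rw [LinearMap.mem_ker] at hx ⊢
    rw [hl, hx]
  obtain ⟨g, hg⟩ := h (ρ.comp (l.restrict hl'))
  obtain ⟨r, hr1, -⟩ := glue (LinearMap.ker p) ρ l g (fun x hx => by
    have hx' : x ∈ LinearMap.ker (pr B Y) := by
      rw [LinearMap.mem_ker] at hx ⊢
      rw [← hl, hx]
    exact hg ⟨x, hx'⟩) ⊤ le_top (fun _ => trivial) (fun v _ => by
      refine ⟨v - l (Finsupp.single (p v) 1), ?_, Finsupp.single (p v) 1, by simp⟩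
      rw [LinearMap.mem_ker, map_sub, hl, pr_single, one_smul, sub_self])
  refine ⟨r.comp (LinearMap.codRestrict ⊤ LinearMap.id (fun _ => trivial)), fun k => ?_⟩
  exact hr1 k k.2

/-- Extension from a submodule with the quotient `Y`. -/
theorem E1.extend_mkQ {Q : Type*} [AddCommGroup Q] [Module B Q] (U : Submodule B Q)
    (h : E1 φ (Q ⧸ U) C) (ρ : U →ₛₗ[φ] C) : ∃ g : Q →ₛₗ[φ] C, ∀ k : U, g k = ρ k := by
  have hk : ∀ x ∈ LinearMap.ker U.mkQ, (LinearMap.id : Q →ₗ[B] Q) x ∈ U := fun x hx => by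
    rw [Submodule.ker_mkQ] at hx
    exact hx
  obtain ⟨g, hg⟩ := h.extend U.mkQ (Submodule.mkQ_surjective U)
    (ρ.comp (LinearMap.restrict LinearMap.id hk))
  refine ⟨g, fun k => ?_⟩
  have hk' : (k : Q) ∈ LinearMap.ker U.mkQ := by
    rw [Submodule.ker_mkQ]
    exact k.2
  exact hg ⟨k, hk'⟩

/-- Lifting property. -/
theorem E1.lift (h : E1 φ Y C) {E D : Type*} [AddCommGroup E] [Module A E] [AddCommGroup D]
    [Module A D] (i : C →ₗ[A] E) (hi : Function.Injective i) (q : E →ₗ[A] D)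
    (hq : Function.Surjective q) (hqi : ∀ c, q (i c) = 0) (hex : ∀ e, q e = 0 → ∃ c, i c = e)
    (f : Y →ₛₗ[φ] D) : ∃ g : Y →ₛₗ[φ] E, ∀ y, q (g y) = f y := by
  let l : (Y →₀ B) →ₛₗ[φ] E := slc φ (fun y => Function.surjInv hq (f y))
  have hl : ∀ x, q (l x) = f (pr B Y x) := fun x => by
    have : q.comp l = f.comp (pr B Y) := by
      apply semi_ext
      intro y
      simp [l, Function.surjInv_eq]
    exact congrArg (fun h => h x) this
  have hc : ∀ k : LinearMap.ker (pr B Y), ∃ c, i c = l k := fun k => hex _ (by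
    rw [hl, LinearMap.mem_ker.1 k.2, map_zero])
  choose c hc using hc
  let ρ : LinearMap.ker (pr B Y) →ₛₗ[φ] C :=
    { toFun := c
      map_add' := fun x y => hi (by rw [map_add, hc, hc, hc]; simp)
      map_smul' := fun r x => hi (by rw [map_smul, hc, hc]; simp [LinearMap.map_smulₛₗ]) }
  obtain ⟨g0, hg0⟩ := h ρ
  obtain ⟨g, hg⟩ := factor (pr B Y) (pr_surjective Y) (l - i.comp g0) (fun m hm => by
    have := hg0 ⟨m, hm⟩
    simp only [LinearMap.sub_apply, LinearMap.comp_apply]
    rw [this, sub_eq_zero]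
    exact (hc ⟨m, hm⟩).symm)
  refine ⟨g, fun y => ?_⟩
  obtain ⟨x, rfl⟩ := pr_surjective (R := B) Y y
  rw [hg, LinearMap.sub_apply, map_sub, hl, LinearMap.comp_apply, hqi, sub_zero]

end E1

section Rel

variable {B A : Type*} [Ring B] [Ring A] (φ : B →+* A) (Y : Type*) [AddCommGroup Y]
  [Module B Y]

/-- The submodule of the free `A`-module on a set `Z` generated by the relations over `B`
between the elements `u y`, for `y : Y`. -/
noncomputable def RelU {Z : Type*} (u : Y → Z) : Submodule A (Z →₀ A) :=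
  Submodule.span A ((fun k : Y →₀ B => Finsupp.mapDomain u (bc φ Y k)) ''
    (LinearMap.ker (pr B Y)))

variable {φ Y}

theorem E1.relU {C : Type*} [AddCommGroup C] [Module A C] (h : E1 φ Y C) {Z : Type*}
    (u : Y → Z) (hu : Function.Injective u) (ρ : RelU φ Y u →ₗ[A] C) :
    ∃ g : (Z →₀ A) →ₗ[A] C, ∀ k : RelU φ Y u, g k = ρ k := by
  classical
  let w : LinearMap.ker (pr B Y) →ₛₗ[φ] RelU φ Y u :=
    { toFun := fun k => ⟨Finsupp.mapDomain u (bc φ Y k), Submodule.subset_span ⟨k, k.2, rfl⟩⟩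
      map_add' := fun x y => Subtype.ext (by simp [Finsupp.mapDomain_add])
      map_smul' := fun r x => Subtype.ext (by
        simp [LinearMap.map_smulₛₗ, Finsupp.mapDomain_smul]) }
  obtain ⟨g0, hg0⟩ := h (ρ.comp w)
  let g : (Z →₀ A) →ₗ[A] C := Finsupp.linearCombination A
    (Function.extend u (fun y => g0 (Finsupp.single y 1)) 0)
  have hg : ∀ k : Y →₀ B, g (Finsupp.mapDomain u (bc φ Y k)) = g0 k := fun k => by
    have : (g.comp (Finsupp.lmapDomain A A u)).comp (bc φ Y) = g0 := by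
      apply semi_ext
      intro y
      simp [g, hu.extend_apply]
    exact congrArg (fun h => h k) this
  refine ⟨g, fun k => ?_⟩
  obtain ⟨x, hx⟩ := k
  change g x = ρ ⟨x, hx⟩
  induction hx using Submodule.span_induction with
  | mem x hx =>
    obtain ⟨k, hk, rfl⟩ := hx
    change g (Finsupp.mapDomain u (bc φ Y k)) = _
    rw [hg]
    exact hg0 ⟨k, hk⟩
  | zero => rw [map_zero]; exact (map_zero ρ).symm
  | add x y hx hy ihx ihy =>
    rw [map_add, ihx, ihy, ← map_add]
    rfl
  | smul a x hx ihx =>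
    rw [map_smul, ihx, ← map_smul]
    rfl

end Rel

section Transfer

variable {R' R A : Type*} [Ring R'] [Ring R] [Ring A] {ψ : R' →+* R} {φ : R →+* A}
  {χ : R' →+* A} [RingHomCompTriple ψ φ χ]

theorem spanExt {G : Type*} [AddCommGroup G] [Module R' G] (hG : EqFlat R' G) {C : Type*}
    [AddCommGroup C] [Module A C] (ρ : LinearMap.ker (pr R' G) →ₛₗ[χ] C) :
    ∃ r : RelU ψ G (id : G → G) →ₛₗ[φ] C, ∀ (k : LinearMap.ker (pr R' G))
      (hk : bc ψ G k ∈ RelU ψ G (id : G → G)), r ⟨bc ψ G k, hk⟩ = ρ k := by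
  classical
  have hmem : ∀ k : LinearMap.ker (pr R' G), bc ψ G k ∈ RelU ψ G (id : G → G) := fun k =>
    Submodule.subset_span ⟨k, k.2, by simp⟩
  let f : (LinearMap.ker (pr R' G) →₀ R) →ₗ[R] RelU ψ G (id : G → G) :=
    Finsupp.linearCombination R (fun k => ⟨bc ψ G k, hmem k⟩)
  have hf : Function.Surjective f := by
    rintro ⟨x, hx⟩
    induction hx using Submodule.span_induction with
    | mem x hx =>
      obtain ⟨k, hk, rfl⟩ := hx
      refine ⟨Finsupp.single ⟨k, hk⟩ 1, Subtype.ext ?_⟩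
      simp [f]
    | zero => exact ⟨0, by rw [map_zero]; rfl⟩
    | add x y hx hy ihx ihy =>
      obtain ⟨a, ha⟩ := ihx
      obtain ⟨b, hb⟩ := ihy
      exact ⟨a + b, by rw [map_add, ha, hb]; rfl⟩
    | smul r x hx ihx =>
      obtain ⟨a, ha⟩ := ihx
      exact ⟨r • a, by rw [map_smul, ha]; rfl⟩
  obtain ⟨r, hr⟩ := factor (M := LinearMap.ker (pr R' G) →₀ R)
      (N := RelU ψ G (id : G → G)) f hf (slc φ (fun k => ρ k)) (fun x hx => by
    obtain ⟨T, hT, hTx⟩ := hG.finset (Finset.image Subtype.val x.support : Finset (G →₀ R'))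
      (by
        intro y hy
        obtain ⟨z, _, rfl⟩ := Finset.mem_image.1 hy
        exact z.2)
    let Th : (G →₀ R) →ₛₗ[φ] C := slc φ (fun g => ρ ⟨T (Finsupp.single g 1), hT _⟩)
    have hTh : ∀ y : G →₀ R', Th (bc ψ G y) = ρ ⟨T y, hT y⟩ := fun y => by
      have : Th.comp (bc ψ G) = ρ.comp (LinearMap.codRestrict _ T hT) := by
        apply semi_ext
        intro g
        simp [Th]
        rfl
      exact congrArg (fun h => h y) this
    have hTh2 : (Th.comp (Submodule.subtype _)).comp f x = slc φ (fun k => ρ k) x := by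
      rw [← Finsupp.sum_single x, Finsupp.sum, map_sum, map_sum]
      refine Finset.sum_congr rfl fun k hk => ?_
      have h1 : (Finsupp.single k (x k) : LinearMap.ker (pr R' G) →₀ R) =
        x k • Finsupp.single k 1 := by simp
      rw [h1, LinearMap.map_smulₛₗ, LinearMap.map_smulₛₗ]
      congr 1
      rw [slc_single, map_one, one_smul]
      have h2 : f (Finsupp.single k 1) = ⟨bc ψ G k, hmem k⟩ := by
        simp [f]
      simp only [LinearMap.comp_apply, h2, Submodule.subtype_apply]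
      rw [hTh]
      congr 1
      apply Subtype.ext
      exact hTx _ (Finset.mem_image_of_mem _ hk)
    rw [← hTh2]
    simp [hx])
  refine ⟨r, fun k hk => ?_⟩
  have := hr (Finsupp.single k 1)
  have h2 : f (Finsupp.single k 1) = ⟨bc ψ G k, hk⟩ := by
    simp [f]
  rw [h2, slc_single, map_one, one_smul] at this
  exact this

theorem flat_baseChange {G : Type*} [AddCommGroup G] [Module R' G] (hG : EqFlat R' G)
    (ψ : R' →+* R) : EqFlat R ((G →₀ R) ⧸ RelU ψ G (id : G → G)) := by
  classical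
  refine EqFlat.of_locSplit (RelU ψ G (id : G → G)).mkQ (Submodule.mkQ_surjective _) ?_
  rw [Submodule.ker_mkQ]
  intro x hx
  obtain ⟨t, ht, hxt⟩ := Submodule.mem_span_finite_of_mem_span hx
  have hch : ∀ y : G →₀ R, y ∈ t → ∃ k : G →₀ R', k ∈ LinearMap.ker (pr R' G) ∧
      bc ψ G k = y := fun y hy => by
    obtain ⟨k, hk, rfl⟩ := ht hy
    exact ⟨k, hk, by simp⟩
  choose! k hk hk' using hch
  obtain ⟨T, hT, hTx⟩ := hG.finset (Finset.image k t) (by
    intro y hy
    obtain ⟨z, hz, rfl⟩ := Finset.mem_image.1 hy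
    exact hk z hz)
  let Th : (G →₀ R) →ₗ[R] (G →₀ R) :=
    Finsupp.linearCombination R (fun g => bc ψ G (T (Finsupp.single g 1)))
  have hTh : ∀ y : G →₀ R', Th (bc ψ G y) = bc ψ G (T y) := fun y => by
    have : Th.comp (bc ψ G) = (bc ψ G).comp T := by
      apply semi_ext
      intro g
      simp [Th]
    exact congrArg (fun h => h y) this
  refine ⟨Th, fun l => ?_, ?_⟩
  · have hgen : ∀ g : G, bc ψ G (T (Finsupp.single g 1)) ∈ RelU ψ G (id : G → G) := fun g =>
      Submodule.subset_span ⟨T (Finsupp.single g 1), hT _, by simp⟩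
    rw [Finsupp.linearCombination_apply, Finsupp.sum]
    exact Submodule.sum_mem _ fun g _ => Submodule.smul_mem _ _ (hgen g)
  · have : Set.EqOn Th (LinearMap.id : (G →₀ R) →ₗ[R] (G →₀ R))
        (Submodule.span R (t : Set (G →₀ R)) : Set (G →₀ R)) := by
      apply LinearMap.eqOn_span
      intro y hy
      have hy' : y ∈ t := hy
      rw [← hk' y hy', hTh, hTx _ (Finset.mem_image_of_mem _ hy')]
      rfl
    exact this hxt

end Transfer

section Cot

/-- The module `C` is cotorsion over `R` (along `φ`). -/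
def RCot {R A : Type u} [Ring R] [Ring A] (φ : R →+* A) (C : Type u) [AddCommGroup C]
    [Module A C] : Prop :=
  ∀ (G : Type u) [AddCommGroup G] [Module R G], EqFlat R G → E1 φ G C

theorem RCot.transfer {R' R A : Type u} [Ring R'] [Ring R] [Ring A] (ψ : R' →+* R)
    {φ : R →+* A} (χ : R' →+* A) [RingHomCompTriple ψ φ χ] {C : Type u} [AddCommGroup C]
    [Module A C] (h : RCot φ C) : RCot χ C := by
  intro G _ _ hG ρ
  obtain ⟨r, hr⟩ := spanExt (ψ := ψ) (φ := φ) hG ρ
  obtain ⟨g, hg⟩ := E1.extend_mkQ _ (h _ (flat_baseChange hG ψ)) r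
  refine ⟨g.comp (bc ψ G), fun k => ?_⟩
  have hmem : bc ψ G k ∈ RelU ψ G (id : G → G) := Submodule.subset_span ⟨k, k.2, by simp⟩
  have := hg ⟨bc ψ G k, hmem⟩
  rw [LinearMap.comp_apply]
  exact this.trans (hr k hmem)

/-- Extension property of injective modules. -/
theorem inj_extend {A : Type u} [Ring A] {J : Type u} [AddCommGroup J] [Module A J]
    (hJ : Module.Injective A J) {Q : Type u} [AddCommGroup Q] [Module A Q]
    (U : Submodule A Q) (r : U →ₗ[A] J) : ∃ g : Q →ₗ[A] J, ∀ x : U, g x = r x := by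
  obtain ⟨g, hg⟩ := @Module.Injective.out A _ J _ _ hJ U Q _ _ _ _ U.subtype
    (Submodule.injective_subtype _) r
  exact ⟨g, hg⟩

theorem RCot.of_injective {R A : Type u} [Ring R] [Ring A] (φ : R →+* A) {J : Type u}
    [AddCommGroup J] [Module A J] (hJ : Module.Injective A J) : RCot φ J := by
  intro G _ _ hG ρ
  obtain ⟨r, hr⟩ := spanExt (ψ := φ) (φ := RingHom.id A) hG ρ
  obtain ⟨g, hg⟩ := inj_extend hJ _ r
  refine ⟨g.comp (bc φ G), fun k => ?_⟩
  have hmem : bc φ G k ∈ RelU φ G (id : G → G) := Submodule.subset_span ⟨k, k.2, by simp⟩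
  rw [LinearMap.comp_apply]
  exact (hg ⟨bc φ G k, hmem⟩).trans (hr k hmem)

theorem RCot.cosyzygy {R A : Type u} [Ring R] [Ring A] {φ : R →+* A} {C J D : Type u}
    [AddCommGroup C] [Module A C] [AddCommGroup J] [Module A J] [AddCommGroup D] [Module A D]
    (i : C →ₗ[A] J) (hi : Function.Injective i) (q : J →ₗ[A] D)
    (hq : Function.Surjective q) (hqi : ∀ c, q (i c) = 0) (hex : ∀ e, q e = 0 → ∃ c, i c = e)
    (hC : RCot φ C) (hJ : RCot φ J) : RCot φ D := by
  intro G _ _ hG ρ
  have hK : EqFlat R (LinearMap.ker (pr R G)) := EqFlat.ker hG _ (pr_surjective G)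
  obtain ⟨ρ', hρ'⟩ := (hC _ hK).lift i hi q hq hqi hex ρ
  obtain ⟨g, hg⟩ := hJ _ hG ρ'
  refine ⟨q.comp g, fun k => ?_⟩
  rw [LinearMap.comp_apply, hg, hρ']

end Cot

section Final

variable {A : Type u} [Ring A]

/-- Lifting against one injective embedding gives vanishing of the extension group. -/
theorem E1.of_lift {Y C J D : Type u} [AddCommGroup Y] [Module A Y]
    [AddCommGroup C] [Module A C] [AddCommGroup J] [Module A J] [AddCommGroup D] [Module A D]
    (i : C →ₗ[A] J) (hi : Function.Injective i) (q : J →ₗ[A] D)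
    (hqi : ∀ c, q (i c) = 0) (hex : ∀ e, q e = 0 → ∃ c, i c = e)
    (hJ : Module.Injective A J)
    (h : ∀ f : Y →ₗ[A] D, ∃ g : Y →ₗ[A] J, ∀ y, q (g y) = f y) : E1 (RingHom.id A) Y C := by
  intro ρ
  obtain ⟨l, hl⟩ := inj_extend hJ _ (i.comp ρ)
  obtain ⟨f, hf⟩ := factor (φ := RingHom.id A) (pr A Y) (pr_surjective Y) (q.comp l)
    (fun m hm => by
      have := hl ⟨m, hm⟩
      rw [LinearMap.comp_apply]
      change q (l ((⟨m, hm⟩ : LinearMap.ker (pr A Y)) : Y →₀ A)) = 0
      rw [this, LinearMap.comp_apply, hqi])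
  obtain ⟨g, hg⟩ := h f
  have hc : ∀ k : Y →₀ A, ∃ c, i c = l k - g (pr A Y k) := fun k => hex _ (by
    rw [map_sub, hg, hf, LinearMap.comp_apply, sub_self])
  choose c hc using hc
  refine ⟨{ toFun := c, map_add' := fun x y => hi ?_, map_smul' := fun r x => hi ?_ },
    fun k => hi ?_⟩
  · rw [map_add, hc, hc, hc]
    simp only [map_add]
    abel
  · rw [map_smul, hc, hc]
    simp [smul_sub]
  · change i (c k) = i (ρ k)
    rw [hc, LinearMap.mem_ker.1 k.2, map_zero, sub_zero]
    exact hl k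

/-- The final dimension shifting step. -/
theorem finalStep {X : Type u} [AddCommGroup X] [Module A X] (e d : X →ₗ[A] X)
    (he : ∀ x, e (e x) = e x) (hed : ∀ x, e (d x) = d x) (hde : ∀ x, d (e x) = d x)
    (hex0 : ∀ x, e x = x → d x = 0 → ∃ y, d y = x) (hdd : ∀ x, d (d x) = 0)
    {C J D : Type u} [AddCommGroup C] [Module A C] [AddCommGroup J] [Module A J]
    [AddCommGroup D] [Module A D]
    (i : C →ₗ[A] J) (hi : Function.Injective i) (q : J →ₗ[A] D)
    (hq : Function.Surjective q) (hqi : ∀ c, q (i c) = 0) (hex : ∀ e, q e = 0 → ∃ c, i c = e)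
    (hJ : Module.Injective A J)
    (hX : E1 (RingHom.id A) X C) (hZ : E1 (RingHom.id A) (LinearMap.range d) D) :
    E1 (RingHom.id A) (LinearMap.range d) C := by
  refine E1.of_lift i hi q hqi hex hJ fun f => ?_
  -- the surjection of the range of `e` onto the range of `d`
  let p : LinearMap.range e →ₗ[A] LinearMap.range d :=
    (d.rangeRestrict).comp (LinearMap.range e).subtype
  have hp : Function.Surjective p := by
    rintro ⟨_, x, rfl⟩
    exact ⟨⟨e x, x, rfl⟩, Subtype.ext (hde x)⟩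
  have hk : ∀ x : LinearMap.ker p, ((x : LinearMap.range e) : X) ∈ LinearMap.range d := by
    rintro ⟨⟨_, x, rfl⟩, hx⟩
    have hx' : d (e x) = 0 := congrArg Subtype.val hx
    obtain ⟨y, hy⟩ := hex0 (e x) (he x) hx'
    exact ⟨y, hy⟩
  obtain ⟨f1, hf1⟩ := hZ.extend p hp
    (f.comp (LinearMap.codRestrict _
      ((LinearMap.range e).subtype.comp (LinearMap.ker p).subtype) hk))
  obtain ⟨g, hg⟩ := hX.lift i hi q hq hqi hex (f1.comp e.rangeRestrict)
  refine ⟨g.comp (LinearMap.range d).subtype, ?_⟩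
  rintro ⟨_, x, rfl⟩
  change q (g (d x)) = _
  rw [hg]
  have h1 : e.rangeRestrict (d x) = ⟨d x, d x, hed x⟩ := Subtype.ext (hed x)
  have h2 : (⟨d x, d x, hed x⟩ : LinearMap.range e) ∈ LinearMap.ker p := by
    rw [LinearMap.mem_ker]
    exact Subtype.ext (hdd x)
  rw [LinearMap.comp_apply, h1]
  exact hf1 ⟨_, h2⟩

end Final

end Pool.Agent.Lib.MP_342ba6_al
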