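import Pool.Agent.Lib.MP_342ba6_al.Chain

/-!
Modules filtered by modules induced from flat modules.
-/

namespace Pool.Agent.Lib.MP_342ba6_al

universe u

/-- The union of the earlier members of a filtration. -/
def ltSub {A X I : Type*} [Ring A] [AddCommGroup X] [Module A X] [LinearOrder I]
    (fil : I → Submodule A X) (i : I) : Submodule A X := ⨆ j : {j // j < i}, fil j

theorem mem_ltSub {A X I : Type*} [Ring A] [AddCommGroup X] [Module A X] [LinearOrder I]
    {fil : I → Submodule A X} (hmono : Monotone fil) {i : I} {x : X} :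
    x ∈ ltSub fil i ↔ x = 0 ∨ ∃ j, j < i ∧ x ∈ fil j := by
  constructor
  · intro hx
    by_cases hne : Nonempty {j // j < i}
    · rw [ltSub, Submodule.mem_iSup_of_directed] at hx
      · obtain ⟨j, hj⟩ := hx
        exact Or.inr ⟨j.1, j.2, hj⟩
      · intro a b
        rcases le_total a b with h | h
        · exact ⟨b, hmono h, le_rfl⟩
        · exact ⟨a, le_rfl, hmono h⟩
    · left
      rw [not_nonempty_iff] at hne
      rw [ltSub, iSup_of_empty] at hx
      exact (Submodule.mem_bot A).1 hx
  · rintro (rfl | ⟨j, hj, hx⟩)
    · exact Submodule.zero_mem _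
    · exact Submodule.mem_iSup_of_mem (⟨j, hj⟩ : {j // j < i}) hx

/-- The module `X` is filtered by modules induced along `φ` from the flat modules `G i`. -/
structure Filt {R A X I : Type u} [Ring R] [Ring A] [AddCommGroup X] [Module A X]
    [LinearOrder I] (φ : R →+* A) (fil : I → Submodule A X) (G : I → Type u)
    [∀ i, AddCommGroup (G i)] [∀ i, Module R (G i)] (s : ∀ i, G i → X) : Prop where
  mono : Monotone fil
  cover : ∀ x, ∃ i, x ∈ fil i
  flat : ∀ i, EqFlat R (G i)
  mem : ∀ i g, s i g ∈ fil i
  span : ∀ i x, x ∈ fil i → ∃ l : G i →₀ A,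
    x - Finsupp.linearCombination A (s i) l ∈ ltSub fil i
  ker : ∀ i (l : G i →₀ A), Finsupp.linearCombination A (s i) l ∈ ltSub fil i ↔
    l ∈ RelU φ (G i) id

theorem Filt.e1 {R A X I : Type u} [Ring R] [Ring A] [AddCommGroup X] [Module A X]
    [LinearOrder I] [WellFoundedLT I] {φ : R →+* A} {fil : I → Submodule A X} {G : I → Type u}
    [∀ i, AddCommGroup (G i)] [∀ i, Module R (G i)] {s : ∀ i, G i → X}
    (h : Filt φ fil G s) {C : Type u} [AddCommGroup C] [Module A C] (hC : RCot φ C) :
    E1 (RingHom.id A) X C := by
  intro ρ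
  have hl : ∀ i (x : G i →₀ A), pr A X (Finsupp.mapDomain (s i) x) =
      Finsupp.linearCombination A (s i) x := by
    intro i x
    simp [pr, Finsupp.linearCombination_mapDomain]
  obtain ⟨g, -, hg⟩ := woExt (fun _ _ => True) (fun i => (fil i).comap (pr A X))
    (fun i j hij => Submodule.comap_mono (h.mono hij)) (LinearMap.ker (pr A X))
    (fun i => LinearMap.ker_le_comap (pr A X)) (fun i => (ltSub fil i).comap (pr A X)) (by
      intro i
      have : ltSub fil i = Submodule.map (pr A X)
          (⨆ v : {v // v < i}, (fil v).comap (pr A X)) := by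
        rw [Submodule.map_iSup]
        exact iSup_congr fun v =>
          (Submodule.map_comap_eq_of_surjective (pr_surjective X) _).symm
      rw [this, Submodule.comap_map_eq, sup_comm]) ⊤ (by
      have h1 : (⊤ : Submodule A X) = Submodule.map (pr A X)
          (⨆ v, (fil v).comap (pr A X)) := by
        rw [Submodule.map_iSup]
        symm
        rw [eq_top_iff]
        intro x _
        obtain ⟨i, hi⟩ := h.cover x
        refine Submodule.mem_iSup_of_mem i ?_
        rw [Submodule.map_comap_eq_of_surjective (pr_surjective X)]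
        exact hi
      have h2 : (⊤ : Submodule A (X →₀ A)) = Submodule.comap (pr A X) ⊤ :=
        (Submodule.comap_top _).symm
      rw [h2, h1, Submodule.comap_map_eq, sup_comm]) ρ (fun _ => trivial) (by
      intro i f _
      have hmem : ∀ x : G i →₀ A, x ∈ RelU φ (G i) id →
          Finsupp.lmapDomain A A (s i) x ∈ (ltSub fil i).comap (pr A X) := by
        intro x hx
        rw [Submodule.mem_comap, Finsupp.lmapDomain_apply, hl]
        exact (h.ker i x).2 hx
      obtain ⟨g, hg⟩ := (hC _ (h.flat i)).relU id Function.injective_id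
        (f.comp ((Finsupp.lmapDomain A A (s i)).restrict hmem))
      obtain ⟨r, hr, -⟩ := glue ((ltSub fil i).comap (pr A X)) f
        (Finsupp.lmapDomain A A (s i)) g (by
          intro p hp
          have hp' : p ∈ RelU φ (G i) id := by
            rw [Submodule.mem_comap, Finsupp.lmapDomain_apply, hl] at hp
            exact (h.ker i p).1 hp
          exact hg ⟨p, hp'⟩) ((fil i).comap (pr A X))
        (Submodule.comap_mono (iSup_le fun j => h.mono j.2.le)) (by
          intro p
          rw [Submodule.mem_comap, Finsupp.lmapDomain_apply, hl,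
            Finsupp.linearCombination_apply, Finsupp.sum]
          exact Submodule.sum_mem _ fun g _ => Submodule.smul_mem _ _ (h.mem i g)) (by
          intro v hv
          obtain ⟨l, hlv⟩ := h.span i _ hv
          refine ⟨v - Finsupp.lmapDomain A A (s i) l, ?_, l, by abel⟩
          rw [Submodule.mem_comap, map_sub, Finsupp.lmapDomain_apply, hl]
          exact hlv)
      exact ⟨r, fun _ => trivial, fun x hx hx' => hr x hx⟩)
  refine ⟨g.comp (LinearMap.codRestrict ⊤ LinearMap.id (fun _ => trivial)), fun k => ?_⟩
  exact hg k k.2 trivial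

end Pool.Agent.Lib.MP_342ba6_al
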