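import Pool.Agent.Lib.MP_342ba6_al.StepCat

/-!
From transfinite compositions of steps to filtrations.
-/

namespace Pool.Agent.Lib.MP_342ba6_al

universe u

open CategoryTheory Limits MorphismProperty

section Joint

variable {A : Type u} [Ring A]

/-- The image of a member of a colimit diagram. -/
def rg {J : Type u} [Category.{u} J] {F : J ⥤ ModuleCat.{u} A} (c : Cocone F) (j : J) :
    Submodule A c.pt :=
  LinearMap.range (M := F.obj j) (M₂ := c.pt) (c.ι.app j).hom

/-- The images of the members of a colimit diagram generate the colimit. -/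
theorem iSup_range_eq_top {J : Type u} [Category.{u} J] {F : J ⥤ ModuleCat.{u} A} {c : Cocone F}
    (hc : IsColimit c) : (⨆ j, rg c j) = ⊤ := by
  rw [eq_top_iff]
  intro y _
  let q := ModuleCat.ofHom (⨆ j, rg c j).mkQ
  have hq : q = 0 := by
    apply hc.hom_ext
    intro j
    ext x
    change (⨆ j, rg c j).mkQ ((c.ι.app j).hom x) = 0
    rw [Submodule.mkQ_apply, Submodule.Quotient.mk_eq_zero]
    exact Submodule.mem_iSup_of_mem j ⟨x, rfl⟩
  have h1 : (⨆ j, rg c j).mkQ y = 0 := congrArg (fun h => h.hom y) hq
  rwa [Submodule.mkQ_apply, Submodule.Quotient.mk_eq_zero] at h1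

end Joint

variable {R A : Type u} [Ring R] [Ring A] {φ : R →+* A}

theorem filt_of_transfinite {J : Type u} [LinearOrder J] [SuccOrder J] [OrderBot J]
    [WellFoundedLT J] [NoMaxOrder J] {Z X : ModuleCat.{u} A} {f : Z ⟶ X} (hZ : IsZero Z)
    (h : (stepProp φ).TransfiniteCompositionOfShape J f) :
    ∃ (fil : J → Submodule A X) (G : J → Type u) (_ : ∀ i, AddCommGroup (G i))
      (_ : ∀ i, Module R (G i)) (s : ∀ i, G i → X), Filt φ fil G s := by
  let h' := h.ofLE (stepProp_le_mono φ)
  let inc : ∀ j, h.F.obj j →ₗ[A] X := fun j => (h.incl.app j).hom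
  have hinj : ∀ j, Function.Injective (inc j) := fun j =>
    (ModuleCat.mono_iff_injective _).1 (h'.mem_incl_app j)
  have hcomp : ∀ i j (hij : i ≤ j) (x : h.F.obj i),
      inc j ((h.F.map (homOfLE hij)).hom x) = inc i x := by
    intro i j hij x
    have := h.incl.naturality (homOfLE hij)
    have h2 := congrArg (fun h => h.hom x) this
    exact h2
  have hmono : ∀ i j, i ≤ j → LinearMap.range (inc i) ≤ LinearMap.range (inc j) := by
    rintro i j hij _ ⟨x, rfl⟩
    exact ⟨(h.F.map (homOfLE hij)).hom x, hcomp i j hij x⟩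
  let fil : J → Submodule A X := fun j => LinearMap.range (inc (Order.succ j))
  have hfmono : Monotone fil := fun i j hij => hmono _ _ (Order.succ_le_succ hij)
  have hlt : ∀ j, ltSub fil j = LinearMap.range (inc j) := by
    intro j
    apply le_antisymm
    · exact iSup_le fun i => hmono _ _ (Order.succ_le_of_lt i.2)
    · rcases Order.isMin_or_mem_range_succ_or_isSuccLimit j with hj | ⟨i, rfl⟩ | hlim
      · have hb : j = ⊥ := hj.eq_bot
        subst hb
        have hz : IsZero (h.F.obj ⊥) := hZ.of_iso h.isoBot
        rintro _ ⟨y, rfl⟩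
        have h1 : h.incl.app ⊥ = 0 := hz.eq_of_src _ _
        have h2 : inc ⊥ y = 0 := congrArg (fun h => h.hom y) h1
        rw [h2]
        exact Submodule.zero_mem _
      · exact le_iSup_of_le (⟨i, Order.lt_succ i⟩ : {i' // i' < Order.succ i}) le_rfl
      · have hcol := h.F.isColimitOfIsWellOrderContinuous j hlim
        have htop := iSup_range_eq_top hcol
        rintro _ ⟨y, rfl⟩
        have hy : y ∈ ⨆ i, rg ((Set.principalSegIio j).cocone h.F) i := by
          rw [htop]; trivial
        let inc' : ((Set.principalSegIio j).cocone h.F).pt →ₗ[A] X := inc j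
        have hle : (⨆ i, rg ((Set.principalSegIio j).cocone h.F) i) ≤
            Submodule.comap inc' (ltSub fil j) := by
          refine iSup_le fun i => ?_
          rintro _ ⟨x, rfl⟩
          have e1 : inc' ((((Set.principalSegIio j).cocone h.F).ι.app i).hom x) =
              inc i.1 x := hcomp i.1 j (le_of_lt i.2) x
          rw [Submodule.mem_comap, e1]
          refine Submodule.mem_iSup_of_mem (⟨i.1, i.2⟩ : {i // i < j}) ?_
          exact hmono _ _ (Order.le_succ _) ⟨x, rfl⟩
        exact hle hy
  have hstep : ∀ j, IsStep φ (h.F.map (homOfLE (Order.le_succ j))).hom := fun j =>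
    h.map_mem j (not_isMax j)
  choose hi G i1 i2 m hG hm hk using hstep
  have hs : ∀ j (g : G j), ∃ y : h.F.obj (Order.succ j), m j y = Ind.unit φ g := fun j g =>
    hm j _
  choose s hs using hs
  have hlc : ∀ j (l : G j →₀ A), m j (Finsupp.linearCombination A (s j) l) =
      Ind.mk φ (G j) l := by
    intro j l
    have : (m j).comp (Finsupp.linearCombination A (s j)) = Ind.mk φ (G j) := by
      apply Finsupp.lhom_ext'
      intro x
      apply LinearMap.ext_ring
      change m j (Finsupp.linearCombination A (s j) (Finsupp.single x 1)) = _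
      rw [Finsupp.linearCombination_single, one_smul, hs]
      rfl
    exact congrArg (fun h => h l) this
  have hlc2 : ∀ j (l : G j →₀ A), Finsupp.linearCombination A
      (fun g => inc (Order.succ j) (s j g)) l =
      inc (Order.succ j) (Finsupp.linearCombination A (s j) l) := by
    intro j l
    have : Finsupp.linearCombination A (fun g => inc (Order.succ j) (s j g)) =
        (inc (Order.succ j)).comp (Finsupp.linearCombination A (s j)) := by
      apply Finsupp.lhom_ext'
      intro x
      apply LinearMap.ext_ring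
      simp
    exact congrArg (fun h => h l) this
  have hmem : ∀ j (y : h.F.obj (Order.succ j)), inc (Order.succ j) y ∈ ltSub fil j ↔
      m j y = 0 := by
    intro j y
    rw [hlt]
    have h1 : m j y = 0 ↔ y ∈ LinearMap.range (h.F.map (homOfLE (Order.le_succ j))).hom := by
      rw [← hk j, LinearMap.mem_ker]
    rw [h1]
    constructor
    · rintro ⟨x, hx⟩
      refine ⟨x, hinj _ ?_⟩
      rw [← hx]
      exact hcomp j _ (Order.le_succ j) x
    · rintro ⟨x, rfl⟩
      exact ⟨x, (hcomp j _ (Order.le_succ j) x).symm⟩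
  refine ⟨fil, G, i1, i2, fun j g => inc (Order.succ j) (s j g),
    { mono := hfmono
      cover := ?_
      flat := hG
      mem := fun i g => ⟨_, rfl⟩
      span := ?_
      ker := ?_ }⟩
  · intro x
    have htop := iSup_range_eq_top h.isColimit
    have hx : x ∈ ⨆ j, rg (Cocone.mk X h.incl) j := by rw [htop]; trivial
    have hx2 : x ∈ ⨆ j, LinearMap.range (inc j) := hx
    rw [Submodule.mem_iSup_of_directed] at hx2
    · obtain ⟨j, hj⟩ := hx2
      exact ⟨j, hmono _ _ (Order.le_succ j) hj⟩
    · intro a b
      rcases le_total a b with hab | hab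
      · exact ⟨b, hmono _ _ hab, le_rfl⟩
      · exact ⟨a, le_rfl, hmono _ _ hab⟩
  · rintro j _ ⟨y, rfl⟩
    obtain ⟨l, hl⟩ := Ind.mk_surjective φ (G j) (m j y)
    refine ⟨l, ?_⟩
    rw [hlc2, ← map_sub, hmem, map_sub, hlc, hl, sub_self]
  · intro j l
    rw [hlc2, hmem, hlc, Ind.mk_eq_zero]

end Pool.Agent.Lib.MP_342ba6_al
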