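import Pool.Agent.Lib.MP_342ba6_al.TensorFlat

/-!
Flatness defined by tensor products agrees with the equational criterion.
-/

namespace Pool.Agent.Lib.MP_342ba6_al

universe u

section Forward

variable {R : Type u} [Ring R] {G : Type u} [AddCommGroup G] [Module R G]

/-- The pairing with a fixed element of the free module. -/
noncomputable def pairing (k : G →₀ R) : (G →₀ R) →ₗ[Rᵐᵒᵖ] R where
  toFun x := ∑ g ∈ k.support, k g * x g
  map_add' x y := by
    rw [← Finset.sum_add_distrib]
    exact Finset.sum_congr rfl fun g _ => by rw [Finsupp.add_apply, mul_add]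
  map_smul' r x := by
    rw [RingHom.id_apply, Finset.smul_sum]
    refine Finset.sum_congr rfl fun g _ => ?_
    rw [Finsupp.smul_apply, MulOpposite.smul_eq_mul_unop, MulOpposite.smul_eq_mul_unop, mul_assoc]

theorem IsFlat.eqFlat (h : IsFlat R G) : EqFlat R G := by
  classical
  intro k hk
  rw [LinearMap.mem_ker] at hk
  have hksum : ∑ g ∈ k.support, k g • g = 0 := by
    have : pr R G k = ∑ g ∈ k.support, k g • g := by
      simp [pr, Finsupp.linearCombination_apply, Finsupp.sum]
    rw [← this, hk]
  let N : Submodule Rᵐᵒᵖ (G →₀ R) := LinearMap.ker (pairing k)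
  let f : ((G →₀ R) ⧸ N) →ₗ[Rᵐᵒᵖ] R := N.liftQ (pairing k) le_rfl
  have hf : Function.Injective f := by
    rw [← LinearMap.ker_eq_bot]
    exact Submodule.ker_liftQ_eq_bot _ _ _ le_rfl
  have hinj := h _ _ f hf
  let ξ : RelTensor R ((G →₀ R) ⧸ N) G :=
    ∑ g ∈ k.support, tmk R (N.mkQ (Finsupp.single g 1)) g
  have hξ : ξ = 0 := by
    apply hinj
    rw [map_zero]
    simp only [ξ, map_sum]
    have h1 : ∀ g ∈ k.support, RelTensor.map R G f (tmk R (N.mkQ (Finsupp.single g 1)) g) =
        tmk R (1 : R) (k g • g) := by
      intro g hg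
      rw [map_tmk]
      have h2 : f (N.mkQ (Finsupp.single g 1)) = MulOpposite.op (k g) • (1 : R) := by
        change pairing k (Finsupp.single g 1) = _
        change ∑ g' ∈ k.support, k g' * (Finsupp.single g (1 : R)) g' = _
        rw [Finset.sum_eq_single g]
        · simp
        · intro g' _ hne
          rw [Finsupp.single_eq_of_ne hne, mul_zero]
        · intro hn
          exact absurd hg hn
      rw [h2, tmk_bal]
    rw [Finset.sum_congr rfl h1]
    have h3 : ∀ s : Finset G, ∑ g ∈ s, tmk R (1 : R) (k g • g) =
        tmk R (1 : R) (∑ g ∈ s, k g • g) := by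
      intro s
      induction s using Finset.induction_on with
      | empty => rw [Finset.sum_empty, Finset.sum_empty, tmk_zero_right]
      | insert a s ha ih => rw [Finset.sum_insert ha, Finset.sum_insert ha, tmk_add_right, ih]
    rw [h3, hksum, tmk_zero_right]
  -- the comparison map
  let W : AddSubgroup (G → G) :=
    AddSubgroup.closure {v | ∃ x ∈ N, ∃ h : G, v = fun g => x g • h}
  let B0 : (G →₀ R) →+ (G →+ ((G → G) ⧸ W)) :=
    { toFun := fun x =>
        { toFun := fun h => QuotientAddGroup.mk (s := W) (fun g => x g • h)
          map_zero' := by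
            have : (fun g : G => x g • (0 : G)) = 0 := by
              ext g; simp
            rw [this]; rfl
          map_add' := fun a b => by
            have : (fun g : G => x g • (a + b)) = (fun g => x g • a) + (fun g => x g • b) := by
              ext g; simp [smul_add]
            rw [this]; rfl }
      map_zero' := by
        ext h
        have : (fun g : G => ((0 : G →₀ R) g) • h) = 0 := by
          ext g; simp
        change QuotientAddGroup.mk (s := W) (fun g : G => ((0 : G →₀ R) g) • h) = _
        rw [this]; rfl
      map_add' := fun x y => by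
        ext h
        have : (fun g : G => ((x + y) g) • h) = (fun g => x g • h) + (fun g => y g • h) := by
          ext g; simp [add_smul]
        change QuotientAddGroup.mk (s := W) (fun g : G => ((x + y) g) • h) = _
        rw [this]; rfl }
  have hB0 : ∀ x h, B0 x h = QuotientAddGroup.mk (s := W) (fun g => x g • h) := fun x h => rfl
  let B : ((G →₀ R) ⧸ N) →+ (G →+ ((G → G) ⧸ W)) :=
    QuotientAddGroup.lift N.toAddSubgroup B0 (by
      intro x hx
      ext h
      rw [hB0]
      exact (QuotientAddGroup.eq_zero_iff _).2 (AddSubgroup.subset_closure ⟨x, hx, h, rfl⟩))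
  have hB : ∀ x h, B (N.mkQ x) h = QuotientAddGroup.mk (s := W) (fun g => x g • h) :=
    fun x h => rfl
  have hbal : ∀ n (r : R) g, B (MulOpposite.op r • n) g = B n (r • g) := by
    intro n r g
    obtain ⟨x, rfl⟩ := Submodule.mkQ_surjective _ n
    rw [← map_smul, hB, hB]
    congr 1
    ext g'
    rw [Finsupp.smul_apply, MulOpposite.smul_eq_mul_unop, MulOpposite.unop_op, mul_smul]
  have h4 : relLift B hbal ξ = QuotientAddGroup.mk (s := W)
      (∑ g ∈ k.support, fun g' => (Finsupp.single g (1 : R)) g' • g) := by
    simp only [ξ, map_sum]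
    rw [Finset.sum_congr rfl (fun g _ => relLift_tmk B hbal _ _)]
    rw [Finset.sum_congr rfl (fun g _ => hB _ _)]
    exact (map_sum (QuotientAddGroup.mk' W) _ _).symm
  rw [hξ, map_zero] at h4
  have h5 := (QuotientAddGroup.eq_zero_iff _).1 h4.symm
  -- extract the matrix
  have h6 : ∀ v ∈ W, ∃ w : G → (G →₀ R), (∀ g, pr R G (w g) = v g) ∧
      ∑ g ∈ k.support, k g • w g = 0 := by
    intro v hv
    induction hv using AddSubgroup.closure_induction with
    | mem v hv =>
      obtain ⟨x, hx, h, rfl⟩ := hv
      refine ⟨fun g => Finsupp.single h (x g), fun g => by rw [pr_single], ?_⟩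
      have hx' : ∑ g ∈ k.support, k g * x g = 0 := hx
      simp only [Finsupp.smul_single, smul_eq_mul]
      rw [← Finsupp.single_finsetSum, hx', Finsupp.single_zero]
    | zero => exact ⟨0, fun g => by simp, by simp⟩
    | add v v' _ _ h h' =>
      obtain ⟨w, hw, hw2⟩ := h
      obtain ⟨w', hw', hw2'⟩ := h'
      refine ⟨w + w', fun g => by rw [Pi.add_apply, map_add, hw, hw']; rfl, ?_⟩
      simp only [Pi.add_apply, smul_add]
      rw [Finset.sum_add_distrib, hw2, hw2', add_zero]
    | neg v _ h =>
      obtain ⟨w, hw, hw2⟩ := h
      refine ⟨-w, fun g => by rw [Pi.neg_apply, map_neg, hw]; rfl, ?_⟩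
      simp only [Pi.neg_apply, smul_neg]
      rw [Finset.sum_neg_distrib, hw2, neg_zero]
  obtain ⟨w, hw, hw2⟩ := h6 _ h5
  have hw3 : ∀ g ∈ k.support, pr R G (w g) = g := by
    intro g hg
    rw [hw, Finset.sum_apply, Finset.sum_eq_single g]
    · simp
    · intro g' _ hne
      rw [Finsupp.single_eq_of_ne (Ne.symm hne), zero_smul]
    · intro hn
      exact absurd hg hn
  refine ⟨Finsupp.linearCombination R
    (fun g => if g ∈ k.support then Finsupp.single g 1 - w g else 0), fun l => ?_, ?_⟩
  · have h0 : (pr R G).comp (Finsupp.linearCombination R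
        (fun g => if g ∈ k.support then Finsupp.single g 1 - w g else 0)) = 0 := by
      apply Finsupp.lhom_ext'
      intro g
      apply LinearMap.ext_ring
      change pr R G (Finsupp.linearCombination R
        (fun g => if g ∈ k.support then Finsupp.single g 1 - w g else 0)
        (Finsupp.single g 1)) = 0
      rw [Finsupp.linearCombination_single, one_smul]
      split_ifs with hg
      · rw [map_sub, pr_single, one_smul, hw3 g hg, sub_self]
      · rw [map_zero]
    rw [LinearMap.mem_ker]
    exact congrArg (fun h => h l) h0
  · rw [Finsupp.linearCombination_apply, Finsupp.sum]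
    have h7 : ∀ g ∈ k.support, k g • (if g ∈ k.support then Finsupp.single g (1 : R) - w g
        else 0) = Finsupp.single g (k g) - k g • w g := by
      intro g hg
      rw [if_pos hg, smul_sub, Finsupp.smul_single, smul_eq_mul, mul_one]
    rw [Finset.sum_congr rfl h7, Finset.sum_sub_distrib, hw2, sub_zero]
    exact Finsupp.sum_single k

end Forward

section Backward

variable {R : Type u} [Ring R] {G : Type u} [AddCommGroup G] [Module R G]

section

variable (N : Type u) [AddCommGroup N] [Module Rᵐᵒᵖ N]

/-- Multiplying a vector over `R` by an element of a right module. -/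
noncomputable def vmul (n : N) : (G →₀ R) →+ (G →₀ N) :=
  Finsupp.mapRange.addMonoidHom
    { toFun := fun r => MulOpposite.op r • n
      map_zero' := by simp
      map_add' := fun a b => by rw [MulOpposite.op_add, add_smul] }

omit [AddCommGroup G] [Module R G] in
theorem vmul_single (n : N) (g : G) (r : R) :
    vmul N n (Finsupp.single g r) = Finsupp.single g (MulOpposite.op r • n) := by
  simp [vmul]

omit [AddCommGroup G] [Module R G] in
theorem vmul_smul (n : N) (r : R) (x : G →₀ R) :
    vmul N n (r • x) = vmul N (MulOpposite.op r • n) x := by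
  ext g
  simp only [vmul, Finsupp.mapRange.addMonoidHom_apply, Finsupp.mapRange_apply,
    Finsupp.smul_apply, AddMonoidHom.coe_mk, ZeroHom.coe_mk, smul_eq_mul, MulOpposite.op_mul]
  rw [mul_smul]

/-- The presentation map. -/
noncomputable def sg : (G →₀ N) →+ RelTensor R N G :=
  Finsupp.liftAddHom (fun g =>
    { toFun := fun n => tmk R n g
      map_zero' := tmk_zero_left g
      map_add' := fun a b => tmk_add_left a b g })

theorem sg_single (g : G) (n : N) : sg N (Finsupp.single g n) = tmk R n g := by
  rw [sg, Finsupp.liftAddHom_apply_single]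
  rfl

theorem sg_vmul (n : N) (x : G →₀ R) : sg N (vmul N n x) = tmk R n (pr R G x) := by
  induction x using Finsupp.induction_linear with
  | zero => rw [map_zero, map_zero, map_zero, tmk_zero_right]
  | add a b ha hb => rw [map_add, map_add, ha, hb, map_add, tmk_add_right]
  | single g r => rw [vmul_single, sg_single, pr_single, tmk_bal]

variable (R G) in
/-- The relations. -/
noncomputable def VV : AddSubgroup (G →₀ N) :=
  AddSubgroup.closure {v | ∃ (n : N) (κ : G →₀ R), pr R G κ = 0 ∧ v = vmul N n κ}

theorem sg_eq_zero (z : G →₀ N) (hz : (sg N z : RelTensor R N G) = 0) : z ∈ VV R G N := by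
  let B : N →+ G →+ ((G →₀ N) ⧸ VV R G N) :=
    { toFun := fun n =>
        { toFun := fun g => QuotientAddGroup.mk (s := VV R G N) (Finsupp.single g n)
          map_zero' := by
            refine (QuotientAddGroup.eq_zero_iff _).2 ?_
            refine AddSubgroup.subset_closure ⟨n, Finsupp.single 0 1, by simp, ?_⟩
            rw [vmul_single]; simp
          map_add' := fun g g' => by
            change _ = QuotientAddGroup.mk (s := VV R G N)
              (Finsupp.single g n + Finsupp.single g' n)
            refine (QuotientAddGroup.eq_iff_sub_mem).2 ?_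
            refine AddSubgroup.subset_closure ⟨n,
              Finsupp.single (g + g') 1 - (Finsupp.single g 1 + Finsupp.single g' 1), ?_, ?_⟩
            · rw [map_sub, map_add, pr_single, pr_single, pr_single]; simp
            · rw [map_sub, map_add, vmul_single, vmul_single, vmul_single]; simp }
      map_zero' := by
        ext g
        change QuotientAddGroup.mk (s := VV R G N) (Finsupp.single g (0 : N)) = 0
        rw [Finsupp.single_zero]; rfl
      map_add' := fun n n' => by
        ext g
        change QuotientAddGroup.mk (s := VV R G N) (Finsupp.single g (n + n')) =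
          QuotientAddGroup.mk (s := VV R G N) (Finsupp.single g n + Finsupp.single g n')
        rw [Finsupp.single_add] }
  have hB : ∀ n (r : R) g, B (MulOpposite.op r • n) g = B n (r • g) := by
    intro n r g
    change QuotientAddGroup.mk (s := VV R G N) (Finsupp.single g (MulOpposite.op r • n)) =
      QuotientAddGroup.mk (s := VV R G N) (Finsupp.single (r • g) n)
    refine (QuotientAddGroup.eq_iff_sub_mem).2 ?_
    refine AddSubgroup.subset_closure ⟨n, Finsupp.single g r - Finsupp.single (r • g) 1, ?_, ?_⟩
    · rw [map_sub, pr_single, pr_single]; simp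
    · rw [map_sub, vmul_single, vmul_single]; simp
  have h1 : ∀ z : G →₀ N, relLift B hB (sg N z) = QuotientAddGroup.mk (s := VV R G N) z := by
    intro z
    induction z using Finsupp.induction_linear with
    | zero => rw [map_zero, map_zero]; rfl
    | add a b ha hb => rw [map_add, map_add, ha, hb]; rfl
    | single g n => rw [sg_single, relLift_tmk]; rfl
  have h2 := h1 z
  rw [hz, map_zero] at h2
  exact (QuotientAddGroup.eq_zero_iff _).1 h2.symm

/-- Endomorphisms of the free module act. -/
noncomputable def act (T : (G →₀ R) →ₗ[R] (G →₀ R)) : (G →₀ N) →+ (G →₀ N) :=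
  Finsupp.liftAddHom (fun g =>
    { toFun := fun n => vmul N n (T (Finsupp.single g 1))
      map_zero' := by
        ext g'
        simp [vmul]
      map_add' := fun a b => by
        ext g'
        simp [vmul] })

theorem act_single (T : (G →₀ R) →ₗ[R] (G →₀ R)) (g : G) (n : N) :
    act N T (Finsupp.single g n) = vmul N n (T (Finsupp.single g 1)) := by
  rw [act, Finsupp.liftAddHom_apply_single]
  rfl

theorem act_vmul (T : (G →₀ R) →ₗ[R] (G →₀ R)) (n : N) (x : G →₀ R) :
    act N T (vmul N n x) = vmul N n (T x) := by
  induction x using Finsupp.induction_linear with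
  | zero => simp
  | add a b ha hb => rw [map_add, map_add, ha, hb, map_add, map_add]
  | single g r =>
    rw [vmul_single, act_single, ← vmul_smul, ← map_smul, Finsupp.smul_single, smul_eq_mul,
      mul_one]

end

theorem EqFlat.isFlat (h : EqFlat R G) : IsFlat R G := by
  classical
  intro N N' _ _ _ _ f hf
  rw [injective_iff_map_eq_zero]
  intro t ht
  have hsurj : ∀ t : RelTensor R N G, ∃ z, (sg N z : RelTensor R N G) = t := by
    intro t
    induction t using relTensor_induction with
    | h0 => exact ⟨0, map_zero _⟩
    | h1 n g => exact ⟨Finsupp.single g n, sg_single N g n⟩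
    | h2 x y hx hy =>
      obtain ⟨a, rfl⟩ := hx
      obtain ⟨b, rfl⟩ := hy
      exact ⟨a + b, map_add _ _ _⟩
  obtain ⟨z, rfl⟩ := hsurj t
  let F : (G →₀ N) →+ (G →₀ N') := Finsupp.mapRange.addMonoidHom f.toAddMonoidHom
  have hF : ∀ g n, F (Finsupp.single g n) = Finsupp.single g (f n) := fun g n => by
    simp [F]
  have hFinj : Function.Injective F := Finsupp.mapRange_injective _ (map_zero _) hf
  have hFv : ∀ n (x : G →₀ R), F (vmul N n x) = vmul N' (f n) x := by
    intro n x
    ext g
    simp [F, vmul]
  have h1 : ∀ z, RelTensor.map R G f (sg N z) = (sg N' (F z) : RelTensor R N' G) := by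
    intro z
    induction z using Finsupp.induction_linear with
    | zero => simp
    | add a b ha hb => rw [map_add, map_add, ha, hb, map_add, map_add]
    | single g n => rw [sg_single, map_tmk, hF, sg_single]
  rw [h1] at ht
  have h2 := sg_eq_zero N' (F z) ht
  have h3 : ∀ v ∈ VV R G N', ∃ s : Finset (G →₀ R), (∀ κ ∈ s, κ ∈ LinearMap.ker (pr R G)) ∧
      ∀ T : (G →₀ R) →ₗ[R] (G →₀ R), (∀ κ ∈ s, T κ = κ) → act N' T v = v := by
    intro v hv
    induction hv using AddSubgroup.closure_induction with
    | mem v hv =>
      obtain ⟨n, κ, hκ, rfl⟩ := hv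
      refine ⟨{κ}, fun κ' hκ' => ?_, fun T hT => ?_⟩
      · rw [Finset.mem_singleton.1 hκ']; exact hκ
      · rw [act_vmul, hT κ (Finset.mem_singleton_self κ)]
    | zero => exact ⟨∅, by simp, fun T _ => map_zero _⟩
    | add v v' _ _ h h' =>
      obtain ⟨s, hs, hs2⟩ := h
      obtain ⟨s', hs', hs2'⟩ := h'
      refine ⟨s ∪ s', fun κ hκ => ?_, fun T hT => ?_⟩
      · rcases Finset.mem_union.1 hκ with h | h
        · exact hs κ h
        · exact hs' κ h
      · rw [map_add, hs2 T (fun κ hκ => hT κ (Finset.mem_union_left _ hκ)),
          hs2' T (fun κ hκ => hT κ (Finset.mem_union_right _ hκ))]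
    | neg v _ h =>
      obtain ⟨s, hs, hs2⟩ := h
      exact ⟨s, hs, fun T hT => by rw [map_neg, hs2 T hT]⟩
  obtain ⟨s, hs, hs2⟩ := h3 _ h2
  obtain ⟨T, hT, hTs⟩ := h.finset s hs
  have h4 := hs2 T hTs
  have h5 : ∀ z, act N' T (F z) = F (act N T z) := by
    intro z
    induction z using Finsupp.induction_linear with
    | zero => simp
    | add a b ha hb => rw [map_add, map_add, ha, hb, map_add, map_add]
    | single g n => rw [hF, act_single, act_single, hFv]
  rw [h5] at h4
  have h6 := hFinj h4
  rw [← h6]
  have h7 : ∀ z, sg N (act N T z) = (0 : RelTensor R N G) := by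
    intro z
    induction z using Finsupp.induction_linear with
    | zero => simp
    | add a b ha hb => rw [map_add, map_add, ha, hb, add_zero]
    | single g n =>
      rw [act_single, sg_vmul]
      have : pr R G (T (Finsupp.single g 1)) = 0 := hT _
      rw [this, tmk_zero_right]
  exact h7 z

end Backward

end Pool.Agent.Lib.MP_342ba6_al
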