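import Pool.Agent.Lib.MP_342ba6_al.Push
import Pool.Agent.Lib.MP_342ba6_al.Closure

/-!
Good subsets: subsets of the disjoint union of all the sorts closed under countably many
finitary operations.
-/

namespace Pool.Agent.Lib.MP_342ba6_al

universe u v w

open Cardinal

section General

theorem IsClub.ex {D : Type u} {O : Type v} {W : Type w} (suppO : O → Set D)
    (hfin : ∀ o, (suppO o).Finite)
    (hcount : ∀ T : Set D, T.Finite → {o | suppO o ⊆ T}.Countable)
    (suppW : W → Set D) (hW : ∀ x, (suppW x).Countable) (P : O → W → Prop)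
    (h : ∀ o, ∃ x, P o x) :
    IsClub ℵ₀ (fun S : Set D => ∀ o, suppO o ⊆ S → ∃ x, suppW x ⊆ S ∧ P o x) := by
  choose f hf using h
  refine (IsClub.ruleC suppO hfin (fun o => suppW (f o)) (fun o => hW _) hcount).mono ?_
  intro S hS o ho
  exact ⟨f o, hS o ho, hf o⟩

/-- The data of a finitely supported function. -/
def dat {D Y B : Type*} [Zero B] (f : Y → D) (h : B → D) (k : Y →₀ B) : Set D :=
  f '' k.support ∪ (fun y => h (k y)) '' k.support

theorem dat_finite {D Y B : Type*} [Zero B] (f : Y → D) (h : B → D) (k : Y →₀ B) :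
    (dat f h k).Finite :=
  (k.support.finite_toSet.image f).union (k.support.finite_toSet.image _)

theorem dat_countable {D Y B : Type*} [Zero B] (f : Y → D) (h : B → D)
    (hf : Function.Injective f) (hh : Function.Injective h) (T : Set D) (hT : T.Countable) :
    {k : Y →₀ B | dat f h k ⊆ T}.Countable := by
  have h1 : ((f ⁻¹' T) ×ˢ (h ⁻¹' T)).Countable := (hT.preimage hf).prod (hT.preimage hh)
  have h2 := Set.countable_ofPred_finite_subset h1
  have h3 : Function.Injective (fun k : Y →₀ B => (k.graph : Set (Y × B))) :=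
    Finset.coe_injective.comp (Finsupp.graph_injective Y B)
  refine (h2.preimage h3).mono ?_
  intro k hk
  refine ⟨Finset.finite_toSet _, ?_⟩
  rintro ⟨y, b⟩ hyb
  rw [Finset.mem_coe, Finsupp.mem_graph_iff] at hyb
  obtain ⟨h4, h5⟩ := hyb
  simp only at h4 h5
  have h6 : y ∈ k.support := by
    rw [Finsupp.mem_support_iff, h4]; exact h5
  refine ⟨hk (Or.inl ⟨y, h6, rfl⟩), ?_⟩
  rw [← h4]
  exact hk (Or.inr ⟨y, h6, rfl⟩)

end General

/-- The disjoint union of the sorts. -/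
inductive Srt (R A X I : Type u) (G : I → Type u) : Type u
  | r : R → Srt R A X I G
  | a : A → Srt R A X I G
  | x : X → Srt R A X I G
  | i : I → Srt R A X I G
  | g : (i : I) → G i → Srt R A X I G

namespace Srt

variable {R A X I : Type u} {G : I → Type u}

theorem r_inj : Function.Injective (r : R → Srt R A X I G) := fun _ _ h => Srt.r.inj h
theorem a_inj : Function.Injective (a : A → Srt R A X I G) := fun _ _ h => Srt.a.inj h
theorem x_inj : Function.Injective (x : X → Srt R A X I G) := fun _ _ h => Srt.x.inj h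
theorem i_inj : Function.Injective (i : I → Srt R A X I G) := fun _ _ h => Srt.i.inj h
theorem g_inj (i : I) : Function.Injective (g i : G i → Srt R A X I G) := fun _ _ h => by
  injection h

end Srt

section

variable {R A X I : Type u} [Ring R] [Ring A] [AddCommGroup X] [Module A X]
    [LinearOrder I] {G : I → Type u}
    [∀ i, AddCommGroup (G i)] [∀ i, Module R (G i)]

/-- Good subsets. -/
structure Good (φ : R →+* A) (fil : I → Submodule A X) (s : ∀ i, G i → X) (e d : X →ₗ[A] X)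
    (S : Set (Srt R A X I G)) : Prop where
  r0 : Srt.r 0 ∈ S
  r1 : Srt.r 1 ∈ S
  a0 : Srt.a 0 ∈ S
  a1 : Srt.a 1 ∈ S
  x0 : Srt.x 0 ∈ S
  rneg : ∀ x, Srt.r x ∈ S → Srt.r (-x) ∈ S
  radd : ∀ x y, Srt.r x ∈ S → Srt.r y ∈ S → Srt.r (x + y) ∈ S
  rmul : ∀ x y, Srt.r x ∈ S → Srt.r y ∈ S → Srt.r (x * y) ∈ S
  rphi : ∀ x, Srt.r x ∈ S → Srt.a (φ x) ∈ S
  aneg : ∀ x, Srt.a x ∈ S → Srt.a (-x) ∈ S
  aadd : ∀ x y, Srt.a x ∈ S → Srt.a y ∈ S → Srt.a (x + y) ∈ S
  amul : ∀ x y, Srt.a x ∈ S → Srt.a y ∈ S → Srt.a (x * y) ∈ S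
  xadd : ∀ x y, Srt.x x ∈ S → Srt.x y ∈ S → Srt.x (x + y) ∈ S
  xe : ∀ x, Srt.x x ∈ S → Srt.x (e x) ∈ S
  xd : ∀ x, Srt.x x ∈ S → Srt.x (d x) ∈ S
  xi : ∀ x, Srt.x x ∈ S → ∃ i, Srt.i i ∈ S ∧ x ∈ fil i
  xpre : ∀ x, Srt.x x ∈ S → e x = x → d x = 0 → ∃ y, Srt.x y ∈ S ∧ d y = x
  xsmul : ∀ a x, Srt.a a ∈ S → Srt.x x ∈ S → Srt.x (a • x) ∈ S
  g0 : ∀ i, Srt.i i ∈ S → Srt.g i 0 ∈ S
  gadd : ∀ i x y, Srt.g i x ∈ S → Srt.g i y ∈ S → Srt.g i (x + y) ∈ S
  gs : ∀ i x, Srt.g i x ∈ S → Srt.x (s i x) ∈ S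
  gsmul : ∀ r i x, Srt.r r ∈ S → Srt.g i x ∈ S → Srt.g i (r • x) ∈ S
  lt : ∀ i x, Srt.i i ∈ S → Srt.x x ∈ S → x ∈ ltSub fil i →
    x = 0 ∨ ∃ j, Srt.i j ∈ S ∧ j < i ∧ x ∈ fil j
  span : ∀ i x, Srt.i i ∈ S → Srt.x x ∈ S → x ∈ fil i → ∃ l : G i →₀ A,
    dat (Srt.g i) Srt.a l ⊆ S ∧ x - Finsupp.linearCombination A (s i) l ∈ ltSub fil i
  flatG : ∀ i (k : G i →₀ R), Srt.i i ∈ S → dat (Srt.g i) Srt.r k ⊆ S → pr R (G i) k = 0 →
    ∃ T : (G i →₀ R) →ₗ[R] (G i →₀ R), (∀ l, pr R (G i) (T l) = 0) ∧ T k = k ∧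
      ∀ y ∈ k.support, dat (Srt.g i) Srt.r (T (Finsupp.single y 1)) ⊆ S
  flatZ : ∀ k : LinearMap.range d →₀ A,
    dat (fun z : LinearMap.range d => Srt.x (z : X)) Srt.a k ⊆ S →
    pr A (LinearMap.range d) k = 0 →
    ∃ T : (LinearMap.range d →₀ A) →ₗ[A] (LinearMap.range d →₀ A),
      (∀ l, pr A (LinearMap.range d) (T l) = 0) ∧ T k = k ∧
      ∀ y ∈ k.support, dat (fun z : LinearMap.range d => Srt.x (z : X)) Srt.a
        (T (Finsupp.single y 1)) ⊆ S
  ker : ∀ i (l : G i →₀ A), Srt.i i ∈ S → dat (Srt.g i) Srt.a l ⊆ S → l ∈ RelU φ (G i) id →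
    ∃ (t : Finset (G i →₀ R)) (c : (G i →₀ R) → A),
      (∀ k ∈ t, pr R (G i) k = 0) ∧ (∀ k ∈ t, dat (Srt.g i) Srt.r k ⊆ S) ∧
      (∀ k ∈ t, Srt.a (c k) ∈ S) ∧ l = ∑ k ∈ t, c k • bc φ (G i) k

/-- Basic operations. -/
def opw (φ : R →+* A) (s : ∀ i, G i → X) (e d : X →ₗ[A] X) (idx : X → I)
    (pre : X → X) (lti : I → X → I) (spl : ∀ i, X → (G i →₀ A)) :
    Srt R A X I G → Srt R A X I G → Set (Srt R A X I G)
  | .r x, .r y => {.r 0, .r 1, .r (-x), .r (x + y), .r (x * y), .a (φ x)}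
  | .a x, .a y => {.a 0, .a 1, .a (-x), .a (x + y), .a (x * y)}
  | .a a, .x x => {.x (a • x)}
  | .x x, .x y => {.x (x + y), .x (e x), .x (d x), .i (idx x), .x (pre x)}
  | .r r, .g i x => {.g i (r • x)}
  | .g i x, .g j y => {.x (s i x)} ∪ {z | ∃ h : i = j, z = .g j (h ▸ x + y)}
  | .i i, .i _ => {.g i 0}
  | .i i, .x x => {.i (lti i x)} ∪ dat (Srt.g i) Srt.a (spl i x)
  | _, _ => ∅

theorem opw_countable (φ : R →+* A) (s : ∀ i, G i → X) (e d : X →ₗ[A] X) (idx : X → I)
    (pre : X → X) (lti : I → X → I) (spl : ∀ i, X → (G i →₀ A)) (p q : Srt R A X I G) :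
    (opw φ s e d idx pre lti spl p q).Countable := by
  have hs : ∀ (i j : I) (x : G i) (y : G j),
      {z : Srt R A X I G | ∃ h : i = j, z = .g j (h ▸ x + y)}.Countable := by
    intro i j x y
    apply Set.Subsingleton.countable
    rintro _ ⟨rfl, rfl⟩ _ ⟨_, rfl⟩
    rfl
  rcases p with x | x | x | i | ⟨i, x⟩ <;> rcases q with y | y | y | j | ⟨j, y⟩ <;>
    first
      | exact Set.countable_empty
      | exact (Set.countable_singleton _).union (hs _ _ _ _)
      | exact (Set.countable_singleton _).union (dat_finite _ _ _).countable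
      | (simp only [opw]; exact (Set.toFinite _).countable)

variable (φ : R →+* A) (fil : I → Submodule A X) (s : ∀ i, G i → X) (e d : X →ₗ[A] X)

theorem good_club (h : Filt φ fil G s)
    (hex0 : ∀ x, e x = x → d x = 0 → ∃ y, d y = x) (hZ : EqFlat A (LinearMap.range d)) :
    IsClub ℵ₀ (Good φ fil s e d) := by
  classical
  have hx : ∀ x, ∃ i, x ∈ fil i := h.cover
  have hpre : ∀ x, ∃ y, e x = x → d x = 0 → d y = x := fun x => by
    by_cases h1 : e x = x ∧ d x = 0
    · obtain ⟨y, hy⟩ := hex0 x h1.1 h1.2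
      exact ⟨y, fun _ _ => hy⟩
    · exact ⟨x, fun h2 h3 => absurd ⟨h2, h3⟩ h1⟩
  have hlt : ∀ i x, ∃ j, x ∈ ltSub fil i → x = 0 ∨ (j < i ∧ x ∈ fil j) := fun i x => by
    by_cases h1 : x ∈ ltSub fil i
    · rcases (mem_ltSub h.mono).1 h1 with h2 | ⟨j, hj⟩
      · exact ⟨i, fun _ => Or.inl h2⟩
      · exact ⟨j, fun _ => Or.inr hj⟩
    · exact ⟨i, fun h2 => absurd h2 h1⟩
  have hspl : ∀ i x, ∃ l : G i →₀ A, x ∈ fil i →
      x - Finsupp.linearCombination A (s i) l ∈ ltSub fil i := fun i x => by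
    by_cases h1 : x ∈ fil i
    · obtain ⟨l, hl⟩ := h.span i x h1
      exact ⟨l, fun _ => hl⟩
    · exact ⟨0, fun h2 => absurd h2 h1⟩
  choose idx hidx using hx
  choose pre hpre using hpre
  choose lti hlti using hlt
  choose spl hspl using hspl
  -- constants
  have c0 : IsClub ℵ₀ (fun S : Set (Srt R A X I G) =>
      Srt.r 0 ∈ S ∧ Srt.a 0 ∈ S ∧ Srt.x 0 ∈ S) := by
    refine (IsClub.ruleC (O := Unit) (fun _ => ∅) (fun _ => Set.finite_empty)
      (fun _ => ({Srt.r 0, Srt.a 0, Srt.x 0} : Set (Srt R A X I G)))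
      (fun _ => (Set.toFinite _).countable) (fun T _ => Set.to_countable _)).mono ?_
    intro S hS
    have := hS () (Set.empty_subset _)
    exact ⟨this (by simp), this (by simp), this (by simp)⟩
  have c1 : IsClub ℵ₀ (fun S : Set (Srt R A X I G) => ∀ p q, p ∈ S → q ∈ S →
      opw φ s e d idx pre lti spl p q ⊆ S) := by
    refine (IsClub.ruleC (O := Srt R A X I G × Srt R A X I G) (fun p => {p.1, p.2})
      (fun _ => Set.toFinite _) (fun p => opw φ s e d idx pre lti spl p.1 p.2)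
      (fun p => opw_countable φ s e d idx pre lti spl p.1 p.2) (fun T hT => ?_)).mono ?_
    · refine (hT.countable.prod hT.countable).mono ?_
      rintro ⟨p, q⟩ hpq
      exact ⟨hpq (by simp), hpq (by simp)⟩
    · intro S hS p q hp hq
      refine hS (p, q) ?_
      rintro z (rfl | rfl)
      · exact hp
      · exact hq
  have hTi : ∀ T : Set (Srt R A X I G), T.Finite → {i | Srt.i i ∈ T}.Countable :=
    fun T hT => hT.countable.preimage Srt.i_inj
  have c2 : IsClub ℵ₀ (fun S : Set (Srt R A X I G) => ∀ o : (Σ i, (G i →₀ R)),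
      insert (Srt.i o.1) (dat (Srt.g o.1) Srt.r o.2) ⊆ S → ∃ x : Set (Srt R A X I G) ×
        ((i : I) → (G i →₀ R) →ₗ[R] (G i →₀ R)), (if x.1.Countable then x.1 else ∅) ⊆ S ∧
        (pr R (G o.1) o.2 = 0 → x.1.Countable ∧ (∀ l, pr R (G o.1) (x.2 o.1 l) = 0) ∧
          x.2 o.1 o.2 = o.2 ∧ ∀ y ∈ o.2.support,
            dat (Srt.g o.1) Srt.r (x.2 o.1 (Finsupp.single y 1)) ⊆ x.1)) := by
    apply IsClub.ex
    · intro o
      exact (dat_finite _ _ _).insert _
    · intro T hT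
      refine (Set.Countable.biUnion (hTi T hT) (t := fun i _ =>
        (Sigma.mk i) '' {k : G i →₀ R | dat (Srt.g i) Srt.r k ⊆ T})
        (fun i _ => (dat_countable _ _ (Srt.g_inj i) Srt.r_inj T hT.countable).image _)).mono ?_
      rintro ⟨i, k⟩ hk
      rw [Set.mem_ofPred_eq, Set.insert_subset_iff] at hk
      exact Set.mem_biUnion (x := i) hk.1 ⟨k, hk.2, rfl⟩
    · intro x
      split_ifs with hx
      · exact hx
      · exact Set.countable_empty
    · rintro ⟨i, k⟩
      by_cases hk : pr R (G i) k = 0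
      · obtain ⟨T, hT, hTk⟩ := h.flat i k hk
        refine ⟨⟨⋃ y ∈ k.support, dat (Srt.g i) Srt.r (T (Finsupp.single y 1)),
          Function.update 0 i T⟩, fun _ => ⟨?_, ?_, ?_, ?_⟩⟩
        · exact Set.Countable.biUnion (k.support.countable_toSet)
            (fun y _ => (dat_finite _ _ _).countable)
        · intro l
          simpa using hT l
        · simpa using hTk
        · intro y hy
          simp only [Function.update_self]
          exact Set.subset_biUnion_of_mem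
            (u := fun y => dat (Srt.g i) Srt.r (T (Finsupp.single y 1))) hy
      · exact ⟨⟨∅, 0⟩, fun h1 => absurd h1 hk⟩
  have c3 : IsClub ℵ₀ (fun S : Set (Srt R A X I G) => ∀ k : LinearMap.range d →₀ A,
      dat (fun z : LinearMap.range d => Srt.x (z : X)) Srt.a k ⊆ S →
      ∃ x : Set (Srt R A X I G) ×
        ((LinearMap.range d →₀ A) →ₗ[A] (LinearMap.range d →₀ A)),
        (if x.1.Countable then x.1 else ∅) ⊆ S ∧
        (pr A (LinearMap.range d) k = 0 → x.1.Countable ∧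
          (∀ l, pr A (LinearMap.range d) (x.2 l) = 0) ∧
          x.2 k = k ∧ ∀ y ∈ k.support,
            dat (fun z : LinearMap.range d => Srt.x (z : X)) Srt.a
              (x.2 (Finsupp.single y 1)) ⊆ x.1)) := by
    apply IsClub.ex
    · intro o
      exact dat_finite _ _ _
    · intro T hT
      exact dat_countable _ _ (Srt.x_inj.comp Subtype.val_injective) Srt.a_inj T hT.countable
    · intro x
      split_ifs with hx
      · exact hx
      · exact Set.countable_empty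
    · intro k
      by_cases hk : pr A (LinearMap.range d) k = 0
      · obtain ⟨T, hT, hTk⟩ := hZ k hk
        refine ⟨⟨⋃ y ∈ k.support, dat (fun z : LinearMap.range d => Srt.x (z : X)) Srt.a
          (T (Finsupp.single y 1)), T⟩, fun _ => ⟨?_, hT, hTk, ?_⟩⟩
        · exact Set.Countable.biUnion (k.support.countable_toSet)
            (fun y _ => (dat_finite _ _ _).countable)
        · intro y hy
          exact Set.subset_biUnion_of_mem
            (u := fun y => dat (fun z : LinearMap.range d => Srt.x (z : X)) Srt.a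
              (T (Finsupp.single y 1))) hy
      · exact ⟨⟨∅, 0⟩, fun h1 => absurd h1 hk⟩
  have c4 : IsClub ℵ₀ (fun S : Set (Srt R A X I G) => ∀ o : (Σ i, (G i →₀ A)),
      insert (Srt.i o.1) (dat (Srt.g o.1) Srt.a o.2) ⊆ S → ∃ x : Set (Srt R A X I G),
        (if x.Countable then x else ∅) ⊆ S ∧
        (o.2 ∈ RelU φ (G o.1) id → x.Countable ∧ ∃ (t : Finset (G o.1 →₀ R))
          (c : (G o.1 →₀ R) → A), (∀ k ∈ t, pr R (G o.1) k = 0) ∧
          (∀ k ∈ t, dat (Srt.g o.1) Srt.r k ⊆ x) ∧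
          (∀ k ∈ t, Srt.a (c k) ∈ x) ∧ o.2 = ∑ k ∈ t, c k • bc φ (G o.1) k)) := by
    apply IsClub.ex
    · intro o
      exact (dat_finite _ _ _).insert _
    · intro T hT
      refine (Set.Countable.biUnion (hTi T hT) (t := fun i _ =>
        (Sigma.mk i) '' {k : G i →₀ A | dat (Srt.g i) Srt.a k ⊆ T})
        (fun i _ => (dat_countable _ _ (Srt.g_inj i) Srt.a_inj T hT.countable).image _)).mono ?_
      rintro ⟨i, k⟩ hk
      rw [Set.mem_ofPred_eq, Set.insert_subset_iff] at hk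
      exact Set.mem_biUnion (x := i) hk.1 ⟨k, hk.2, rfl⟩
    · intro x
      split_ifs with hx
      · exact hx
      · exact Set.countable_empty
    · rintro ⟨i, l⟩
      by_cases hl : l ∈ RelU φ (G i) id
      · obtain ⟨t, c, ht, hlt⟩ := relU_repr l hl
        refine ⟨(⋃ k ∈ t, dat (Srt.g i) Srt.r k) ∪ (fun k => Srt.a (c k)) '' t,
          fun _ => ⟨?_, t, c, ht, ?_, ?_, hlt⟩⟩
        · refine Set.Countable.union ?_ ?_
          · exact Set.Countable.biUnion (t.countable_toSet)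
              (fun y _ => (dat_finite _ _ _).countable)
          · exact t.countable_toSet.image _
        · intro k hk
          exact (Set.subset_biUnion_of_mem (u := fun k => dat (Srt.g i) Srt.r k) hk).trans
            Set.subset_union_left
        · intro k hk
          exact Or.inr ⟨k, hk, rfl⟩
      · exact ⟨∅, fun h1 => absurd h1 hl⟩
  refine ((((c0.and le_rfl c1).and le_rfl c2).and le_rfl c3).and le_rfl c4).mono ?_
  rintro S ⟨⟨⟨⟨⟨hr0, ha0, hx0⟩, h1⟩, h2⟩, h3⟩, h4⟩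
  exact
    { r0 := hr0
      a0 := ha0
      x0 := hx0
      r1 := h1 _ _ hr0 hr0 (by simp [opw])
      a1 := h1 _ _ ha0 ha0 (by simp [opw])
      rneg := fun x hx => h1 _ _ hx hr0 (by simp [opw])
      radd := fun x y hx hy => h1 _ _ hx hy (by simp [opw])
      rmul := fun x y hx hy => h1 _ _ hx hy (by simp [opw])
      rphi := fun x hx => h1 _ _ hx hr0 (by simp [opw])
      aneg := fun x hx => h1 _ _ hx ha0 (by simp [opw])
      aadd := fun x y hx hy => h1 _ _ hx hy (by simp [opw])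
      amul := fun x y hx hy => h1 _ _ hx hy (by simp [opw])
      xadd := fun x y hx hy => h1 _ _ hx hy (by simp [opw])
      xe := fun x hx => h1 _ _ hx hx0 (by simp [opw])
      xd := fun x hx => h1 _ _ hx hx0 (by simp [opw])
      xi := fun x hx => ⟨idx x, h1 _ _ hx hx0 (by simp [opw]), hidx x⟩
      xpre := fun x hx h5 h6 => ⟨pre x, h1 _ _ hx hx0 (by simp [opw]), hpre x h5 h6⟩
      xsmul := fun a x ha hx => h1 _ _ ha hx (by simp [opw])
      g0 := fun i hi => h1 _ _ hi hi (by simp [opw])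
      gadd := fun i x y hx hy => h1 _ _ hx hy (by simp [opw])
      gs := fun i x hx => h1 _ _ hx hx (by simp [opw])
      gsmul := fun r i x hr hx => h1 _ _ hr hx (by simp [opw])
      lt := fun i x hi hx hlt => by
        rcases hlti i x hlt with h5 | h5
        · exact Or.inl h5
        · exact Or.inr ⟨lti i x, h1 _ _ hi hx (by simp [opw]), h5⟩
      span := fun i x hi hx hxi => ⟨spl i x, Set.Subset.trans Set.subset_union_right
        (h1 _ _ hi hx), hspl i x hxi⟩
      flatG := fun i k hi hk hpk => by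
        obtain ⟨x, hx1, hx2⟩ := h2 ⟨i, k⟩ (Set.insert_subset_iff.2 ⟨hi, hk⟩)
        obtain ⟨h5, h6, h7, h8⟩ := hx2 hpk
        rw [if_pos h5] at hx1
        exact ⟨x.2 i, h6, h7, fun y hy => (h8 y hy).trans hx1⟩
      flatZ := fun k hk hpk => by
        obtain ⟨x, hx1, hx2⟩ := h3 k hk
        obtain ⟨h5, h6, h7, h8⟩ := hx2 hpk
        rw [if_pos h5] at hx1
        exact ⟨x.2, h6, h7, fun y hy => (h8 y hy).trans hx1⟩
      ker := fun i l hi hl hlr => by
        obtain ⟨x, hx1, hx2⟩ := h4 ⟨i, l⟩ (Set.insert_subset_iff.2 ⟨hi, hl⟩)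
        obtain ⟨h5, t, c, h6, h7, h8, h9⟩ := hx2 hlr
        rw [if_pos h5] at hx1
        exact ⟨t, c, h6, fun k hk => (h7 k hk).trans hx1, fun k hk => hx1 (h8 k hk), h9⟩ }

end

end Pool.Agent.Lib.MP_342ba6_al
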