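import Pool.Agent.Lib.MP_342ba6_al.ExtOne

/-!
Induced modules, and the class of steps: injective maps whose cokernel is induced from a
flat module.
-/

namespace Pool.Agent.Lib.MP_342ba6_al

universe u

open DirectSum

section Ind

variable {R A : Type*} [Ring R] [Ring A] (φ : R →+* A)

/-- The induced module. -/
def Ind (G : Type*) [AddCommGroup G] [Module R G] : Type _ :=
  (G →₀ A) ⧸ RelU φ G (id : G → G)

noncomputable instance (G : Type*) [AddCommGroup G] [Module R G] : AddCommGroup (Ind φ G) :=
  inferInstanceAs (AddCommGroup ((G →₀ A) ⧸ RelU φ G (id : G → G)))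

noncomputable instance (G : Type*) [AddCommGroup G] [Module R G] : Module A (Ind φ G) :=
  inferInstanceAs (Module A ((G →₀ A) ⧸ RelU φ G (id : G → G)))

variable (G : Type*) [AddCommGroup G] [Module R G] {M : Type*} [AddCommGroup M] [Module A M]

/-- The projection. -/
noncomputable def Ind.mk : (G →₀ A) →ₗ[A] Ind φ G := (RelU φ G (id : G → G)).mkQ

theorem Ind.mk_surjective : Function.Surjective (Ind.mk φ G) := Submodule.mkQ_surjective _

theorem Ind.mk_eq_zero (x : G →₀ A) : Ind.mk φ G x = 0 ↔ x ∈ RelU φ G (id : G → G) :=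
  Submodule.Quotient.mk_eq_zero _

variable {G}

theorem bc_mem_relU (k : G →₀ R) (hk : pr R G k = 0) : bc φ G k ∈ RelU φ G (id : G → G) :=
  Submodule.subset_span ⟨k, hk, by simp⟩

theorem mk_bc (k : G →₀ R) : Ind.mk φ G (bc φ G k) =
    Ind.mk φ G (Finsupp.single (pr R G k) 1) := by
  have h1 : bc φ G (k - Finsupp.single (pr R G k) 1) ∈ RelU φ G (id : G → G) :=
    bc_mem_relU φ _ (by rw [map_sub, pr_single, one_smul, sub_self])
  rw [map_sub, bc_single, map_one] at h1
  rw [← sub_eq_zero, ← map_sub, Ind.mk_eq_zero]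
  exact h1

/-- The unit. -/
noncomputable def Ind.unit : G →ₛₗ[φ] Ind φ G where
  toFun g := Ind.mk φ G (Finsupp.single g 1)
  map_add' x y := by
    have h1 := mk_bc φ (Finsupp.single x (1 : R) + Finsupp.single y 1)
    rw [map_add, map_add, map_add, bc_single, bc_single, pr_single, pr_single, one_smul,
      one_smul, map_one] at h1
    exact h1.symm
  map_smul' r x := by
    have h1 := mk_bc φ (Finsupp.single x (r : R))
    rw [bc_single, pr_single] at h1
    rw [← h1, ← map_smul, Finsupp.smul_single, smul_eq_mul, mul_one]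

theorem Ind.unit_apply (g : G) :
    Ind.unit φ g = Ind.mk φ G (Finsupp.single g 1) := rfl

variable {φ}

/-- The universal property. -/
noncomputable def Ind.lift (v : G →ₛₗ[φ] M) : Ind φ G →ₗ[A] M :=
  (RelU φ G (id : G → G)).liftQ (Finsupp.linearCombination A v) (by
    refine Submodule.span_le.2 ?_
    rintro _ ⟨k, hk, rfl⟩
    change Finsupp.linearCombination A v (Finsupp.mapDomain id (bc φ G k)) = 0
    have h1 : (Finsupp.linearCombination A v).comp (bc φ G) = v.comp (pr R G) := by
      apply semi_ext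
      intro y
      simp
    have h2 := congrArg (fun h => h k) h1
    simp only [LinearMap.comp_apply] at h2
    have hk' : pr R G k = 0 := hk
    rw [Finsupp.mapDomain_id, h2, hk', map_zero])

@[simp] theorem Ind.lift_unit (v : G →ₛₗ[φ] M) (g : G) : Ind.lift v (Ind.unit φ g) = v g := by
  rw [Ind.unit_apply]
  change Finsupp.linearCombination A v (Finsupp.single g 1) = v g
  simp

theorem Ind.hom_ext (f g : Ind φ G →ₗ[A] M)
    (h : ∀ x, f (Ind.unit φ x) = g (Ind.unit φ x)) : f = g := by
  have h1 : f.comp (Ind.mk φ G) = g.comp (Ind.mk φ G) := by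
    apply Finsupp.lhom_ext'
    intro x
    apply LinearMap.ext_ring
    exact h x
  apply LinearMap.ext
  intro x
  obtain ⟨y, rfl⟩ := Ind.mk_surjective φ G x
  exact congrArg (fun h => h y) h1

theorem Ind.surj (f : M →ₗ[A] Ind φ G) (h : ∀ x, ∃ m, f m = Ind.unit φ x) :
    Function.Surjective f := by
  rw [← LinearMap.range_eq_top]
  rw [eq_top_iff]
  intro y _
  obtain ⟨l, rfl⟩ := Ind.mk_surjective φ G y
  induction l using Finsupp.induction_linear with
  | zero => rw [map_zero]; exact Submodule.zero_mem _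
  | add a b ha hb => rw [map_add]; exact Submodule.add_mem _ (ha trivial) (hb trivial)
  | single g a =>
    obtain ⟨m, hm⟩ := h g
    refine ⟨a • m, ?_⟩
    rw [map_smul, hm, Ind.unit_apply, ← map_smul, Finsupp.smul_single, smul_eq_mul, mul_one]

end Ind

section DSum

variable {R A : Type*} [Ring R] [Ring A] {φ : R →+* A} {J : Type*} [DecidableEq J]
  {G : J → Type*} [∀ j, AddCommGroup (G j)] [∀ j, Module R (G j)]

/-- Direct sums of flat modules are flat. -/
theorem EqFlat.directSum (h : ∀ j, EqFlat R (G j)) : EqFlat R (⨁ j, G j) := by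
  classical
  let p : ((Σ j, G j) →₀ R) →ₗ[R] (⨁ j, G j) :=
    Finsupp.linearCombination R (fun x => DirectSum.lof R J G x.1 x.2)
  have hp : Function.Surjective p := by
    intro y
    induction y using DirectSum.induction_on with
    | zero => exact ⟨0, map_zero _⟩
    | of j x =>
      refine ⟨Finsupp.single ⟨j, x⟩ 1, ?_⟩
      simp only [p, Finsupp.linearCombination_single, one_smul]
      rfl
    | add x y hx hy =>
      obtain ⟨a, rfl⟩ := hx
      obtain ⟨b, rfl⟩ := hy
      exact ⟨a + b, map_add _ _ _⟩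
  refine EqFlat.of_locSplit p hp ?_
  intro k hk
  -- components
  let P : ∀ j, ((Σ j, G j) →₀ R) →ₗ[R] (G j →₀ R) := fun j =>
    Finsupp.lcomapDomain (Sigma.mk j) sigma_mk_injective
  let E : ∀ j, (G j →₀ R) →ₗ[R] ((Σ j, G j) →₀ R) := fun j =>
    Finsupp.lmapDomain R R (Sigma.mk j)
  have hpP : ∀ j (x : (Σ j, G j) →₀ R), pr R (G j) (P j x) =
      DirectSum.component R J G j (p x) := by
    intro j x
    have : (pr R (G j)).comp (P j) = (DirectSum.component R J G j).comp p := by
      apply semi_ext
      rintro ⟨i, y⟩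
      simp only [LinearMap.comp_apply, p, Finsupp.linearCombination_single, one_smul]
      by_cases hij : i = j
      · subst hij
        have : P i (Finsupp.single ⟨i, y⟩ 1) = Finsupp.single y 1 := by
          ext z
          by_cases hz : z = y
          · subst hz; simp [P]
          · simp [P, hz]
        rw [this, pr_single, one_smul, DirectSum.component.lof_self]
      · have : P j (Finsupp.single ⟨i, y⟩ 1) = 0 := by
          ext z
          have : (⟨j, z⟩ : Σ j, G j) ≠ ⟨i, y⟩ := fun h => hij (Sigma.mk.inj h).1.symm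
          simp [P, this.symm]
        rw [this, map_zero, DirectSum.component.of, dif_neg hij]
    exact congrArg (fun h => h x) this
  have hkP : ∀ j, P j k ∈ LinearMap.ker (pr R (G j)) := fun j => by
    rw [LinearMap.mem_ker, hpP, LinearMap.mem_ker.1 hk, map_zero]
  choose T hT hTk using fun j => h j (P j k) (hkP j)
  let U : ((Σ j, G j) →₀ R) →ₗ[R] ((Σ j, G j) →₀ R) :=
    Finsupp.linearCombination R (fun x => E x.1 (T x.1 (Finsupp.single x.2 1)))
  have hUE : ∀ j x, U (E j x) = E j (T j x) := by
    intro j x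
    have : U.comp (E j) = (E j).comp (T j) := by
      apply semi_ext
      intro y
      simp [U, E]
    exact congrArg (fun h => h x) this
  have hEP : k = ∑ j ∈ k.support.image Sigma.fst, E j (P j k) := by
    ext ⟨i, y⟩
    rw [Finsupp.finsetSum_apply]
    have h1 : ∀ j, j ≠ i → (E j (P j k)) ⟨i, y⟩ = 0 := by
      intro j hj
      simp only [E, Finsupp.lmapDomain_apply]
      apply Finsupp.mapDomain_of_notMem_range
      rintro ⟨z, hz⟩
      exact hj (Sigma.mk.inj hz).1
    have h2 : (E i (P i k)) ⟨i, y⟩ = k ⟨i, y⟩ := by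
      simp only [E, Finsupp.lmapDomain_apply]
      rw [Finsupp.mapDomain_apply sigma_mk_injective]
      rfl
    by_cases hi : i ∈ k.support.image Sigma.fst
    · rw [Finset.sum_eq_single i (fun j _ hj => h1 j hj) (fun h => absurd hi h), h2]
    · rw [Finset.sum_eq_zero (fun j hj => h1 j (fun hji => hi (hji ▸ hj)))]
      by_contra hne
      exact hi (Finset.mem_image.2 ⟨⟨i, y⟩, Finsupp.mem_support_iff.2 hne, rfl⟩)
  refine ⟨U, fun l => ?_, ?_⟩
  · have h1 : p.comp U = 0 := by
      apply semi_ext
      rintro ⟨j, x⟩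
      simp only [LinearMap.comp_apply, U, Finsupp.linearCombination_single, one_smul,
        LinearMap.zero_apply]
      have h2 : p.comp (E j) = (DirectSum.lof R J G j).comp (pr R (G j)) := by
        apply semi_ext
        intro y
        simp [p, E]
      have h3 := congrArg (fun h => h (T j (Finsupp.single x 1))) h2
      simp only [LinearMap.comp_apply] at h3
      rw [h3, LinearMap.mem_ker.1 (hT j _), map_zero]
    rw [LinearMap.mem_ker]
    exact congrArg (fun h => h l) h1
  · conv_lhs => rw [hEP]
    rw [map_sum]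
    conv_rhs => rw [hEP]
    refine Finset.sum_congr rfl fun j _ => ?_
    rw [hUE, hTk]

/-- Induction commutes with direct sums. -/
theorem Ind.directSum_equiv (φ : R →+* A) (G : J → Type*) [∀ j, AddCommGroup (G j)]
    [∀ j, Module R (G j)] : Nonempty ((⨁ j, Ind φ (G j)) ≃ₗ[A] Ind φ (⨁ j, G j)) := by
  let a : (⨁ j, Ind φ (G j)) →ₗ[A] Ind φ (⨁ j, G j) :=
    DirectSum.toModule A J _ (fun j => Ind.lift ((Ind.unit φ).comp (DirectSum.lof R J G j)))
  let b0 : (⨁ j, G j) →ₛₗ[φ] (⨁ j, Ind φ (G j)) :=
    { toFun := DirectSum.map (fun j => (Ind.unit φ (G := G j)).toAddMonoidHom)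
      map_add' := fun x y => map_add _ x y
      map_smul' := fun r x => by
        refine DFinsupp.ext fun j => ?_
        change Ind.unit φ (r • x j) = φ r • Ind.unit φ (x j)
        rw [LinearMap.map_smulₛₗ] }
  have hb0 : ∀ j x, b0 (DirectSum.of G j x) =
      DirectSum.lof A J (fun j => Ind φ (G j)) j (Ind.unit φ x) := by
    intro j x
    exact DirectSum.map_of _ j x
  have ha : ∀ j (x : Ind φ (G j)), a (DirectSum.lof A J (fun j => Ind φ (G j)) j x) =
      Ind.lift ((Ind.unit φ).comp (DirectSum.lof R J G j)) x := by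
    intro j x
    exact DirectSum.toModule_lof (M := fun j => Ind φ (G j)) A j x
  let b : Ind φ (⨁ j, G j) →ₗ[A] (⨁ j, Ind φ (G j)) :=
    Ind.lift (M := ⨁ j, Ind φ (G j)) b0
  have hb : ∀ x, b (Ind.unit φ x) = b0 x := fun x => Ind.lift_unit b0 x
  refine ⟨LinearEquiv.ofLinearMap a b ?_ ?_⟩
  · apply Ind.hom_ext
    intro x
    rw [LinearMap.comp_apply, hb, LinearMap.id_apply]
    induction x using DirectSum.induction_on with
    | zero => simp
    | of j x =>
      rw [hb0, ha, Ind.lift_unit]
      rfl
    | add x y hx hy => rw [map_add, map_add, hx, hy, map_add]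
  · apply DirectSum.linearMap_ext
    intro j
    apply Ind.hom_ext
    intro x
    rw [LinearMap.comp_apply, LinearMap.comp_apply, ha, Ind.lift_unit, LinearMap.comp_apply,
      hb, LinearMap.comp_apply, LinearMap.id_apply]
    exact hb0 j x

end DSum

section Step

variable {R A : Type u} [Ring R] [Ring A] (φ : R →+* A)

/-- Injective maps whose cokernel is induced from a flat module. -/
def IsStep {X Y : Type u} [AddCommGroup X] [Module A X] [AddCommGroup Y] [Module A Y]
    (f : X →ₗ[A] Y) : Prop :=
  Function.Injective f ∧ ∃ (G : Type u) (_ : AddCommGroup G) (_ : Module R G)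
    (m : Y →ₗ[A] Ind φ G), EqFlat R G ∧ Function.Surjective m ∧
      LinearMap.ker m = LinearMap.range f

variable {φ}

theorem IsStep.directSum {J : Type u} [DecidableEq J] {X Y : J → Type u}
    [∀ j, AddCommGroup (X j)] [∀ j, Module A (X j)] [∀ j, AddCommGroup (Y j)]
    [∀ j, Module A (Y j)] (f : ∀ j, X j →ₗ[A] Y j) (h : ∀ j, IsStep φ (f j)) :
    IsStep φ (DirectSum.lmap f) := by
  choose hinj G i1 i2 m hG hm hk using h
  refine ⟨(DirectSum.lmap_injective f).2 hinj, ⨁ j, G j, inferInstance, inferInstance, ?_⟩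
  obtain ⟨e⟩ := Ind.directSum_equiv φ G
  refine ⟨e.toLinearMap.comp (DirectSum.lmap m), EqFlat.directSum hG,
    e.surjective.comp ((DirectSum.lmap_surjective m).2 hm), ?_⟩
  rw [LinearEquiv.ker_comp, DirectSum.ker_lmap, DirectSum.range_lmap]
  congr 2
  ext j x
  rw [hk]

theorem IsStep.of_equiv {X Y X' Y' : Type u} [AddCommGroup X] [Module A X]
    [AddCommGroup Y] [Module A Y] [AddCommGroup X'] [Module A X'] [AddCommGroup Y']
    [Module A Y'] (f : X →ₗ[A] Y) (f' : X' →ₗ[A] Y') (a : X ≃ₗ[A] X') (b : Y ≃ₗ[A] Y')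
    (hc : ∀ x, b (f x) = f' (a x)) (h : IsStep φ f) : IsStep φ f' := by
  obtain ⟨hinj, G, i1, i2, m, hG, hm, hk⟩ := h
  refine ⟨?_, G, i1, i2, m.comp b.symm.toLinearMap, hG, hm.comp b.symm.surjective, ?_⟩
  · intro x y hxy
    obtain ⟨x, rfl⟩ := a.surjective x
    obtain ⟨y, rfl⟩ := a.surjective y
    rw [← hc, ← hc] at hxy
    rw [hinj (b.injective hxy)]
  · ext y
    rw [LinearMap.mem_ker, LinearMap.comp_apply]
    change m (b.symm y) = 0 ↔ _
    rw [← LinearMap.mem_ker, hk]
    constructor
    · rintro ⟨x, hx⟩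
      refine ⟨a x, ?_⟩
      rw [← hc, hx, b.apply_symm_apply]
    · rintro ⟨x, rfl⟩
      obtain ⟨x, rfl⟩ := a.surjective x
      exact ⟨x, by rw [← hc, b.symm_apply_apply]⟩

end Step

section Gen

variable {R A : Type u} [Ring R] [Ring A] (φ : R →+* A)

/-- The submodule generated by the base change of a submodule. -/
noncomputable def indSub {ι : Type u} (N : Submodule R (ι →₀ R)) : Submodule A (ι →₀ A) :=
  Submodule.span A (bc φ ι '' N)

theorem isStep_indSub {ι : Type u} (N : Submodule R (ι →₀ R))
    (hN : EqFlat R ((ι →₀ R) ⧸ N)) :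
    IsStep φ (X := indSub φ N) (Y := ι →₀ A) (indSub φ N).subtype := by
  refine ⟨Submodule.injective_subtype _, (ι →₀ R) ⧸ N, inferInstance, inferInstance, ?_⟩
  let m : (ι →₀ A) →ₗ[A] Ind φ ((ι →₀ R) ⧸ N) :=
    Finsupp.linearCombination A (fun t => Ind.unit φ (N.mkQ (Finsupp.single t 1)))
  have hm : ∀ x, m (bc φ ι x) = Ind.unit φ (N.mkQ x) := fun x => by
    have : m.comp (bc φ ι) = (Ind.unit φ).comp N.mkQ := by
      apply semi_ext
      intro y
      simp only [LinearMap.comp_apply, bc_single, map_one, m,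
        Finsupp.linearCombination_single, one_smul]
    exact congrArg (fun h => h x) this
  refine ⟨m, hN, ?_, ?_⟩
  · apply Ind.surj
    intro x
    obtain ⟨y, rfl⟩ := Submodule.mkQ_surjective _ x
    exact ⟨bc φ ι y, hm y⟩
  · rw [Submodule.range_subtype]
    obtain ⟨v, hv⟩ := factor (φ := φ) N.mkQ (Submodule.mkQ_surjective N)
      ((indSub φ N).mkQ.comp (bc φ ι)) (fun x hx => by
        have hx' : x ∈ N := by simpa using hx
        rw [LinearMap.comp_apply, Submodule.mkQ_apply, Submodule.Quotient.mk_eq_zero]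
        exact Submodule.subset_span ⟨x, hx', rfl⟩)
    have h1 : (Ind.lift v).comp m = (indSub φ N).mkQ := by
      apply Finsupp.lhom_ext'
      intro t
      apply LinearMap.ext_ring
      change Ind.lift v (m (Finsupp.single t 1)) = (indSub φ N).mkQ (Finsupp.single t 1)
      have h2 : (Finsupp.single t 1 : ι →₀ A) = bc φ ι (Finsupp.single t 1) := by simp
      rw [h2, hm, Ind.lift_unit, hv, LinearMap.comp_apply]
    apply le_antisymm
    · intro y hy
      have h3 := congrArg (fun h => h y) h1
      simp only [LinearMap.comp_apply] at h3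
      rw [LinearMap.mem_ker.1 hy, map_zero] at h3
      rw [Submodule.mkQ_apply] at h3
      exact (Submodule.Quotient.mk_eq_zero _).1 h3.symm
    · refine Submodule.span_le.2 ?_
      rintro _ ⟨x, hx, rfl⟩
      change m (bc φ ι x) = 0
      have hx' : N.mkQ x = 0 := by
        rw [Submodule.mkQ_apply, Submodule.Quotient.mk_eq_zero]
        exact hx
      rw [hm, hx', map_zero]

end Gen

end Pool.Agent.Lib.MP_342ba6_al
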