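import Pool.Agent.Lib.MP_342ba6_al.Filt

/-!
Comparison of free presentations over a subring.
-/

namespace Pool.Agent.Lib.MP_342ba6_al

universe u

section

variable {B' B : Type*} [Ring B'] [Ring B] (ψ : B' →+* B) {Y' Y : Type*} (v : Y' → Y)

/-- The comparison map. -/
noncomputable def push : (Y' →₀ B') →ₛₗ[ψ] (Y →₀ B) :=
  (Finsupp.lmapDomain B B v).comp (bc ψ Y')

theorem push_apply (k : Y' →₀ B') : push ψ v k = Finsupp.mapDomain v (bc ψ Y' k) := rfl

@[simp] theorem push_single (y : Y') (b : B') :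
    push ψ v (Finsupp.single y b) = Finsupp.single (v y) (ψ b) := by
  simp [push]

variable {ψ v}

theorem push_injective (hψ : Function.Injective ψ) (hv : Function.Injective v) :
    Function.Injective (push ψ v) := by
  intro k l h
  have h1 : bc ψ Y' k = bc ψ Y' l := Finsupp.mapDomain_injective hv h
  ext y
  have := DFunLike.congr_fun h1 y
  rw [bc_apply, bc_apply] at this
  exact hψ this

theorem mem_range_push (l : Y →₀ B) (h1 : ∀ y ∈ l.support, ∃ y', v y' = y)
    (h2 : ∀ y ∈ l.support, ∃ b, ψ b = l y) : ∃ k, push ψ v k = l := by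
  classical
  choose f hf using h1
  choose g hg using h2
  refine ⟨∑ y ∈ l.support.attach, Finsupp.single (f y y.2) (g y y.2), ?_⟩
  rw [map_sum]
  conv_rhs => rw [← Finsupp.sum_single l, Finsupp.sum, ← Finset.sum_attach]
  refine Finset.sum_congr rfl fun y _ => ?_
  rw [push_single, hf, hg]

theorem push_data (hv : Function.Injective v) (k : Y' →₀ B') (y : Y)
    (hy : y ∈ (push ψ v k).support) : ∃ y' ∈ k.support, v y' = y ∧ (push ψ v k) y = ψ (k y') := by
  classical
  rw [push_apply] at hy ⊢
  have h1 := Finsupp.mapDomain_support hy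
  obtain ⟨y', hy', rfl⟩ := Finset.mem_image.1 h1
  refine ⟨y', ?_, rfl, ?_⟩
  · rw [Finsupp.mem_support_iff] at hy' ⊢
    intro h0
    apply hy'
    rw [bc_apply, h0, map_zero]
  · rw [Finsupp.mapDomain_apply hv, bc_apply]

end

section

variable {B' B : Type*} [Ring B'] [Ring B] {ψ : B' →+* B} {Y' Y : Type*} [AddCommGroup Y']
  [Module B' Y'] [AddCommGroup Y] [Module B Y] (v : Y' →ₛₗ[ψ] Y)

theorem pr_push (k : Y' →₀ B') : pr B Y (push ψ v k) = v (pr B' Y' k) := by
  have : (pr B Y).comp (push ψ v) = v.comp (pr B' Y') := by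
    apply semi_ext
    intro y
    simp
  exact congrArg (fun h => h k) this

theorem EqFlat.reflect (hψ : Function.Injective ψ) (hv : Function.Injective v)
    (h : ∀ k : Y' →₀ B', pr B Y (push ψ v k) = 0 → ∃ T : (Y →₀ B) →ₗ[B] (Y →₀ B),
      (∀ l, pr B Y (T l) = 0) ∧ T (push ψ v k) = push ψ v k ∧
      ∀ y ∈ k.support, ∃ l, push ψ v l = T (Finsupp.single (v y) 1)) : EqFlat B' Y' := by
  classical
  intro k hk
  rw [LinearMap.mem_ker] at hk
  obtain ⟨T, hT, hTk, hTy⟩ := h k (by rw [pr_push, hk, map_zero])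
  choose! l hl using hTy
  refine ⟨Finsupp.linearCombination B' (fun y => if y ∈ k.support then l y else 0),
    fun x => ?_, ?_⟩
  · rw [LinearMap.mem_ker]
    have h0 : (pr B' Y').comp (Finsupp.linearCombination B'
        (fun y => if y ∈ k.support then l y else 0)) = 0 := by
      apply semi_ext
      intro y
      rw [LinearMap.comp_apply, Finsupp.linearCombination_single, one_smul]
      split_ifs with hy
      · have : pr B' Y' (l y) = 0 := by
          apply hv
          rw [← pr_push, hl y hy, hT, map_zero]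
        rw [this, LinearMap.zero_apply]
      · simp
    exact congrArg (fun h => h x) h0
  · apply push_injective hψ hv
    rw [Finsupp.linearCombination_apply, Finsupp.sum, map_sum]
    conv_rhs => rw [← hTk, ← Finsupp.sum_single k, Finsupp.sum, map_sum, map_sum]
    refine Finset.sum_congr rfl fun y hy => ?_
    rw [if_pos hy, LinearMap.map_smulₛₗ, hl y hy, push_single]
    have : (Finsupp.single (v y) (ψ (k y)) : Y →₀ B) = ψ (k y) • Finsupp.single (v y) 1 := by
      simp
    rw [this, map_smul]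

end

section

variable {R' R A' A : Type*} [Ring R'] [Ring R] [Ring A'] [Ring A] {ψ : R' →+* R}
  {τ : A' →+* A} {φ' : R' →+* A'} {φ : R →+* A} (hc : ∀ r, τ (φ' r) = φ (ψ r))

include hc in
theorem push_bc {Y' Y : Type*} (v : Y' → Y) (k : Y' →₀ R') :
    push τ v (bc φ' Y' k) = bc φ Y (push ψ v k) := by
  induction k using Finsupp.induction_linear with
  | zero => simp
  | add x y hx hy => simp only [map_add, hx, hy]
  | single y b => simp [hc]

/-- Finite representations of elements of the relation module. -/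
theorem relU_repr {G : Type*} [AddCommGroup G] [Module R G] (x : G →₀ A)
    (hx : x ∈ RelU φ G (id : G → G)) : ∃ (t : Finset (G →₀ R)) (c : (G →₀ R) → A),
      (∀ k ∈ t, pr R G k = 0) ∧ x = ∑ k ∈ t, c k • bc φ G k := by
  have h1 : x ∈ Submodule.span A ((bc φ G) '' (LinearMap.ker (pr R G) : Set (G →₀ R))) := by
    refine (?_ : RelU φ G (id : G → G) ≤ _) hx
    refine Submodule.span_mono ?_
    rintro _ ⟨k, hk, rfl⟩
    exact ⟨k, hk, by simp⟩
  rw [Finsupp.mem_span_image_iff_linearCombination] at h1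
  obtain ⟨l, hl, rfl⟩ := h1
  refine ⟨l.support, l, fun k hk => ?_, ?_⟩
  · exact hl hk
  · rw [Finsupp.linearCombination_apply, Finsupp.sum]

theorem repr_relU {G : Type*} [AddCommGroup G] [Module R G] (t : Finset (G →₀ R))
    (c : (G →₀ R) → A) (h : ∀ k ∈ t, pr R G k = 0) :
    ∑ k ∈ t, c k • bc φ G k ∈ RelU φ G (id : G → G) :=
  Submodule.sum_mem _ fun k hk => Submodule.smul_mem _ _
    (Submodule.subset_span ⟨k, h k hk, by simp⟩)

include hc in
theorem relU_push {G' G : Type*} [AddCommGroup G'] [Module R' G'] [AddCommGroup G]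
    [Module R G] (v : G' →ₛₗ[ψ] G) (x : G' →₀ A') (hx : x ∈ RelU φ' G' (id : G' → G')) :
    push τ v x ∈ RelU φ G (id : G → G) := by
  obtain ⟨t, c, ht, rfl⟩ := relU_repr x hx
  rw [map_sum]
  refine Submodule.sum_mem _ fun k hk => ?_
  rw [LinearMap.map_smulₛₗ, push_bc hc]
  refine Submodule.smul_mem _ _ (Submodule.subset_span ⟨push ψ v k, ?_, by simp⟩)
  change pr R G (push ψ v k) = 0
  rw [pr_push, ht k hk, map_zero]

include hc in
theorem relU_reflect {G' G : Type*} [AddCommGroup G'] [Module R' G'] [AddCommGroup G]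
    [Module R G] (hτ : Function.Injective τ) (v : G' →ₛₗ[ψ] G)
    (hv : Function.Injective v) (x : G' →₀ A') (t : Finset (G →₀ R)) (c : (G →₀ R) → A)
    (ht : ∀ k ∈ t, pr R G k = 0) (hx : push τ v x = ∑ k ∈ t, c k • bc φ G k)
    (h1 : ∀ k ∈ t, ∃ k', push ψ v k' = k) (h2 : ∀ k ∈ t, ∃ a, τ a = c k) :
    x ∈ RelU φ' G' (id : G' → G') := by
  choose! k' hk' using h1
  choose! a ha using h2
  have : x = ∑ k ∈ t, a k • bc φ' G' (k' k) := by
    apply push_injective hτ hv
    rw [hx, map_sum]
    refine Finset.sum_congr rfl fun k hk => ?_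
    rw [LinearMap.map_smulₛₗ, push_bc hc, hk' k hk, ha k hk]
  rw [this]
  refine Submodule.sum_mem _ fun k hk => Submodule.smul_mem _ _
    (Submodule.subset_span ⟨k' k, ?_, by simp⟩)
  change pr R' G' (k' k) = 0
  apply hv
  rw [← pr_push, hk' k hk, ht k hk, map_zero]

end

end Pool.Agent.Lib.MP_342ba6_al
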