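import Pool.Agent.Lib.MP_342ba6_al.Push
import Pool.Agent.Lib.MP_342ba6_al.Closure

/-!
Cotorsion modules can be tested on flat quotients of one free module.
-/

namespace Pool.Agent.Lib.MP_342ba6_al

universe u

open Cardinal

theorem extend_transfer {B A : Type*} [Ring B] [Ring A] {φ : B →+* A} {L Y Q C : Type*}
    [AddCommGroup L] [Module B L] [AddCommGroup Y] [Module B Y] [AddCommGroup Q] [Module B Q]
    [AddCommGroup C] [Module A C] (p : L →ₗ[B] Y) (hp : Function.Surjective p)
    (h : ∀ ρ : LinearMap.ker p →ₛₗ[φ] C, ∃ g : L →ₛₗ[φ] C, ∀ k : LinearMap.ker p, g k = ρ k)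
    (p' : Q →ₗ[B] Y) (l : L →ₗ[B] Q) (hl : ∀ x, p' (l x) = p x)
    (ρ : LinearMap.ker p' →ₛₗ[φ] C) :
    ∃ g : Q →ₛₗ[φ] C, ∀ k : LinearMap.ker p', g k = ρ k := by
  have hl' : ∀ x ∈ LinearMap.ker p, l x ∈ LinearMap.ker p' := fun x hx => by
    rw [LinearMap.mem_ker] at hx ⊢
    rw [hl, hx]
  obtain ⟨g, hg⟩ := h (ρ.comp (l.restrict hl'))
  obtain ⟨r, hr1, -⟩ := glue (LinearMap.ker p') ρ l g (fun x hx => by
    have hx' : x ∈ LinearMap.ker p := by
      rw [LinearMap.mem_ker] at hx ⊢
      rw [← hl, hx]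
    exact hg ⟨x, hx'⟩) ⊤ le_top (fun _ => trivial) (fun v _ => by
      obtain ⟨x, hx⟩ := hp (p' v)
      refine ⟨v - l x, ?_, x, by simp⟩
      rw [LinearMap.mem_ker, map_sub, hl, hx, sub_self])
  refine ⟨r.comp (LinearMap.codRestrict ⊤ LinearMap.id (fun _ => trivial)), fun k => ?_⟩
  exact hr1 k k.2

theorem mk_supp_le {G R : Type u} [Zero R] {c : Cardinal.{u}} (hc : ℵ₀ ≤ c) (hR : #R ≤ c)
    (T : Set G) (hT : T.Finite) : #{k : G →₀ R | (k.support : Set G) ⊆ T} ≤ c := by
  have h1 : #{k : G →₀ R | (k.support : Set G) ⊆ T} ≤ #(T → R) := by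
    refine Cardinal.mk_le_of_injective (f := fun k t => k.1 t) ?_
    intro k l hkl
    apply Subtype.ext
    ext g
    by_cases hg : g ∈ T
    · exact congrFun hkl ⟨g, hg⟩
    · have hk : k.1 g = 0 := by
        by_contra h
        exact hg (k.2 (Finsupp.mem_support_iff.2 h))
      have hl : l.1 g = 0 := by
        by_contra h
        exact hg (l.2 (Finsupp.mem_support_iff.2 h))
      rw [hk, hl]
  obtain ⟨n, hn⟩ := Cardinal.lt_aleph0.1 (Cardinal.lt_aleph0_iff_set_finite.2 hT)
  have h2 : #(T → R) ≤ c := by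
    rw [Cardinal.mk_arrow, Cardinal.lift_id, Cardinal.lift_id, hn]
    exact (Cardinal.power_le_power_right hR).trans (Cardinal.power_nat_le hc)
  exact h1.trans h2

/-- Pure hulls. -/
theorem pureHull {R G : Type u} [Ring R] [AddCommGroup G] [Module R G] {c : Cardinal.{u}}
    (hc : ℵ₀ ≤ c) (hR : #R ≤ c) (hG : EqFlat R G) (x0 : G) :
    ∃ H : Submodule R G, x0 ∈ H ∧ #H ≤ c ∧ EqFlat R H ∧ EqFlat R (G ⧸ H) := by
  classical
  have c0 : IsClub c (fun S : Set G => (0 : G) ∈ S) := by
    refine (IsClub.rule hc (O := PUnit.{u + 1}) (fun _ => ∅) (fun _ => Set.finite_empty)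
      (fun _ => ({0} : Set G)) (fun _ => ?_) (fun T _ => ?_)).mono ?_
    · rw [Cardinal.mk_singleton]; exact one_le_aleph0.trans hc
    · rw [Cardinal.lift_le]
      refine (Cardinal.mk_set_le _).trans ?_
      simp only [Cardinal.mk_punit]
      exact one_le_aleph0.trans hc
    · intro S hS
      exact hS PUnit.unit (Set.empty_subset _) rfl
  have c1 : IsClub c (fun S : Set G => ∀ x ∈ S, ∀ y ∈ S, x + y ∈ S ∧ ∀ r : R, r • x ∈ S) := by
    refine (IsClub.rule hc (O := G × G) (fun o => {o.1, o.2}) (fun _ => Set.toFinite _)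
      (fun o => insert (o.1 + o.2) (Set.range (fun r : R => r • o.1))) (fun o => ?_)
      (fun T hT => ?_)).mono ?_
    · refine (Cardinal.mk_insert_le).trans ?_
      exact Cardinal.add_le_of_le hc (Cardinal.mk_range_le.trans hR) (one_le_aleph0.trans hc)
    · rw [Cardinal.lift_le]
      refine le_trans ?_ hc
      rw [Cardinal.le_aleph0_iff_set_countable]
      refine (hT.countable.prod hT.countable).mono ?_
      rintro ⟨p, q⟩ hpq
      exact ⟨hpq (by simp), hpq (by simp)⟩
    · intro S hS x hx y hy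
      have h1 := hS (x, y) (by
        rintro z (rfl | rfl)
        · exact hx
        · exact hy)
      exact ⟨h1 (Set.mem_insert _ _), fun r => h1 (Set.mem_insert_of_mem _ ⟨r, rfl⟩)⟩
  have c2 : IsClub c (fun S : Set G => ∀ h ∈ S, ∀ r : ℕ →₀ R,
      (∃ x : ℕ → G, Finsupp.linearCombination R x r = h) →
      ∃ x : ℕ → G, (∀ n, x n ∈ S) ∧ Finsupp.linearCombination R x r = h) := by
    refine (IsClub.rule hc (O := G × (ℕ →₀ R)) (fun o => {o.1}) (fun _ => Set.toFinite _)
      (fun o => if h : ∃ x : ℕ → G, Finsupp.linearCombination R x o.2 = o.1 then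
        Set.range h.choose else ∅) (fun o => ?_) (fun T hT => ?_)).mono ?_
    · split_ifs with h
      · refine le_trans ?_ hc
        rw [Cardinal.le_aleph0_iff_set_countable]
        exact Set.countable_range _
      · simp
    · rw [Cardinal.lift_le]
      have h1 : {o : G × (ℕ →₀ R) | ({o.1} : Set G) ⊆ T} = T ×ˢ Set.univ := by
        ext o
        simp
      rw [h1, Cardinal.mk_setProd]
      have h2 : #T ≤ c := le_trans (Cardinal.le_aleph0_iff_set_countable.2 hT.countable) hc
      have h3 : #(ℕ →₀ R) ≤ c := by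
        have h4 : #(List (ULift.{u} ℕ × R)) ≤ c := by
          refine (Cardinal.mk_list_le_max _).trans (max_le hc ?_)
          rw [Cardinal.mk_prod, Cardinal.lift_id, Cardinal.lift_id]
          refine (mul_le_mul' (b := c) (d := c) ?_ hR).trans (Cardinal.mul_eq_self hc).le
          simpa using hc
        refine le_trans (Cardinal.mk_le_of_surjective
          (f := fun l : List (ULift.{u} ℕ × R) =>
            (l.map (fun p => Finsupp.single p.1.down p.2)).sum) ?_) h4
        intro f
        refine ⟨(f.support.toList.map (fun n => (⟨n⟩, f n))), ?_⟩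
        simp only [List.map_map]
        have := Finset.sum_map_toList f.support (fun n => Finsupp.single n (f n))
        have h5 : ∑ n ∈ f.support, Finsupp.single n (f n) = f := Finsupp.sum_single f
        rw [h5] at this
        exact this
      rw [Cardinal.mk_univ]
      exact (mul_le_mul' h2 h3).trans (Cardinal.mul_eq_self hc).le
    · intro S hS h hh r hr
      have h1 := hS (h, r) (by simpa using hh)
      simp only [dif_pos hr] at h1
      exact ⟨hr.choose, fun n => h1 ⟨n, rfl⟩, hr.choose_spec⟩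
  have c3 : IsClub c (fun S : Set G => ∀ k : G →₀ R, (k.support : Set G) ⊆ S →
      pr R G k = 0 → ∃ T : (G →₀ R) →ₗ[R] (G →₀ R), (∀ l, pr R G (T l) = 0) ∧ T k = k ∧
        ∀ y ∈ k.support, ((T (Finsupp.single y 1)).support : Set G) ⊆ S) := by
    refine (IsClub.rule hc (O := G →₀ R) (fun k => (k.support : Set G))
      (fun k => k.support.finite_toSet)
      (fun k => if h : pr R G k = 0 then
        ⋃ y ∈ k.support, (((hG k h).choose (Finsupp.single y 1)).support : Set G) else ∅)
      (fun k => ?_) (fun T hT => ?_)).mono ?_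
    · split_ifs with h
      · refine le_trans ?_ hc
        rw [Cardinal.le_aleph0_iff_set_countable]
        exact Set.Countable.biUnion (k.support.countable_toSet)
          (fun y _ => Finset.countable_toSet _)
      · simp
    · rw [Cardinal.lift_le]
      exact mk_supp_le hc hR T hT
    · intro S hS k hk hpk
      have h1 := hS k hk
      simp only [dif_pos hpk] at h1
      have h2 := (hG k hpk).choose_spec
      refine ⟨(hG k hpk).choose, fun l => h2.1 l, h2.2, fun y hy => ?_⟩
      exact (Set.subset_biUnion_of_mem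
        (u := fun y => (((hG k hpk).choose (Finsupp.single y 1)).support : Set G)) hy).trans h1
  obtain ⟨F, hF, hFS⟩ := ((c0.and hc c1).and hc c2).and hc c3
  obtain ⟨⟨⟨h0, h1⟩, h2⟩, h3⟩ := hFS (clos F {x0}) (closed_clos F _)
  let H : Submodule R G :=
    { carrier := clos F {x0}
      add_mem' := fun {x y} hx hy => (h1 x hx y hy).1
      zero_mem' := h0
      smul_mem' := fun r x hx => (h1 x hx x hx).2 r }
  refine ⟨H, subset_clos F _ rfl, ?_, ?_, ?_⟩
  · refine mk_clos_le F hc hF ?_
    rw [Cardinal.mk_singleton]; exact one_le_aleph0.trans hc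
  · refine EqFlat.reflect (ψ := RingHom.id R) H.subtype Function.injective_id
      (Submodule.injective_subtype H) fun k hk => ?_
    have hdat : ((push (RingHom.id R) H.subtype k).support : Set G) ⊆ clos F {x0} := by
      intro y hy
      obtain ⟨y', _, rfl, _⟩ := push_data (Submodule.injective_subtype H) k y hy
      exact y'.2
    obtain ⟨T, hT, hTk, hTy⟩ := h3 _ hdat hk
    refine ⟨T, hT, hTk, fun y hy => ?_⟩
    have hy' : H.subtype y ∈ (push (RingHom.id R) H.subtype k).support := by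
      rw [Finsupp.mem_support_iff] at hy ⊢
      rw [push_apply, Finsupp.mapDomain_apply (Submodule.injective_subtype H), bc_apply]
      exact hy
    exact mem_range_push _ (fun z hz => ⟨⟨z, hTy _ hy' hz⟩, rfl⟩) (fun z _ => ⟨_, rfl⟩)
  · refine EqFlat.of_locSplit (H.mkQ.comp (pr R G))
      ((Submodule.mkQ_surjective H).comp (pr_surjective G)) ?_
    intro k hk
    have hk' : pr R G k ∈ H := by
      rw [LinearMap.mem_ker, LinearMap.comp_apply] at hk
      simpa using hk
    obtain ⟨f, hf⟩ := Set.countable_iff_exists_injOn.1 k.support.countable_toSet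
    have hsum : ∀ y : ℕ → G, Finsupp.linearCombination R y (Finsupp.mapDomain f k) =
        ∑ g ∈ k.support, k g • y (f g) := fun y => by
      rw [Finsupp.linearCombination_mapDomain, Finsupp.linearCombination_apply, Finsupp.sum]
      rfl
    obtain ⟨x, hxS, hx⟩ := h2 (pr R G k) hk' (Finsupp.mapDomain f k) (by
      refine ⟨fun n => if h : ∃ g ∈ k.support, f g = n then h.choose else 0, ?_⟩
      rw [hsum, Finsupp.linearCombination_apply, Finsupp.sum]
      refine Finset.sum_congr rfl fun g hg => ?_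
      have hex : ∃ g' ∈ k.support, f g' = f g := ⟨g, hg, rfl⟩
      rw [dif_pos hex]
      congr 1
      exact hf (Finset.mem_coe.2 hex.choose_spec.1) (Finset.mem_coe.2 hg) hex.choose_spec.2)
    rw [hsum] at hx
    let k2 : G →₀ R := ∑ g ∈ k.support, Finsupp.single (x (f g)) (k g)
    have hk2 : pr R G k2 = pr R G k := by
      rw [← hx]
      simp only [k2]
      rw [map_sum]
      refine Finset.sum_congr rfl fun g _ => ?_
      rw [pr_single]
    obtain ⟨T, hT, hTk⟩ := hG (k - k2) (by rw [LinearMap.mem_ker, map_sub, hk2, sub_self])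
    refine ⟨Finsupp.linearCombination R (fun g => if g ∈ k.support then
      T (Finsupp.single g 1) - T (Finsupp.single (x (f g)) 1) + Finsupp.single (x (f g)) 1
      else 0), fun l => ?_, ?_⟩
    · rw [Finsupp.linearCombination_apply, Finsupp.sum]
      refine Submodule.sum_mem _ fun g _ => Submodule.smul_mem _ _ ?_
      split_ifs with hg
      · rw [LinearMap.mem_ker, LinearMap.comp_apply, map_add, map_sub]
        have e1 : pr R G (T (Finsupp.single g 1)) = 0 := hT _
        have e2 : pr R G (T (Finsupp.single (x (f g)) 1)) = 0 := hT _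
        rw [e1, e2, pr_single]
        have e0 : x (f g) ∈ H := hxS (f g)
        simpa using e0
      · exact Submodule.zero_mem _
    · have e3 : Finsupp.linearCombination R (fun g => if g ∈ k.support then
          T (Finsupp.single g 1) - T (Finsupp.single (x (f g)) 1) + Finsupp.single (x (f g)) 1
          else 0) k = T k - T k2 + k2 := by
        have e4 : T k = ∑ g ∈ k.support, k g • T (Finsupp.single g 1) := by
          conv_lhs => rw [← Finsupp.sum_single k, Finsupp.sum, map_sum]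
          refine Finset.sum_congr rfl fun g _ => ?_
          rw [← map_smul, Finsupp.smul_single, smul_eq_mul, mul_one]
        have e5 : T k2 = ∑ g ∈ k.support, k g • T (Finsupp.single (x (f g)) 1) := by
          simp only [k2]
          rw [map_sum]
          refine Finset.sum_congr rfl fun g _ => ?_
          rw [← map_smul, Finsupp.smul_single, smul_eq_mul, mul_one]
        have e6 : k2 = ∑ g ∈ k.support, k g • Finsupp.single (x (f g)) (1 : R) := by
          simp only [k2]
          refine Finset.sum_congr rfl fun g _ => ?_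
          rw [Finsupp.smul_single, smul_eq_mul, mul_one]
        rw [e4, e5, Finsupp.linearCombination_apply, Finsupp.sum]
        conv_rhs => rw [e6]
        rw [← Finset.sum_sub_distrib, ← Finset.sum_add_distrib]
        refine Finset.sum_congr rfl fun g hg => ?_
        rw [if_pos hg, smul_add, smul_sub]
      rw [e3, ← map_sub, hTk]
      abel

theorem small_card (R : Type u) [Ring R] : ℵ₀ ≤ #(R × ℕ) ∧ #R ≤ #(R × ℕ) := by
  refine ⟨?_, Cardinal.mk_le_of_injective (f := fun r => (r, 0)) (fun a b h => congrArg Prod.fst h)⟩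
  rw [Cardinal.mk_prod]
  simp only [Cardinal.lift_uzero, Cardinal.mk_nat, Cardinal.lift_aleph0]
  have : (1 : Cardinal) ≤ #R := Cardinal.one_le_iff_ne_zero.2 (Cardinal.mk_ne_zero R)
  calc ℵ₀ = 1 * ℵ₀ := (one_mul _).symm
    _ ≤ #R * ℵ₀ := mul_le_mul_left this _

theorem small_e1 {R : Type u} [Ring R] {C : Type u} [AddCommGroup C] [Module R C]
    (hC : ∀ N : Submodule R (R × ℕ →₀ R), EqFlat R ((R × ℕ →₀ R) ⧸ N) → ∀ ρ : N →ₗ[R] C,
      ∃ g : (R × ℕ →₀ R) →ₗ[R] C, ∀ k : N, g k = ρ k)
    (H : Type u) [AddCommGroup H] [Module R H] (hH : #H ≤ #(R × ℕ)) (hflat : EqFlat R H) :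
    E1 (RingHom.id R) H C := by
  obtain ⟨j⟩ : Nonempty (H ↪ R × ℕ) := by rwa [← Cardinal.le_def]
  have hj : Function.Surjective (Function.invFun j) := Function.invFun_surjective j.injective
  let p : (R × ℕ →₀ R) →ₗ[R] H := Finsupp.linearCombination R (Function.invFun j)
  have hp : Function.Surjective p := fun h => by
    obtain ⟨t, rfl⟩ := hj h
    exact ⟨Finsupp.single t 1, by simp [p]⟩
  have hq : EqFlat R ((R × ℕ →₀ R) ⧸ LinearMap.ker p) :=
    hflat.of_equiv (p.quotKerEquivOfSurjective hp).symm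
  obtain ⟨l, hl⟩ := free_lift (pr R H) (pr_surjective H) p
  exact extend_transfer p hp (hC _ hq) (pr R H) l hl

theorem extend_sub {B A : Type*} [Ring B] [Ring A] {φ : B →+* A} {Q Y C : Type*}
    [AddCommGroup Q] [Module B Q] [AddCommGroup Y] [Module B Y]
    [AddCommGroup C] [Module A C] (h : E1 φ Y C) (D D' : Submodule B Q) (hle : D ≤ D')
    (p : D' →ₗ[B] Y) (hp : Function.Surjective p) (hpk : ∀ y : D', p y = 0 → (y : Q) ∈ D)
    (hpk' : ∀ y (hy : y ∈ D), p ⟨y, hle hy⟩ = 0) (f : D →ₛₗ[φ] C) :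
    ∃ g : D' →ₛₗ[φ] C, ∀ y (hy : y ∈ D), g ⟨y, hle hy⟩ = f ⟨y, hy⟩ := by
  let j : LinearMap.ker p →ₗ[B] D :=
    { toFun := fun y => ⟨y.1.1, hpk y.1 y.2⟩
      map_add' := fun _ _ => rfl
      map_smul' := fun _ _ => rfl }
  obtain ⟨g, hg⟩ := h.extend p hp (f.comp j)
  exact ⟨g, fun y hy => hg ⟨⟨y, hle hy⟩, hpk' y hy⟩⟩

theorem small_step0 {R : Type u} [Ring R] {G : Type u} (D : Submodule R (G →₀ R))
    (hD : LocSplit D) (x : G →₀ R) :
    ∃ (D' : Submodule R (G →₀ R)) (hle : D ≤ D') (H : Submodule R ((G →₀ R) ⧸ D))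
      (p : D' →ₗ[R] H), x ∈ D' ∧ EqFlat R H ∧ #H ≤ #(R × ℕ) ∧ LocSplit D' ∧
      Function.Surjective p ∧ (∀ y : D', p y = 0 → (y : G →₀ R) ∈ D) ∧
      (∀ y (hy : y ∈ D), p ⟨y, hle hy⟩ = 0) := by
  have hflat : EqFlat R ((G →₀ R) ⧸ D) := EqFlat.of_locSplit D.mkQ
    (Submodule.mkQ_surjective D) (by rw [Submodule.ker_mkQ]; exact hD)
  obtain ⟨H, hxH, hHc, hHf, hHq⟩ := pureHull (small_card R).1 (small_card R).2 hflat (D.mkQ x)
  have hle : D ≤ H.comap D.mkQ := fun y hy => by
    rw [Submodule.mem_comap]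
    have : D.mkQ y = 0 := by simpa using hy
    rw [this]
    exact H.zero_mem
  refine ⟨H.comap D.mkQ, hle, H, (D.mkQ).restrict (fun y hy => hy), hxH, hHf, hHc, ?_, ?_, ?_,
    ?_⟩
  · have := hHq.locSplit (H.mkQ.comp D.mkQ)
      ((Submodule.mkQ_surjective H).comp (Submodule.mkQ_surjective D))
    rwa [LinearMap.ker_comp, Submodule.ker_mkQ] at this
  · rintro ⟨y, hy⟩
    obtain ⟨z, rfl⟩ := Submodule.mkQ_surjective D y
    exact ⟨⟨z, hy⟩, rfl⟩
  · rintro ⟨y, hy⟩ hy'
    have h1 : D.mkQ y = 0 := congrArg Subtype.val hy'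
    rwa [Submodule.mkQ_apply, Submodule.Quotient.mk_eq_zero] at h1
  · intro y hy
    apply Subtype.ext
    change D.mkQ y = 0
    rwa [Submodule.mkQ_apply, Submodule.Quotient.mk_eq_zero]

/-- One extension step. -/
theorem small_step {R : Type u} [Ring R] {C : Type u} [AddCommGroup C] [Module R C]
    (hC : ∀ N : Submodule R (R × ℕ →₀ R), EqFlat R ((R × ℕ →₀ R) ⧸ N) → ∀ ρ : N →ₗ[R] C,
      ∃ g : (R × ℕ →₀ R) →ₗ[R] C, ∀ k : N, g k = ρ k)
    {G : Type u} (D : Submodule R (G →₀ R)) (hD : LocSplit D) (x : G →₀ R)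
    (f : D →ₗ[R] C) : ∃ (D' : Submodule R (G →₀ R)) (hle : D ≤ D') (g : D' →ₗ[R] C),
      x ∈ D' ∧ LocSplit D' ∧ ∀ y (hy : y ∈ D), g ⟨y, hle hy⟩ = f ⟨y, hy⟩ := by
  obtain ⟨D', hle, H, p, hx, hH, hHc, hD', hp, hpk, hpk'⟩ := small_step0 D hD x
  obtain ⟨g, hg⟩ := extend_sub (small_e1 hC H hHc hH) D D' hle p hp hpk hpk' f
  exact ⟨D', hle, g, hx, hD', hg⟩

/-- Cotorsion can be tested on the flat quotients of one free module. -/
theorem cot_of_small {R : Type u} [Ring R] {C : Type u} [AddCommGroup C] [Module R C]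
    (hC : ∀ N : Submodule R (R × ℕ →₀ R), EqFlat R ((R × ℕ →₀ R) ⧸ N) → ∀ ρ : N →ₗ[R] C,
      ∃ g : (R × ℕ →₀ R) →ₗ[R] C, ∀ k : N, g k = ρ k) : RCot (RingHom.id R) C := by
  intro G _ _ hG ρ
  obtain ⟨g, hg0, hgT, -⟩ := zornExt (fun _ _ => True) {D : Submodule R (G →₀ R) | LocSplit D}
    ⊤ (by
      intro c hc hne hchain x hx
      obtain ⟨D, hD, hxD⟩ := (Submodule.mem_sSup_of_directed hne hchain.directedOn).1 hx
      obtain ⟨T, hT, hTx⟩ := hc hD x hxD
      exact ⟨T, fun l => le_sSup hD (hT l), hTx⟩) ⟨LinearMap.ker (pr R G), ρ⟩ hG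
      (fun _ => trivial) (by
      rintro ⟨D, f⟩ hf hD - hne
      change LocSplit D at hD
      change D ≠ ⊤ at hne
      obtain ⟨x, -, hx⟩ := SetLike.exists_of_lt (lt_top_iff_ne_top.2 hne)
      obtain ⟨D', hle, g, hxD', hD', hg⟩ := small_step hC D hD x f
      refine ⟨⟨D', g⟩, ?_, hD', fun _ => trivial⟩
      refine lt_of_le_of_ne ⟨hle, ?_⟩ ?_
      · rintro ⟨y, hy⟩ ⟨z, hz⟩ hyz
        change y = z at hyz
        subst hyz
        exact (hg y hy).symm
      · intro heq
        have := congrArg LinearPMap.domain heq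
        change D = D' at this
        apply hx
        rw [this]
        exact hxD')
  obtain ⟨D, g⟩ := g
  change D = _ at hgT
  subst hgT
  refine ⟨g.comp (LinearMap.codRestrict ⊤ LinearMap.id (fun _ => trivial)), fun k => ?_⟩
  exact (hg0.2 (x := k) (y := ⟨k, trivial⟩) rfl).symm

end Pool.Agent.Lib.MP_342ba6_al
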