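import Pool.Agent.Lib.MP_342ba6_al.IndMod
import Pool.Agent.Lib.MP_342ba6_al.Small
import Pool.Agent.Lib.MP_342ba6_al.Filt

/-!
The small object argument for the generating steps.
-/

namespace Pool.Agent.Lib.MP_342ba6_al

universe u

open CategoryTheory Limits MorphismProperty

variable {R A : Type u} [Ring R] [Ring A] (φ : R →+* A)

/-- The steps as a class of morphisms. -/
def stepProp : MorphismProperty (ModuleCat.{u} A) := fun _ _ f => IsStep φ f.hom

instance : (stepProp φ).RespectsIso := by
  apply MorphismProperty.RespectsIso.of_respects_arrow_iso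
  intro f g e hf
  refine IsStep.of_equiv f.hom.hom g.hom.hom (Arrow.leftFunc.mapIso e).toLinearEquiv
    (Arrow.rightFunc.mapIso e).toLinearEquiv (fun x => ?_) hf
  have h1 : f.hom ≫ e.hom.right = e.hom.left ≫ g.hom := e.hom.w.symm
  have h2 := congrArg (fun h => h.hom x) h1
  exact h2

instance (J : Type u) : (stepProp φ).IsStableUnderCoproductsOfShape J := by
  classical
  apply MorphismProperty.IsStableUnderCoproductsOfShape.mk
  intro X₁ X₂ _ _ f hf
  refine (MorphismProperty.arrow_mk_iso_iff (stepProp φ) (Arrow.isoMk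
    (ModuleCat.coprodIsoDirectSum X₁) (ModuleCat.coprodIsoDirectSum X₂) (f := Arrow.mk _)
    (g := Arrow.mk (ModuleCat.ofHom (DirectSum.lmap (fun j => (f j).hom)))) ?_)).2
    (IsStep.directSum (fun j => (f j).hom) hf)
  apply colimit.hom_ext
  rintro ⟨j⟩
  change Sigma.ι X₁ j ≫ _ ≫ _ = Sigma.ι X₁ j ≫ Limits.Sigma.map f ≫ _
  rw [Sigma.ι_map_assoc, ModuleCat.ι_coprodIsoDirectSum_hom, ← Category.assoc,
    ModuleCat.ι_coprodIsoDirectSum_hom]
  ext x
  exact DirectSum.lmap_lof (fun j => (f j).hom) j x

instance : MorphismProperty.IsStableUnderCoproducts.{u} (stepProp φ) where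
  isStableUnderCoproductsOfShape _ := inferInstance

instance : (stepProp φ).IsStableUnderCobaseChange where
  of_isPushout := by
    intro X X' Y Y' f g f' g' sq hf
    obtain ⟨hinj, G, i1, i2, m, hG, hm, hk⟩ := hf
    have hmono : Mono f := (ModuleCat.mono_iff_injective f).2 hinj
    have hmono' : Mono f' := MorphismProperty.IsStableUnderCobaseChange.of_isPushout
      (P := monomorphisms _) sq hmono
    have hfm : f ≫ ModuleCat.ofHom m = 0 := by
      ext x
      change m (f.hom x) = 0
      have : f.hom x ∈ LinearMap.ker m := by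
        rw [hk]
        exact ⟨x, rfl⟩
      exact this
    let m' : Y' ⟶ ModuleCat.of A (Ind φ G) := sq.desc 0 (ModuleCat.ofHom m) (by
      rw [hfm, comp_zero])
    have hm1 : f' ≫ m' = 0 := sq.inl_desc _ _ _
    have hm2 : g' ≫ m' = ModuleCat.ofHom m := sq.inr_desc _ _ _
    refine ⟨(ModuleCat.mono_iff_injective f').1 hmono', G, i1, i2, m'.hom, hG, ?_, ?_⟩
    · intro y
      obtain ⟨z, rfl⟩ := hm y
      exact ⟨g'.hom z, congrArg (fun h => h.hom z) hm2⟩
    · apply le_antisymm
      · intro y hy
        -- joint surjectivity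
        have hjoint : ∀ y : Y', y ∈ LinearMap.range f'.hom ⊔ LinearMap.range g'.hom := by
          intro y
          let q := ModuleCat.ofHom (LinearMap.range f'.hom ⊔ LinearMap.range g'.hom).mkQ
          have hq : q = 0 := by
            apply sq.hom_ext
            · ext x
              change (LinearMap.range f'.hom ⊔ LinearMap.range g'.hom).mkQ (f'.hom x) = 0
              rw [Submodule.mkQ_apply, Submodule.Quotient.mk_eq_zero]
              exact Submodule.mem_sup_left ⟨x, rfl⟩
            · ext x
              change (LinearMap.range f'.hom ⊔ LinearMap.range g'.hom).mkQ (g'.hom x) = 0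
              rw [Submodule.mkQ_apply, Submodule.Quotient.mk_eq_zero]
              exact Submodule.mem_sup_right ⟨x, rfl⟩
          have h1 : (LinearMap.range f'.hom ⊔ LinearMap.range g'.hom).mkQ y = 0 :=
            congrArg (fun h => h.hom y) hq
          rwa [Submodule.mkQ_apply, Submodule.Quotient.mk_eq_zero] at h1
        obtain ⟨_, ⟨x, rfl⟩, _, ⟨z, rfl⟩, rfl⟩ := Submodule.mem_sup.1 (hjoint y)
        rw [LinearMap.mem_ker, map_add] at hy
        have e1 : m'.hom (f'.hom x) = 0 := congrArg (fun h => h.hom x) hm1
        have e2 : m'.hom (g'.hom z) = m z := congrArg (fun h => h.hom z) hm2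
        rw [e1, e2, zero_add] at hy
        have hz : z ∈ LinearMap.range f.hom := by
          rw [← hk]
          exact hy
        obtain ⟨w, rfl⟩ := hz
        refine ⟨x + g.hom w, ?_⟩
        rw [map_add]
        congr 1
        exact congrArg (fun h => h.hom w) sq.w
      · rintro _ ⟨x, rfl⟩
        exact congrArg (fun h => h.hom x) hm1

theorem stepProp_le_mono : stepProp φ ≤ monomorphisms (ModuleCat.{u} A) := by
  intro X Y f hf
  exact (ModuleCat.mono_iff_injective f).2 hf.1

/-- The generating steps. -/
noncomputable def gens : MorphismProperty (ModuleCat.{u} A) :=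
  MorphismProperty.ofHoms (fun N : {N : Submodule R (R × ℕ →₀ R) //
    EqFlat R ((R × ℕ →₀ R) ⧸ N)} => ModuleCat.ofHom (X := indSub φ N.1) (Y := (R × ℕ →₀ A))
      (indSub φ N.1).subtype)

theorem gens_le : gens φ ≤ stepProp φ := by
  rintro _ _ _ ⟨N⟩
  exact isStep_indSub φ N.1 N.2

theorem coproducts_pushouts_gens_le : (coproducts.{u} (gens φ)).pushouts ≤ stepProp φ := by
  rw [MorphismProperty.pushouts_le_iff, MorphismProperty.coproducts_le_iff]
  exact gens_le φ

theorem exists_card : ∃ (κ : Cardinal.{u}) (_ : Fact κ.IsRegular) (_ : OrderBot κ.ord.ToType),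
    (gens φ).IsCardinalForSmallObjectArgument κ := by
  obtain ⟨κ, hκ', hκ⟩ := HasCardinalLT.exists_regular_cardinal.{u}
    (Subobject (ModuleCat.of A (R × ℕ →₀ A)))
  have : Fact κ.IsRegular := ⟨hκ'⟩
  have : Nonempty κ.ord.ToType := by simpa using hκ'.ne_zero
  have := WellFoundedLT.toOrderBot κ.ord.ToType
  exact ⟨κ, inferInstance, inferInstance,
    { isSmall := by dsimp [gens]; infer_instance
      preservesColimit {A' B X Y} i hi f hf := by
        let hf' : (monomorphisms (ModuleCat.{u} A)).TransfiniteCompositionOfShape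
            κ.ord.ToType f :=
          { toTransfiniteCompositionOfShape := hf.toTransfiniteCompositionOfShape
            map_mem j hj := by
              have := (hf.attachCells j hj).pushouts_coproducts
              simp only [ofHoms_homFamily] at this
              exact stepProp_le_mono φ _ (coproducts_pushouts_gens_le φ _ this) }
        have (j j' : κ.ord.ToType) (φ : j ⟶ j') : Mono (hf'.F.map φ) := hf'.mem_map φ
        apply IsGrothendieckAbelian.preservesColimit_coyoneda_obj_of_mono (Y := hf'.F) (κ := κ)
        have hm : Mono i := stepProp_le_mono φ _ (gens_le φ _ hi)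
        obtain ⟨S⟩ := hi
        exact Subobject.hasCardinalLT_of_mono hκ 
          (ModuleCat.ofHom (X := indSub φ S.1) (Y := (R × ℕ →₀ A)) (indSub φ S.1).subtype) }⟩

end Pool.Agent.Lib.MP_342ba6_al
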