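import Pool.Agent.Lib.MP_342ba6_al.FiltCat

/-!
The structure theorem.
-/

namespace Pool.Agent.Lib.MP_342ba6_al

universe u

open CategoryTheory Limits MorphismProperty

theorem spanExt' {R A : Type u} [Ring R] [Ring A] {φ : R →+* A} {ι : Type u}
    (N : Submodule R (ι →₀ R)) (hN : LocSplit N) {C : Type*}
    [AddCommGroup C] [Module A C] (ρ : N →ₛₗ[φ] C) :
    ∃ r : indSub φ N →ₗ[A] C, ∀ (k : N)
      (hk : bc φ ι k ∈ indSub φ N), r ⟨bc φ ι k, hk⟩ = ρ k := by
  classical
  have hmem : ∀ k : N, bc φ ι k ∈ indSub φ N := fun k =>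
    Submodule.subset_span ⟨k, k.2, rfl⟩
  let f : (N →₀ A) →ₗ[A] indSub φ N :=
    Finsupp.linearCombination A (fun k => ⟨bc φ ι k, hmem k⟩)
  have hf : Function.Surjective f := by
    rintro ⟨x, hx⟩
    induction hx using Submodule.span_induction with
    | mem x hx =>
      obtain ⟨k, hk, rfl⟩ := hx
      refine ⟨Finsupp.single ⟨k, hk⟩ 1, Subtype.ext ?_⟩
      simp [f]
    | zero => exact ⟨0, by rw [map_zero]; rfl⟩
    | add x y hx hy ihx ihy =>
      obtain ⟨a, ha⟩ := ihx
      obtain ⟨b, hb⟩ := ihy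
      exact ⟨a + b, by rw [map_add, ha, hb]; rfl⟩
    | smul r x hx ihx =>
      obtain ⟨a, ha⟩ := ihx
      exact ⟨r • a, by rw [map_smul, ha]; rfl⟩
  obtain ⟨r, hr⟩ := factor (φ := RingHom.id A) (M := N →₀ A)
      (N := indSub φ N) f hf (Finsupp.linearCombination A (fun k => ρ k)) (fun x hx => by
    obtain ⟨T, hT, hTx⟩ := hN.finset (Finset.image Subtype.val x.support : Finset (ι →₀ R))
      (by
        intro y hy
        obtain ⟨z, _, rfl⟩ := Finset.mem_image.1 hy
        exact z.2)
    let Th : (ι →₀ A) →ₗ[A] C :=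
      Finsupp.linearCombination A (fun g => ρ ⟨T (Finsupp.single g 1), hT _⟩)
    have hTh : ∀ y : ι →₀ R, Th (bc φ ι y) = ρ ⟨T y, hT y⟩ := fun y => by
      have : Th.comp (bc φ ι) = ρ.comp (LinearMap.codRestrict _ T hT) := by
        apply semi_ext
        intro g
        simp [Th]
        rfl
      exact congrArg (fun h => h y) this
    have hTh2 : (Th.comp (Submodule.subtype _)).comp f x =
        Finsupp.linearCombination A (fun k => ρ k) x := by
      rw [Finsupp.linearCombination_apply]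
      conv_lhs => rw [← Finsupp.sum_single x, Finsupp.sum, map_sum]
      rw [Finsupp.sum]
      refine Finset.sum_congr rfl fun k hk => ?_
      have h1 : (Finsupp.single k (x k) : N →₀ A) =
        x k • Finsupp.single k 1 := by simp
      rw [h1, map_smul]
      congr 1
      have h2 : f (Finsupp.single k 1) = ⟨bc φ ι k, hmem k⟩ := by
        simp [f]
      simp only [LinearMap.comp_apply, h2, Submodule.subtype_apply]
      rw [hTh]
      congr 1
      apply Subtype.ext
      exact hTx _ (Finset.mem_image_of_mem _ hk)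
    rw [← hTh2, LinearMap.comp_apply, hx, map_zero])
  refine ⟨r, fun k hk => ?_⟩
  have := hr (Finsupp.single k 1)
  have h2 : f (Finsupp.single k 1) = ⟨bc φ ι k, hk⟩ := by
    simp [f]
  rw [h2, Finsupp.linearCombination_single, one_smul] at this
  exact this

/-- Comparison of the two ways of viewing an `A`-module as an `R`-module. -/
theorem rcot_iff_compHom {R A : Type u} [Ring R] [Ring A] (φ : R →+* A) (C : Type u)
    [AddCommGroup C] [Module A C] :
    RCot φ C ↔ @RCot R R _ _ (RingHom.id R) C _ (Module.compHom C φ) := by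
  let _ : Module R C := Module.compHom C φ
  constructor
  · intro h G _ _ hG ρ
    obtain ⟨g, hg⟩ := h G hG
      { toFun := ρ, map_add' := fun x y => map_add ρ x y,
        map_smul' := fun r x => LinearMap.map_smulₛₗ ρ r x }
    exact ⟨{ toFun := g, map_add' := fun x y => map_add g x y,
             map_smul' := fun r x => LinearMap.map_smulₛₗ g r x }, hg⟩
  · intro h G _ _ hG ρ
    obtain ⟨g, hg⟩ := h G hG
      { toFun := ρ, map_add' := fun x y => map_add ρ x y,
        map_smul' := fun r x => LinearMap.map_smulₛₗ ρ r x }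
    exact ⟨{ toFun := g, map_add' := fun x y => map_add g x y,
             map_smul' := fun r x => LinearMap.map_smulₛₗ g r x }, hg⟩

variable {R A : Type u} [Ring R] [Ring A] {φ : R →+* A}

theorem rlp_surjective {E Y : ModuleCat.{u} A} (p : E ⟶ Y) (hp : (gens φ).rlp p) :
    Function.Surjective p.hom := by
  intro y
  have hbot : EqFlat R ((R × ℕ →₀ R) ⧸ (⊥ : Submodule R (R × ℕ →₀ R))) := by
    refine EqFlat.of_locSplit (Submodule.mkQ ⊥) (Submodule.mkQ_surjective _) ?_
    rw [Submodule.ker_mkQ]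
    intro x hx
    exact ⟨0, fun l => by simp, by
      rw [(Submodule.mem_bot R).1 hx]; simp⟩
  have h1 := hp _ (MorphismProperty.ofHoms.mk
    (f := fun N : {N : Submodule R (R × ℕ →₀ R) // EqFlat R ((R × ℕ →₀ R) ⧸ N)} =>
      ModuleCat.ofHom (X := indSub φ N.1) (Y := (R × ℕ →₀ A)) (indSub φ N.1).subtype)
    ⟨⊥, hbot⟩)
  have hz : ∀ x : indSub φ (⊥ : Submodule R (R × ℕ →₀ R)), x = 0 := by
    rintro ⟨x, hx⟩
    apply Subtype.ext
    have : indSub φ (⊥ : Submodule R (R × ℕ →₀ R)) = ⊥ := by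
      unfold indSub
      rw [Submodule.span_eq_bot]
      rintro _ ⟨z, hz, rfl⟩
      have : z = 0 := hz
      rw [this, map_zero]
    rw [this] at hx
    exact (Submodule.mem_bot A).1 hx
  have sq : CommSq (ModuleCat.ofHom (0 : indSub φ (⊥ : Submodule R (R × ℕ →₀ R)) →ₗ[A] E))
      (ModuleCat.ofHom (X := indSub φ (⊥ : Submodule R (R × ℕ →₀ R))) (Y := (R × ℕ →₀ A))
        (indSub φ (⊥ : Submodule R (R × ℕ →₀ R))).subtype) p
      (ModuleCat.ofHom (Finsupp.linearCombination A (fun _ => y))) := ⟨by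
    ext x
    rw [hz x]
    simp⟩
  have h2 := (h1.sq_hasLift sq).exists_lift.some
  refine ⟨h2.l.hom (Finsupp.single (0, 0) 1), ?_⟩
  have h3 := congrArg (fun h => h.hom (Finsupp.single ((0 : R), 0) (1 : A))) h2.fac_right
  refine Eq.trans h3 ?_
  change Finsupp.linearCombination A (fun _ => y) (Finsupp.single ((0 : R), 0) (1 : A)) = y
  simp

theorem rlp_cot {E Y : ModuleCat.{u} A} (p : E ⟶ Y) (hp : (gens φ).rlp p) :
    RCot φ (LinearMap.ker p.hom) := by
  rw [rcot_iff_compHom]
  let _ : Module R (LinearMap.ker p.hom) := Module.compHom _ φ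
  apply cot_of_small
  intro N hN ρ
  have h1 := hp _ (MorphismProperty.ofHoms.mk
    (f := fun N : {N : Submodule R (R × ℕ →₀ R) // EqFlat R ((R × ℕ →₀ R) ⧸ N)} =>
      ModuleCat.ofHom (X := indSub φ N.1) (Y := (R × ℕ →₀ A)) (indSub φ N.1).subtype)
    ⟨N, hN⟩)
  have hNs : LocSplit N := by
    have := hN.locSplit N.mkQ (Submodule.mkQ_surjective N)
    rwa [Submodule.ker_mkQ] at this
  let ρ' : N →ₛₗ[φ] LinearMap.ker p.hom :=
    { toFun := ρ, map_add' := fun x y => map_add ρ x y,
      map_smul' := fun r x => LinearMap.map_smulₛₗ ρ r x }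
  obtain ⟨r, hr⟩ := spanExt' N hNs ρ'
  have sq : CommSq (ModuleCat.ofHom ((LinearMap.ker p.hom).subtype.comp r))
      (ModuleCat.ofHom (X := indSub φ N) (Y := (R × ℕ →₀ A)) (indSub φ N).subtype) p
      (ModuleCat.ofHom (0 : (R × ℕ →₀ A) →ₗ[A] Y)) := ⟨by
    ext x
    exact (r x).2⟩
  have h2 := (h1.sq_hasLift sq).exists_lift.some
  have h3 : ∀ x, p.hom (h2.l.hom x) = 0 := fun x => congrArg (fun h => h.hom x) h2.fac_right
  have h4 : ∀ x : indSub φ N, h2.l.hom (x : R × ℕ →₀ A) = r x := fun x =>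
    congrArg (fun h => h.hom x) h2.fac_left
  refine ⟨{ toFun := fun x => ⟨h2.l.hom (bc φ _ x), h3 _⟩
            map_add' := fun x y => Subtype.ext (by
              change h2.l.hom (bc φ _ (x + y)) = h2.l.hom (bc φ _ x) + h2.l.hom (bc φ _ y)
              rw [map_add, map_add])
            map_smul' := fun a x => Subtype.ext (by
              change h2.l.hom (bc φ _ (a • x)) = φ a • h2.l.hom (bc φ _ x)
              rw [LinearMap.map_smulₛₗ, map_smul]) }, fun k => Subtype.ext ?_⟩
  have hmem : bc φ _ k ∈ indSub φ N := Submodule.subset_span ⟨k, k.2, rfl⟩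
  change h2.l.hom (bc φ _ k) = ρ k
  rw [h4 ⟨_, hmem⟩, hr k hmem]
  rfl

/-- The structure theorem: relatively flaprojective modules are retracts of filtered ones. -/
theorem structure_thm (φ : R →+* A) (F : Type u) [AddCommGroup F] [Module A F]
    (hF : ∀ (C : Type u) [AddCommGroup C] [Module A C], RCot φ C → E1 (RingHom.id A) F C) :
    ∃ (J : Type u) (_ : LinearOrder J) (_ : WellFoundedLT J) (X : Type u)
      (_ : AddCommGroup X) (_ : Module A X) (fil : J → Submodule A X) (G : J → Type u)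
      (_ : ∀ i, AddCommGroup (G i)) (_ : ∀ i, Module R (G i)) (s : ∀ i, G i → X),
      Filt φ fil G s ∧ ∃ (i : F →ₗ[A] X) (r : X →ₗ[A] F), ∀ x, r (i x) = x := by
  obtain ⟨κ, hκ, hbot, hcard⟩ := exists_card φ
  let f : ModuleCat.of A PUnit.{u + 1} ⟶ ModuleCat.of A F := 0
  have hp := SmallObject.rlp_πObj (gens φ) κ f
  have hsurj := rlp_surjective _ hp
  have hcot := rlp_cot _ hp
  obtain ⟨ht⟩ := SmallObject.transfiniteCompositionsOfShape_ιObj (gens φ) κ f
  have hZ : IsZero (ModuleCat.of A PUnit.{u + 1}) := ModuleCat.isZero_of_subsingleton _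
  have : NoMaxOrder κ.ord.ToType := Cardinal.noMaxOrder hκ.out.aleph0_le
  obtain ⟨fil, G, i1, i2, s, hfilt⟩ :=
    filt_of_transfinite hZ (ht.ofLE (coproducts_pushouts_gens_le φ))
  let E : ModuleCat.{u} A := SmallObject.obj (gens φ) κ f
  refine ⟨κ.ord.ToType, inferInstance, inferInstance, E,
    inferInstance, inferInstance, fil, G, i1, i2, s, hfilt, ?_⟩
  obtain ⟨g, hg⟩ := (hF _ hcot).lift (LinearMap.ker (SmallObject.πObj (gens φ) κ f).hom).subtype
    (Submodule.injective_subtype _) (SmallObject.πObj (gens φ) κ f).hom hsurj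
    (fun c => c.2) (fun e he => ⟨⟨e, he⟩, rfl⟩) (LinearMap.id : F →ₗ[A] F)
  exact ⟨g, (SmallObject.πObj (gens φ) κ f).hom, hg⟩

end Pool.Agent.Lib.MP_342ba6_al
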