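import Pool.Agent.Lib.MP_342ba6_al.Good

/-!
The substructure carried by a good subset.
-/

namespace Pool.Agent.Lib.MP_342ba6_al

universe u

open Cardinal

section

variable {R A X I : Type u} [Ring R] [Ring A] [AddCommGroup X] [Module A X]
    [LinearOrder I] {G : I → Type u}
    [∀ i, AddCommGroup (G i)] [∀ i, Module R (G i)]
    {φ : R →+* A} {fil : I → Submodule A X} {s : ∀ i, G i → X} {e d : X →ₗ[A] X}
    {S : Set (Srt R A X I G)}

def subR (hS : Good φ fil s e d S) : Subring R where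
  carrier := {r | Srt.r r ∈ S}
  mul_mem' hx hy := hS.rmul _ _ hx hy
  one_mem' := hS.r1
  add_mem' hx hy := hS.radd _ _ hx hy
  zero_mem' := hS.r0
  neg_mem' hx := hS.rneg _ hx

def subA (hS : Good φ fil s e d S) : Subring A where
  carrier := {r | Srt.a r ∈ S}
  mul_mem' hx hy := hS.amul _ _ hx hy
  one_mem' := hS.a1
  add_mem' hx hy := hS.aadd _ _ hx hy
  zero_mem' := hS.a0
  neg_mem' hx := hS.aneg _ hx

def subX (hS : Good φ fil s e d S) : Submodule (subA hS) X where
  carrier := {x | Srt.x x ∈ S}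
  add_mem' hx hy := hS.xadd _ _ hx hy
  zero_mem' := hS.x0
  smul_mem' a _ hx := hS.xsmul a _ a.2 hx

abbrev subI (S : Set (Srt R A X I G)) : Type u := {i : I // Srt.i i ∈ S}

def subG (hS : Good φ fil s e d S) (i : subI S) : Submodule (subR hS) (G i.1) where
  carrier := {x | Srt.g i.1 x ∈ S}
  add_mem' hx hy := hS.gadd _ _ _ hx hy
  zero_mem' := hS.g0 _ i.2
  smul_mem' a _ hx := hS.gsmul a _ _ a.2 hx

def subφ (hS : Good φ fil s e d S) : subR hS →+* subA hS :=
  (φ.comp (subR hS).subtype).codRestrict (subA hS) (fun r => hS.rphi _ r.2)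

def sube (hS : Good φ fil s e d S) : subX hS →ₗ[subA hS] subX hS where
  toFun x := ⟨e x, hS.xe _ x.2⟩
  map_add' _ _ := Subtype.ext (map_add e _ _)
  map_smul' a x := Subtype.ext (map_smul e (a : A) (x : X))

def subd (hS : Good φ fil s e d S) : subX hS →ₗ[subA hS] subX hS where
  toFun x := ⟨d x, hS.xd _ x.2⟩
  map_add' _ _ := Subtype.ext (map_add d _ _)
  map_smul' a x := Subtype.ext (map_smul d (a : A) (x : X))

def subfil (hS : Good φ fil s e d S) (i : subI S) : Submodule (subA hS) (subX hS) where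
  carrier := {x | (x : X) ∈ fil i.1}
  add_mem' hx hy := (fil i.1).add_mem hx hy
  zero_mem' := (fil i.1).zero_mem
  smul_mem' a _ hx := (fil i.1).smul_mem (a : A) hx

def subs (hS : Good φ fil s e d S) (i : subI S) (x : subG hS i) : subX hS :=
  ⟨s i.1 x, hS.gs _ _ x.2⟩

/-- The inclusions. -/
def incX (hS : Good φ fil s e d S) : subX hS →ₛₗ[(subA hS).subtype] X where
  toFun x := x
  map_add' _ _ := rfl
  map_smul' _ _ := rfl

def incG (hS : Good φ fil s e d S) (i : subI S) : subG hS i →ₛₗ[(subR hS).subtype] G i.1 where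
  toFun x := x
  map_add' _ _ := rfl
  map_smul' _ _ := rfl

def incZ (hS : Good φ fil s e d S) :
    LinearMap.range (subd hS) →ₛₗ[(subA hS).subtype] LinearMap.range d where
  toFun x := ⟨x.1.1, by
    obtain ⟨_, y, rfl⟩ := x
    exact ⟨y, rfl⟩⟩
  map_add' _ _ := rfl
  map_smul' _ _ := rfl

theorem incG_inj (hS : Good φ fil s e d S) (i : subI S) : Function.Injective (incG hS i) :=
  Subtype.val_injective

theorem incZ_inj (hS : Good φ fil s e d S) : Function.Injective (incZ hS) := by
  intro x y h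
  exact Subtype.ext (Subtype.ext (congrArg (fun z : LinearMap.range d => (z : X)) h))

theorem pushG_exists (hS : Good φ fil s e d S) (i : subI S) {B : Type u} [Ring B]
    (B' : Subring B) (c : B → Srt R A X I G) (hB : ∀ b, c b ∈ S → b ∈ B')
    (l : G i.1 →₀ B) (hl : dat (Srt.g i.1) c l ⊆ S) :
    ∃ k, push B'.subtype (incG hS i) k = l := by
  apply mem_range_push
  · intro y hy
    exact ⟨⟨y, hl (Or.inl ⟨y, hy, rfl⟩)⟩, rfl⟩
  · intro y hy
    exact ⟨⟨l y, hB _ (hl (Or.inr ⟨y, hy, rfl⟩))⟩, rfl⟩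

theorem pushG_dat (hS : Good φ fil s e d S) (i : subI S) {B : Type u} [Ring B]
    (B' : Subring B) (c : B → Srt R A X I G) (hB : ∀ b ∈ B', c b ∈ S)
    (k : subG hS i →₀ B') : dat (Srt.g i.1) c (push B'.subtype (incG hS i) k) ⊆ S := by
  rintro _ (⟨y, hy, rfl⟩ | ⟨y, hy, rfl⟩)
  · obtain ⟨y', _, rfl, _⟩ := push_data (incG_inj hS i) k y hy
    exact y'.2
  · obtain ⟨y', _, rfl, h⟩ := push_data (incG_inj hS i) k y hy
    simp only [h]
    exact hB _ (k y').2

theorem pushZ_exists (hS : Good φ fil s e d S) (hed : ∀ x, e (d x) = d x)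
    (hdd : ∀ x, d (d x) = 0) (l : LinearMap.range d →₀ A)
    (hl : dat (fun z : LinearMap.range d => Srt.x (z : X)) Srt.a l ⊆ S) :
    ∃ k, push (subA hS).subtype (incZ hS) k = l := by
  apply mem_range_push
  · rintro ⟨y, x, rfl⟩ hy
    have hy' : Srt.x (d x) ∈ S := hl (Or.inl ⟨_, hy, rfl⟩)
    obtain ⟨z, hz, hzd⟩ := hS.xpre _ hy' (hed x) (hdd x)
    refine ⟨⟨⟨d x, hy'⟩, ⟨z, hz⟩, Subtype.ext hzd⟩, rfl⟩
  · intro y hy
    exact ⟨⟨l y, hl (Or.inr ⟨y, hy, rfl⟩)⟩, rfl⟩

theorem pushZ_dat (hS : Good φ fil s e d S) (k : LinearMap.range (subd hS) →₀ subA hS) :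
    dat (fun z : LinearMap.range d => Srt.x (z : X)) Srt.a
      (push (subA hS).subtype (incZ hS) k) ⊆ S := by
  rintro _ (⟨y, hy, rfl⟩ | ⟨y, hy, rfl⟩)
  · obtain ⟨y', _, rfl, _⟩ := push_data (incZ_inj hS) k y hy
    exact y'.1.2
  · obtain ⟨y', _, rfl, h⟩ := push_data (incZ_inj hS) k y hy
    simp only [h]
    exact (k y').2

theorem mem_supp_push {B' B : Type*} [Ring B'] [Ring B] {ψ : B' →+* B}
    (hψ : Function.Injective ψ) {Y' Y : Type*} {v : Y' → Y} (hv : Function.Injective v)
    (k : Y' →₀ B') (y : Y') (hy : y ∈ k.support) : v y ∈ (push ψ v k).support := by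
  rw [Finsupp.mem_support_iff] at hy ⊢
  rw [push_apply, Finsupp.mapDomain_apply hv, bc_apply]
  intro h
  exact hy (hψ (by rw [h, map_zero]))

theorem subltSub (h : Filt φ fil G s) (hS : Good φ fil s e d S) (i : subI S) (y : subX hS) :
    y ∈ ltSub (subfil hS) i ↔ (y : X) ∈ ltSub fil i.1 := by
  have hm : Monotone (subfil hS) := fun i j hij x hx => h.mono hij hx
  constructor
  · intro hy
    rcases (mem_ltSub hm).1 hy with rfl | ⟨j, hj, hyj⟩
    · exact Submodule.zero_mem _
    · exact (mem_ltSub h.mono).2 (Or.inr ⟨j.1, hj, hyj⟩)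
  · intro hy
    rcases hS.lt _ _ i.2 y.2 hy with h0 | ⟨j, hjS, hj, hyj⟩
    · have : y = 0 := Subtype.ext h0
      rw [this]
      exact Submodule.zero_mem _
    · exact (mem_ltSub hm).2 (Or.inr ⟨⟨j, hjS⟩, hj, hyj⟩)

theorem sublc (hS : Good φ fil s e d S) (i : subI S) (l : subG hS i →₀ subA hS) :
    ((Finsupp.linearCombination (subA hS) (subs hS i) l : subX hS) : X) =
      Finsupp.linearCombination A (s i.1) (push (subA hS).subtype (incG hS i) l) := by
  have : (incX hS).comp (Finsupp.linearCombination (subA hS) (subs hS i)) =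
      (Finsupp.linearCombination A (s i.1)).comp (push (subA hS).subtype (incG hS i)) := by
    apply semi_ext
    intro y
    simp only [LinearMap.comp_apply, push_single, Finsupp.linearCombination_single, map_one,
      one_smul]
    rfl
  exact congrArg (fun h => h l) this

theorem subFilt (h : Filt φ fil G s) (hS : Good φ fil s e d S) :
    Filt (I := subI S) (subφ hS) (subfil hS) (fun i => subG hS i) (subs hS) where
  mono := fun i j hij x hx => h.mono hij hx
  cover := fun x => by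
    obtain ⟨i, hi, hx⟩ := hS.xi _ x.2
    exact ⟨⟨i, hi⟩, hx⟩
  flat := fun i => by
    refine EqFlat.reflect (incG hS i) Subtype.val_injective (incG_inj hS i) fun k hk => ?_
    obtain ⟨T, hT, hTk, hTy⟩ := hS.flatG i.1 _ i.2
      (pushG_dat hS i (subR hS) Srt.r (fun _ hb => hb) k) hk
    refine ⟨T, hT, hTk, fun y hy => ?_⟩
    exact pushG_exists hS i (subR hS) Srt.r (fun _ hb => hb) _
      (hTy _ (mem_supp_push Subtype.val_injective (incG_inj hS i) k y hy))
  mem := fun i g => h.mem i.1 g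
  span := fun i x hx => by
    obtain ⟨l, hl, hlx⟩ := hS.span i.1 x i.2 x.2 hx
    obtain ⟨k, rfl⟩ := pushG_exists hS i (subA hS) Srt.a (fun _ hb => hb) l hl
    refine ⟨k, ?_⟩
    rw [subltSub h, Submodule.coe_sub, sublc]
    exact hlx
  ker := fun i l => by
    have hc : ∀ r : subR hS, (subA hS).subtype (subφ hS r) = φ ((subR hS).subtype r) :=
      fun r => rfl
    rw [subltSub h, sublc, h.ker]
    constructor
    · intro hl
      obtain ⟨t, c, ht, ht2, hc2, hlt⟩ := hS.ker i.1 _ i.2
        (pushG_dat hS i (subA hS) Srt.a (fun _ hb => hb) l) hl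
      exact relU_reflect hc Subtype.val_injective (incG hS i) (incG_inj hS i) l t c ht hlt
        (fun k hk => pushG_exists hS i (subR hS) Srt.r (fun _ hb => hb) k (ht2 k hk))
        (fun k hk => ⟨⟨c k, hc2 k hk⟩, rfl⟩)
    · intro hl
      exact relU_push hc (incG hS i) l hl

theorem subZflat (hS : Good φ fil s e d S) (hed : ∀ x, e (d x) = d x)
    (hdd : ∀ x, d (d x) = 0) : EqFlat (subA hS) (LinearMap.range (subd hS)) := by
  refine EqFlat.reflect (incZ hS) Subtype.val_injective (incZ_inj hS) fun k hk => ?_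
  obtain ⟨T, hT, hTk, hTy⟩ := hS.flatZ _ (pushZ_dat hS k) hk
  refine ⟨T, hT, hTk, fun y hy => ?_⟩
  exact pushZ_exists hS hed hdd _
    (hTy _ (mem_supp_push Subtype.val_injective (incZ_inj hS) k y hy))

/-- The relation submodule of a subset. -/
noncomputable def Krel (d : X →ₗ[A] X) (S : Set (Srt R A X I G)) :
    Submodule A (LinearMap.range d →₀ A) :=
  Submodule.span A {k | pr A (LinearMap.range d) k = 0 ∧
    dat (fun z : LinearMap.range d => Srt.x (z : X)) Srt.a k ⊆ S}

omit [LinearOrder I] [∀ i, AddCommGroup (G i)] [Ring R] [∀ i, Module R (G i)] in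
theorem Krel_mono {S T : Set (Srt R A X I G)} (h : S ⊆ T) : Krel d S ≤ Krel d T :=
  Submodule.span_mono fun _ hk => ⟨hk.1, hk.2.trans h⟩

omit [LinearOrder I] [∀ i, AddCommGroup (G i)] [Ring R] [∀ i, Module R (G i)] in
theorem Krel_le_ker (S : Set (Srt R A X I G)) :
    Krel d S ≤ LinearMap.ker (pr A (LinearMap.range d)) :=
  Submodule.span_le.2 fun _ hk => hk.1

omit [LinearOrder I] [∀ i, AddCommGroup (G i)] [Ring R] [∀ i, Module R (G i)] in
theorem Krel_iUnion {ι : Type*} [Nonempty ι] (S : ι → Set (Srt R A X I G))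
    (hdir : Directed (· ⊆ ·) S) : Krel d (⋃ i, S i) = ⨆ i, Krel d (S i) := by
  apply le_antisymm
  · refine Submodule.span_le.2 fun k hk => ?_
    have hfin : (dat (fun z : LinearMap.range d => (Srt.x (z : X) : Srt R A X I G))
      Srt.a k).Finite := dat_finite _ _ _
    obtain ⟨i, hi⟩ := hdir.exists_mem_subset_of_finset_subset_biUnion
      (s := hfin.toFinset) (by simpa using hk.2)
    exact Submodule.mem_iSup_of_mem i (Submodule.subset_span ⟨hk.1, by simpa using hi⟩)
  · exact iSup_le fun i => Krel_mono (Set.subset_iUnion S i)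

theorem Krel_eq (hS : Good φ fil s e d S) (hed : ∀ x, e (d x) = d x)
    (hdd : ∀ x, d (d x) = 0) : Krel d S =
      RelU (subA hS).subtype (LinearMap.range (subd hS)) (incZ hS) := by
  apply le_antisymm
  · refine Submodule.span_le.2 fun k hk => ?_
    obtain ⟨k', rfl⟩ := pushZ_exists hS hed hdd k hk.2
    refine Submodule.subset_span ⟨k', ?_, rfl⟩
    change pr _ _ k' = 0
    apply incZ_inj hS
    have h1 := pr_push (incZ hS) k'
    rw [← h1, map_zero]
    exact hk.1
  · refine Submodule.span_le.2 ?_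
    rintro _ ⟨k, hk, rfl⟩
    refine Submodule.subset_span ⟨?_, pushZ_dat hS k⟩
    change pr _ _ (push (subA hS).subtype (incZ hS) k) = 0
    have hk' : pr _ _ k = 0 := hk
    have h1 := pr_push (incZ hS) k
    rw [hk', map_zero] at h1
    exact h1

end

end Pool.Agent.Lib.MP_342ba6_al
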