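import Pool.Agent.Lib.MP_342ba6_al.Basic
import Pool.Agent.Lib.MP_342ba6_al.Defs

/-!
Basic facts about tensor products over noncommutative rings.
-/

namespace Pool.Agent.Lib.MP_342ba6_al

universe u

open TensorProduct

section API

variable {R : Type u} [Ring R] {N N' G M : Type u} [AddCommGroup N] [Module Rᵐᵒᵖ N]
  [AddCommGroup N'] [Module Rᵐᵒᵖ N'] [AddCommGroup G] [Module R G] [AddCommGroup M]

variable (R) in
/-- Pure tensors. -/
def tmk (n : N) (g : G) : RelTensor R N G :=
  QuotientAddGroup.mk (s := balancedRel R N G) (n ⊗ₜ[ℤ] g)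

theorem tmk_bal (n : N) (r : R) (g : G) :
    tmk R (MulOpposite.op r • n) g = tmk R n (r • g) := by
  unfold tmk
  refine (QuotientAddGroup.eq_iff_sub_mem).2 ?_
  exact AddSubgroup.subset_closure ⟨n, r, g, rfl⟩

theorem tmk_add_left (n n' : N) (g : G) : tmk R (n + n') g = tmk R n g + tmk R n' g := by
  unfold tmk
  rw [TensorProduct.add_tmul]
  rfl

theorem tmk_add_right (n : N) (g g' : G) : tmk R n (g + g') = tmk R n g + tmk R n g' := by
  unfold tmk
  rw [TensorProduct.tmul_add]
  rfl

theorem tmk_zero_left (g : G) : tmk R (0 : N) g = 0 := by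
  unfold tmk
  rw [TensorProduct.zero_tmul]
  rfl

theorem tmk_zero_right (n : N) : tmk R n (0 : G) = 0 := by
  unfold tmk
  rw [TensorProduct.tmul_zero]
  rfl

theorem map_tmk (f : N →ₗ[Rᵐᵒᵖ] N') (n : N) (g : G) :
    RelTensor.map R G f (tmk R n g) = tmk R (f n) g := rfl

theorem relTensor_induction {P : RelTensor R N G → Prop} (h0 : P 0)
    (h1 : ∀ n g, P (tmk R n g)) (h2 : ∀ x y, P x → P y → P (x + y)) (x : RelTensor R N G) :
    P x := by
  obtain ⟨t, rfl⟩ := QuotientAddGroup.mk_surjective x
  induction t using TensorProduct.induction_on with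
  | zero => exact h0
  | tmul n g => exact h1 n g
  | add a b ha hb => exact h2 _ _ ha hb

/-- Maps out of the tensor product. -/
noncomputable def relLift (B : N →+ G →+ M)
    (hB : ∀ n (r : R) g, B (MulOpposite.op r • n) g = B n (r • g)) : RelTensor R N G →+ M :=
  QuotientAddGroup.lift (balancedRel R N G)
    (TensorProduct.liftAddHom B (fun r n g => by
      rw [map_zsmul, map_zsmul]
      rfl)) (by
    intro x hx
    have : balancedRel R N G ≤ (TensorProduct.liftAddHom B (fun r n g => by
      rw [map_zsmul, map_zsmul]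
      rfl)).ker := by
      refine (AddSubgroup.closure_le _).2 ?_
      rintro _ ⟨n, r, g, rfl⟩
      change TensorProduct.liftAddHom B _ _ = 0
      rw [map_sub, TensorProduct.liftAddHom_tmul, TensorProduct.liftAddHom_tmul, hB, sub_self]
    exact this hx)

theorem relLift_tmk (B : N →+ G →+ M)
    (hB : ∀ n (r : R) g, B (MulOpposite.op r • n) g = B n (r • g)) (n : N) (g : G) :
    relLift B hB (tmk R n g) = B n g := rfl

end API

end Pool.Agent.Lib.MP_342ba6_al
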